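import Pool.Agent.H85.UC2
import Pool.Agent.H8.CDW.Sph

/-!
# helper85: bridge between `GHS (ZMod 2)` for clique complexes and helper8's `Sphere`
-/

namespace Pool.Agent.H85.UC

open Finset

/-- The faces of the clique complex of `G`. -/
def cl {V : Type*} (G : SimpleGraph V) (σ : Finset V) : Prop := G.IsClique (σ : Set V)

section

variable {V : Type*}

theorem lk_cl_iff [DecidableEq V] (G : SimpleGraph V) (t s : Finset V) :
    (Disjoint s t ∧ cl G (s ∪ t)) ↔ Pool.H8.CDW.Link G t s := by
  unfold cl Pool.H8.CDW.Link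
  rw [Finset.coe_union]

end

section Bridge

variable {V : Type*} [Fintype V] [LinearOrder V]

omit [Fintype V] in
theorem lk_cl (G : SimpleGraph V) (t s : Finset V) :
    Lk (cl G) t s ↔ Pool.H8.CDW.Link G t s := lk_cl_iff G t s

/-- A mod 2 homology sphere with all its links (homology form) is one in the cohomology form. -/
theorem sphere_of_ghs {G : SimpleGraph V} {N : ℕ} (h : GHS (ZMod 2) (cl G) N) :
    Pool.H8.CDW.Sphere G N where
  card_le := fun t ht => h.dim t ht
  exact := by
    intro t ht k hk g hg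
    obtain ⟨b, _, hb⟩ := (h.sph ht).cohom (p := k) (by omega) g
      (fun ρ hρ hc => hg ρ ((lk_cl G t ρ).1 hρ) hc)
    exact ⟨b, fun s hs hc => (hb s ((lk_cl G t s).2 hs) hc).symm⟩
  top := by
    classical
    intro t ht
    have hd : t.card ≤ N := h.dim t ht
    refine ⟨N - t.card, by omega, ?_⟩
    obtain ⟨z, hz1, _, ⟨ρ0, hρ1, hρ2, hρ3⟩, hz4⟩ := (h.sph ht).cohom_top (A := ZMod 2)
    have hiff : ∀ g : Finset V → ZMod 2,
        Pool.H8.CDW.IsCob G t (N - t.card) g ↔ ∑ ρ, z ρ • g ρ = 0 := by
      intro g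
      rw [hz4 g]
      constructor
      · rintro ⟨b, hb⟩
        refine ⟨fun ρ => if ρ.card + 1 = N - t.card ∧ Lk (cl G) t ρ then b ρ else 0, ?_, ?_⟩
        · intro ρ hρ
          by_contra hne
          exact hρ (if_neg hne)
        · intro ρ hρ hc
          rw [hb ρ ((lk_cl G t ρ).1 hρ) hc]
          unfold ucb Pool.H8.CDW.cob
          refine Finset.sum_congr rfl (fun v hv => ?_)
          refine if_pos ⟨?_, (h.sph ht).down _ _ hρ (erase_subset v ρ)⟩
          rw [card_erase_of_mem hv]
          have : 0 < ρ.card := card_pos.2 ⟨v, hv⟩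
          omega
      · rintro ⟨b, _, hb⟩
        exact ⟨b, fun s hs hc => (hb s ((lk_cl G t s).2 hs) hc).symm⟩
    have hg0 : ∑ ρ, z ρ • (Pi.single ρ0 1 : Finset V → ZMod 2) ρ = 1 := by
      rw [Finset.sum_eq_single ρ0]
      · rw [Pi.single_eq_same, hρ3, smul_eq_mul, mul_one]
      · intro ρ _ hne
        rw [Pi.single_eq_of_ne hne, smul_zero]
      · intro hne
        exact absurd (mem_univ _) hne
    refine ⟨Pi.single ρ0 1, ?_, ?_⟩
    · rw [hiff, hg0]
      exact one_ne_zero
    · intro g'
      rw [hiff, hiff]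
      have h1 : ∑ ρ, z ρ • (g' ρ + (Pi.single ρ0 1 : Finset V → ZMod 2) ρ) =
          ∑ ρ, z ρ • g' ρ + 1 := by
        conv_rhs => rw [← hg0]
        rw [← Finset.sum_add_distrib]
        exact Finset.sum_congr rfl (fun ρ _ => smul_add _ _ _)
      rw [h1]
      have h2 : ∀ k : ZMod 2, k = 0 ∨ k + 1 = 0 := by decide
      exact h2 _

/-- A mod 2 homology sphere with all its links (cohomology form) is one in the homology form. -/
theorem ghs_of_sphere {G : SimpleGraph V} {N : ℕ} (h : Pool.H8.CDW.Sphere G N) :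
    GHS (ZMod 2) (cl G) N where
  cpx := ⟨by unfold cl; simp, fun σ τ hσ hτ => hσ.subset (by exact_mod_cast hτ)⟩
  dim := fun σ hσ => h.card_le σ hσ
  acyc := by
    intro τ hτ p hp c hc hc0
    have hcu : ∀ ρ, ubd c ρ = 0 := fun ρ => by rw [← bd_eq_ubd]; exact hc0 ρ
    by_contra hne
    -- the space of boundaries
    have hnot : c ∉ (Csub (Lk (cl G) τ) (p + 1)).map (ubdL (V := V)) := by
      rintro ⟨b, hb1, hb2⟩
      exact hne ⟨b, hb1, fun ρ => by rw [bd_eq_ubd]; exact congrFun hb2 ρ⟩
    obtain ⟨f, hf1, hf2⟩ := Submodule.exists_le_ker_of_notMem hnot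
    set g : Finset V → ZMod 2 := fun ρ => f (Pi.single ρ 1) with hg
    have hfg : ∀ x : Finset V → ZMod 2, f x = ∑ ρ, x ρ • g ρ := by
      intro x
      have h1 : x = ∑ σ, x σ • (Pi.single σ (1 : ZMod 2) : Finset V → ZMod 2) := by
        funext ρ
        rw [Finset.sum_apply, Finset.sum_eq_single ρ]
        · simp
        · intro σ _ hne
          simp [Pi.single_eq_of_ne (Ne.symm hne)]
        · intro h
          exact absurd (mem_univ ρ) h
      conv_lhs => rw [h1]
      rw [map_sum]
      refine Finset.sum_congr rfl (fun σ _ => ?_)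
      rw [map_smul]
    have hgc : ∀ s, Pool.H8.CDW.Link G τ s → s.card = p + 1 → Pool.H8.CDW.cob g s = 0 := by
      intro s hs hsc
      have hmem : Supp (Lk (cl G) τ) (p + 1) (Pi.single s (1 : ZMod 2) : Finset V → ZMod 2) := by
        intro σ hσ
        have h2 : σ = s := by
          by_contra hne
          exact hσ (Pi.single_eq_of_ne hne _)
        rw [h2]
        exact ⟨hsc, (lk_cl G τ s).2 hs⟩
      have h3 : f (ubd (Pi.single s (1 : ZMod 2) : Finset V → ZMod 2)) = 0 := by
        have := hf2 (Submodule.mem_map_of_mem (f := ubdL (V := V)) hmem)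
        exact this
      rw [hfg, adj, pair_single] at h3
      exact h3
    obtain ⟨b, hb⟩ := h.exact τ hτ p hp g hgc
    apply hf1
    rw [hfg]
    have h4 : ∑ ρ, c ρ • g ρ = ∑ ρ, c ρ • ucb b ρ := by
      refine Finset.sum_congr rfl (fun ρ _ => ?_)
      by_cases h5 : c ρ = 0
      · rw [h5, zero_smul, zero_smul]
      · obtain ⟨h6, h7⟩ := hc ρ h5
        rw [hb ρ ((lk_cl G τ ρ).1 h7) h6]
        rfl
    rw [h4, ← adj]
    refine Finset.sum_eq_zero (fun ρ _ => ?_)
    rw [hcu ρ, zero_smul]
  top := by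
    intro τ hτ
    obtain ⟨k, hk, g, hg1, hg2⟩ := h.top τ hτ
    have hkk : N - τ.card = k := by omega
    rw [hkk]
    -- the space of coboundaries
    let B : Submodule (ZMod 2) (Finset V → ZMod 2) :=
      { carrier := {x | Pool.H8.CDW.IsCob G τ k x}
        add_mem' := by
          rintro x y ⟨a, ha⟩ ⟨b, hb⟩
          refine ⟨a + b, fun s hs hsc => ?_⟩
          rw [Pi.add_apply, ha s hs hsc, hb s hs hsc]
          unfold Pool.H8.CDW.cob
          rw [← Finset.sum_add_distrib]
          rfl
        zero_mem' := by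
          refine ⟨0, fun s _ _ => ?_⟩
          unfold Pool.H8.CDW.cob
          simp
        smul_mem' := by
          rintro r x ⟨a, ha⟩
          refine ⟨r • a, fun s hs hsc => ?_⟩
          rw [Pi.smul_apply, ha s hs hsc]
          unfold Pool.H8.CDW.cob
          rw [Finset.smul_sum]
          rfl }
    have hgB : g ∉ B := hg1
    obtain ⟨f, hf1, hf2⟩ := Submodule.exists_le_ker_of_notMem hgB
    set z : Finset V → ZMod 2 := fun ρ => f (Pi.single ρ 1) with hz
    have hfz : ∀ x : Finset V → ZMod 2, f x = ∑ ρ, x ρ • z ρ := by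
      intro x
      have h1 : x = ∑ σ, x σ • (Pi.single σ (1 : ZMod 2) : Finset V → ZMod 2) := by
        funext ρ
        rw [Finset.sum_apply, Finset.sum_eq_single ρ]
        · simp
        · intro σ _ hne
          simp [Pi.single_eq_of_ne (Ne.symm hne)]
        · intro h
          exact absurd (mem_univ ρ) h
      conv_lhs => rw [h1]
      rw [map_sum]
      refine Finset.sum_congr rfl (fun σ _ => ?_)
      rw [map_smul]
    have hB0 : ∀ x, Pool.H8.CDW.IsCob G τ k x → f x = 0 := fun x hx => hf2 hx
    have hzs : LkSupp (cl G) τ k z := by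
      intro ρ hρ
      by_contra hne
      apply hρ
      refine hB0 _ ⟨0, fun s hs hsc => ?_⟩
      have h3 : Pool.H8.CDW.cob (0 : Finset V → ZMod 2) s = 0 := by
        unfold Pool.H8.CDW.cob
        simp
      rw [h3]
      refine Pi.single_eq_of_ne ?_ _
      rintro rfl
      exact hne ⟨hsc, (lk_cl G τ s).2 hs⟩
    have hzc : ∀ σ, ubd z σ = 0 := by
      intro σ
      have h3 : f (ucb (Pi.single σ (1 : ZMod 2) : Finset V → ZMod 2)) = 0 :=
        hB0 _ ⟨Pi.single σ 1, fun s _ _ => rfl⟩
      have h4 : ∑ ρ, ubd z ρ • (Pi.single σ (1 : ZMod 2) : Finset V → ZMod 2) ρ =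
          f (ucb (Pi.single σ (1 : ZMod 2) : Finset V → ZMod 2)) := by
        rw [adj, hfz]
        refine Finset.sum_congr rfl (fun ρ _ => ?_)
        rw [smul_eq_mul, smul_eq_mul, mul_comm]
      rw [h3, Finset.sum_eq_single σ] at h4
      · rw [Pi.single_eq_same, smul_eq_mul, mul_one] at h4
        exact h4
      · intro ρ _ hne
        rw [Pi.single_eq_of_ne hne, smul_zero]
      · intro hne
        exact absurd (mem_univ _) hne
    have hz0 : z ≠ 0 := by
      intro h0
      apply hf1
      rw [hfz, h0]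
      simp
    refine ⟨z, hzs, fun ρ => by rw [bd_eq_ubd]; exact hzc ρ, ?_, ?_⟩
    · intro n hn
      by_contra hne
      have h7 : ∀ k : ZMod 2, ¬ k = 0 → k = 1 := by decide
      rw [h7 n hne, one_smul] at hn
      exact hz0 hn
    · intro c hc hc0
      have hcu : ∀ ρ, ubd c ρ = 0 := fun ρ => by rw [← bd_eq_ubd]; exact hc0 ρ
      -- the functional of `c` kills the coboundaries
      have hcB : ∀ x, Pool.H8.CDW.IsCob G τ k x → ∑ ρ, c ρ • x ρ = 0 := by
        rintro x ⟨b, hb⟩
        have h4 : ∑ ρ, c ρ • x ρ = ∑ ρ, c ρ • ucb b ρ := by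
          refine Finset.sum_congr rfl (fun ρ _ => ?_)
          by_cases h5 : c ρ = 0
          · rw [h5, zero_smul, zero_smul]
          · obtain ⟨h6, h7⟩ := hc ρ h5
            rw [hb ρ ((lk_cl G τ ρ).1 h7) h6]
            rfl
        rw [h4, ← adj]
        refine Finset.sum_eq_zero (fun ρ _ => ?_)
        rw [hcu ρ, zero_smul]
      -- compare `c` with `n z`, `n` the value on `g`
      have h8 : ∀ k : ZMod 2, k = 0 ∨ k = 1 := by decide
      have hfg : f g = 1 := by
        rcases h8 (f g) with h9 | h9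
        · exact absurd h9 hf1
        · exact h9
      refine ⟨∑ ρ, c ρ • g ρ, ?_⟩
      set n : ZMod 2 := ∑ ρ, c ρ • g ρ with hn
      have hx : ∀ x : Finset V → ZMod 2, ∑ ρ, c ρ • x ρ = n * f x := by
        intro x
        rcases hg2 x with h9 | h9
        · rw [hcB x h9, hB0 x h9, mul_zero]
        · have h10 := hcB _ h9
          have h11 := hB0 _ h9
          have h12 : ∑ ρ, c ρ • (x ρ + g ρ) = ∑ ρ, c ρ • x ρ + n := by
            rw [hn, ← Finset.sum_add_distrib]
            exact Finset.sum_congr rfl (fun ρ _ => smul_add _ _ _)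
          rw [h12] at h10
          have h13 : f (fun s => x s + g s) = f x + 1 := by
            rw [← hfg, ← map_add]
            rfl
          rw [h13] at h11
          have h14 : ∀ a m e : ZMod 2, a + m = 0 → e + 1 = 0 → a = m * e := by decide
          exact h14 _ _ _ h10 h11
      funext ρ
      have h15 := hx (Pi.single ρ 1)
      rw [Finset.sum_eq_single ρ] at h15
      · rw [Pi.single_eq_same, smul_eq_mul, mul_one] at h15
        rw [h15]
        rfl
      · intro σ _ hne
        rw [Pi.single_eq_of_ne hne, smul_zero]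
      · intro hne
        exact absurd (mem_univ _) hne

/-- The form asked for in the final assembly. -/
theorem sphere_of_GHS {V : Type} [Fintype V] [LinearOrder V] (G : SimpleGraph V) (N : ℕ)
    (h : GHS (ZMod 2) (fun s : Finset V => G.IsClique (s : Set V)) N) :
    Pool.H8.CDW.Sphere G N := sphere_of_ghs h

/-- The same for any instance of decidable equality. -/
theorem sphere_of_GHS' {V : Type} [Fintype V] [LinearOrder V] (inst : DecidableEq V)
    (G : SimpleGraph V) (N : ℕ)
    (h : GHS (ZMod 2) (fun s : Finset V => G.IsClique (s : Set V)) N) :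
    @Pool.H8.CDW.Sphere V inst G N := by
  have key : ∀ i j : DecidableEq V, @Pool.H8.CDW.Sphere V i G N →
      @Pool.H8.CDW.Sphere V j G N := by
    intro i j hi
    rw [Subsingleton.elim j i]
    exact hi
  exact key _ _ (sphere_of_GHS G N h)

/-- The two forms of mod 2 homology spheres among flag complexes agree. -/
theorem ghs_iff_sphere (G : SimpleGraph V) (N : ℕ) :
    GHS (ZMod 2) (cl G) N ↔ Pool.H8.CDW.Sphere G N := ⟨sphere_of_ghs, ghs_of_sphere⟩

end Bridge

end Pool.Agent.H85.UC
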