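import Pool.Agent.H85.UC2

/-!
# helper85: the fundamental cycle of a mod 2 homology sphere (all links spheres) is all ones
-/

namespace Pool.Agent.H85.UC

open Finset

variable {V : Type*} [Fintype V] [LinearOrder V]

/-- The part of a chain above the vertex `v`. -/
def res (v : V) (z : Finset V → ZMod 2) : Finset V → ZMod 2 :=
  fun ρ => if v ∈ ρ then 0 else z (insert v ρ)

omit [Fintype V] in
theorem supp_res {Δ : Finset V → Prop} {τ : Finset V} {m : ℕ} {z : Finset V → ZMod 2}
    (hz : Supp (Lk Δ τ) (m + 1) z) (v : V) : Supp (Lk Δ (insert v τ)) m (res v z) := by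
  intro ρ hρ
  unfold res at hρ
  by_cases hv : v ∈ ρ
  · rw [if_pos hv] at hρ
    exact absurd rfl hρ
  · rw [if_neg hv] at hρ
    obtain ⟨h1, h2, h3⟩ := hz _ hρ
    rw [card_insert_of_notMem hv] at h1
    refine ⟨by omega, ?_, ?_⟩
    · rw [disjoint_insert_left] at h2
      rw [disjoint_insert_right]
      exact ⟨hv, h2.2⟩
    · rw [insert_union] at h3
      rw [union_insert]
      exact h3

theorem ubd_res {z : Finset V → ZMod 2} (hz : ∀ ρ, ubd z ρ = 0) (v : V) (σ : Finset V) :
    ubd (res v z) σ = 0 := by
  by_cases hv : v ∈ σ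
  · unfold ubd res
    refine Finset.sum_eq_zero (fun w _ => ?_)
    rw [if_pos (mem_insert_of_mem hv)]
  · have h1 := hz (insert v σ)
    unfold ubd at h1 ⊢
    rw [compl_insert] at h1
    rw [← Finset.add_sum_erase σᶜ _ (mem_compl.2 hv)]
    have h2 : res v z (insert v σ) = 0 := by
      unfold res
      rw [if_pos (mem_insert_self v σ)]
    rw [h2, zero_add, ← h1]
    refine Finset.sum_congr rfl (fun w hw => ?_)
    rw [mem_erase, mem_compl] at hw
    unfold res
    rw [if_neg, insert_comm]
    rw [mem_insert, not_or]
    exact ⟨fun h => hw.1 h.symm, hv⟩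

/-- Every face of the complex lies in a face with `d` vertices (in the form for links). -/
theorem GHS.exists_facet {Δ : Finset V → Prop} {d : ℕ} (h : GHS (ZMod 2) Δ d) {τ : Finset V}
    (hτ : Δ τ) {m : ℕ} (hm : τ.card + m = d) : ∃ ρ, Lk Δ τ ρ ∧ ρ.card = m := by
  obtain ⟨z, hz1, _, hz3, _⟩ := (h.sph hτ).top
  by_contra hne
  apply hz3
  funext ρ
  by_contra h1
  obtain ⟨h2, h3⟩ := hz1 ρ h1
  exact hne ⟨ρ, h3, by omega⟩

theorem ones_aux {Δ : Finset V → Prop} {d : ℕ} (h : GHS (ZMod 2) Δ d) : ∀ (m : ℕ) (τ : Finset V),
    Δ τ → τ.card + m = d → ∀ z : Finset V → ZMod 2, Supp (Lk Δ τ) m z → (∀ ρ, ubd z ρ = 0) →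
    z ≠ 0 → ∀ ρ, Lk Δ τ ρ → ρ.card = m → z ρ = 1 := by
  have h01 : ∀ k : ZMod 2, k ≠ 0 → k = 1 := by decide
  intro m
  induction m with
  | zero =>
    intro τ hτ hm z hz1 hz2 hz3 ρ hρ hc
    rw [card_eq_zero] at hc
    subst hc
    apply h01
    intro h0
    apply hz3
    funext σ
    by_contra h1
    have h2 := (hz1 σ h1).1
    rw [card_eq_zero] at h2
    rw [h2] at h1
    exact h1 h0
  | succ m ih =>
    intro τ hτ hm z hz1 hz2 hz3 ρ hρ hc
    have hS := h.sph hτ
    have hd : d - τ.card = m + 1 := by omega
    rw [hd] at hS
    -- dichotomy for the vertices of the link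
    have hdich : ∀ v : V, Lk Δ τ {v} →
        (∀ σ, Lk Δ τ σ → σ.card = m + 1 → v ∈ σ → z σ = 1) ∨
        (∀ σ, Lk Δ τ σ → σ.card = m + 1 → v ∈ σ → z σ = 0) := by
      intro v hv
      have hvτ : v ∉ τ := by
        have := hv.1
        rw [disjoint_singleton_left] at this
        exact this
      have hface : Δ (insert v τ) := by
        have := hv.2
        rwa [singleton_union] at this
      have hcard : (insert v τ).card + m = d := by
        rw [card_insert_of_notMem hvτ]
        omega
      have hlk : ∀ σ, Lk Δ τ σ → v ∈ σ → Lk Δ (insert v τ) (σ.erase v) := by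
        intro σ hσ hvσ
        refine ⟨?_, ?_⟩
        · rw [disjoint_insert_right]
          exact ⟨notMem_erase v σ, hσ.1.mono_left (erase_subset v σ)⟩
        · rw [union_insert, ← insert_union, insert_erase hvσ]
          exact hσ.2
      by_cases h0 : res v z = 0
      · right
        intro σ hσ hcσ hvσ
        have h1 := congrFun h0 (σ.erase v)
        unfold res at h1
        rw [if_neg (notMem_erase v σ), insert_erase hvσ] at h1
        exact h1
      · left
        intro σ hσ hcσ hvσ
        have h1 := ih (insert v τ) hface hcard (res v z) (supp_res hz1 v) (ubd_res hz2 v) h0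
          (σ.erase v) (hlk σ hσ hvσ) (by rw [card_erase_of_mem hvσ]; omega)
        unfold res at h1
        rw [if_neg (notMem_erase v σ), insert_erase hvσ] at h1
        exact h1
    -- vertices of type one
    classical
    let f : V → ZMod 2 := fun v =>
      if ∀ σ, Lk Δ τ σ → σ.card = m + 1 → v ∈ σ → z σ = 1 then 1 else 0
    have hex : ∀ s : Finset V, Lk Δ τ s → ∃ σ, Lk Δ τ σ ∧ σ.card = m + 1 ∧ s ⊆ σ := by
      intro s hs
      have hcs : s.card ≤ m + 1 := hS.dim s hs
      have hface : Δ (s ∪ τ) := hs.2
      obtain ⟨σ, hσ1, hσ2⟩ := h.exists_facet hface (m := m + 1 - s.card) (by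
        rw [card_union_of_disjoint hs.1]
        omega)
      have hdis : Disjoint σ s := hσ1.1.mono_right subset_union_left
      have hdis2 : Disjoint σ τ := hσ1.1.mono_right subset_union_right
      refine ⟨σ ∪ s, ⟨disjoint_union_left.2 ⟨hdis2, hs.1⟩, ?_⟩, ?_, subset_union_right⟩
      · have := hσ1.2
        rwa [← union_assoc] at this
      · rw [card_union_of_disjoint hdis]
        omega
    have hf1 : ∀ v σ, Lk Δ τ σ → σ.card = m + 1 → v ∈ σ → f v = z σ := by
      intro v σ hσ hcσ hvσ
      have hv : Lk Δ τ {v} := hS.down _ _ hσ (singleton_subset_iff.2 hvσ)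
      rcases hdich v hv with h1 | h1
      · rw [h1 σ hσ hcσ hvσ]
        exact if_pos h1
      · rw [h1 σ hσ hcσ hvσ]
        refine if_neg (fun h2 => ?_)
        have h3 := h2 σ hσ hcσ hvσ
        rw [h1 σ hσ hcσ hvσ] at h3
        exact absurd h3 (by decide)
    -- the type is constant
    have hconst : ∀ v w, Lk Δ τ {v} → Lk Δ τ {w} → f v = f w := by
      intro v w hv hw
      by_cases hvw : v = w
      · rw [hvw]
      rcases Nat.eq_zero_or_pos m with hm0 | hm0
      · -- rank one: exactly two points
        subst hm0
        set x : Finset V → ZMod 2 := Pi.single {v} 1 + Pi.single {w} 1 with hx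
        have hne : ({v} : Finset V) ≠ {w} := fun h => hvw (singleton_injective h)
        have hxs : Supp (Lk Δ τ) (0 + 1) x := by
          intro σ hσ
          by_cases h1 : σ = {v}
          · subst h1
            exact ⟨by rw [card_singleton], hv⟩
          · by_cases h2 : σ = {w}
            · subst h2
              exact ⟨by rw [card_singleton], hw⟩
            · exfalso
              apply hσ
              rw [hx, Pi.add_apply, Pi.single_eq_of_ne h1, Pi.single_eq_of_ne h2, add_zero]
        have hsg : ∀ u : V, ∀ σ : Finset V,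
            ubd (Pi.single {u} 1 : Finset V → ZMod 2) σ = if σ = ∅ then 1 else 0 := by
          intro u σ
          unfold ubd
          by_cases h1 : σ = ∅
          · subst h1
            rw [if_pos rfl, Finset.sum_eq_single u]
            · rw [insert_empty_eq, Pi.single_eq_same]
            · intro b _ hb
              rw [insert_empty_eq]
              exact Pi.single_eq_of_ne (fun h => hb (singleton_injective h)) _
            · intro h2
              exact absurd (mem_compl.2 (notMem_empty u)) h2
          · rw [if_neg h1]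
            refine Finset.sum_eq_zero (fun b hb => Pi.single_eq_of_ne (fun h2 => ?_) _)
            have h3 := congrArg Finset.card h2
            rw [card_singleton, card_insert_of_notMem (mem_compl.1 hb)] at h3
            have h4 : 0 < σ.card := card_pos.2 (nonempty_iff_ne_empty.2 h1)
            omega
        have hxc : ∀ σ, ubd x σ = 0 := by
          intro σ
          have h1 : ubd x σ = ubd (Pi.single {v} 1 : Finset V → ZMod 2) σ +
              ubd (Pi.single {w} 1 : Finset V → ZMod 2) σ := by
            rw [hx]
            unfold ubd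
            rw [← Finset.sum_add_distrib]
            rfl
          rw [h1, hsg, hsg]
          split_ifs <;> decide
        have hxv : x {v} = 1 := by
          rw [hx, Pi.add_apply, Pi.single_eq_same, Pi.single_eq_of_ne hne, add_zero]
        have hxw : x {w} = 1 := by
          rw [hx, Pi.add_apply, Pi.single_eq_same, Pi.single_eq_of_ne hne.symm, zero_add]
        obtain ⟨z', _, _, _, hz4⟩ := hS.top
        have h5 : z = z' := by
          rcases hz4 z hz1 hz2 with h6 | h6
          · exact absurd h6 hz3
          · exact h6
        have h6 : x = z := by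
          rcases hz4 x hxs hxc with h7 | h7
          · rw [h7, Pi.zero_apply] at hxv
            exact absurd hxv (by decide)
          · rw [h7, h5]
        rw [hf1 v {v} hv (by rw [card_singleton]) (mem_singleton_self v),
          hf1 w {w} hw (by rw [card_singleton]) (mem_singleton_self w), ← h6, hxv, hxw]
      · -- connectedness
        set x : Finset V → ZMod 2 := Pi.single {v} 1 + Pi.single {w} 1 with hx
        have hxs : Supp (Lk Δ τ) 1 x := by
          intro σ hσ
          by_cases h1 : σ = {v}
          · subst h1
            exact ⟨by rw [card_singleton], hv⟩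
          · by_cases h2 : σ = {w}
            · subst h2
              exact ⟨by rw [card_singleton], hw⟩
            · exfalso
              apply hσ
              rw [hx, Pi.add_apply, Pi.single_eq_of_ne h1, Pi.single_eq_of_ne h2, add_zero]
        have hsg : ∀ u : V, ∀ σ : Finset V,
            ubd (Pi.single {u} 1 : Finset V → ZMod 2) σ = if σ = ∅ then 1 else 0 := by
          intro u σ
          unfold ubd
          by_cases h1 : σ = ∅
          · subst h1
            rw [if_pos rfl, Finset.sum_eq_single u]
            · rw [insert_empty_eq, Pi.single_eq_same]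
            · intro b _ hb
              rw [insert_empty_eq]
              exact Pi.single_eq_of_ne (fun h => hb (singleton_injective h)) _
            · intro h2
              exact absurd (mem_compl.2 (notMem_empty u)) h2
          · rw [if_neg h1]
            refine Finset.sum_eq_zero (fun b hb => Pi.single_eq_of_ne (fun h2 => ?_) _)
            have h3 := congrArg Finset.card h2
            rw [card_singleton, card_insert_of_notMem (mem_compl.1 hb)] at h3
            have h4 : 0 < σ.card := card_pos.2 (nonempty_iff_ne_empty.2 h1)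
            omega
        have hxc : ∀ σ, ubd x σ = 0 := by
          intro σ
          have h1 : ubd x σ = ubd (Pi.single {v} 1 : Finset V → ZMod 2) σ +
              ubd (Pi.single {w} 1 : Finset V → ZMod 2) σ := by
            rw [hx]
            unfold ubd
            rw [← Finset.sum_add_distrib]
            rfl
          rw [h1, hsg, hsg]
          split_ifs <;> decide
        obtain ⟨b, hb1, hb2⟩ := hS.acyc 1 (by omega) x hxs hxc
        -- pair with the type function
        let c : Finset V → ZMod 2 := fun σ => ∑ u ∈ σ, if σ = {u} then f u else 0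
        have hcs : ∀ u, c {u} = f u := by
          intro u
          change ∑ u' ∈ ({u} : Finset V), (if ({u} : Finset V) = {u'} then f u' else 0) = f u
          rw [Finset.sum_singleton, if_pos rfl]
        have hpair : ∑ σ, x σ • c σ = f v + f w := by
          have h1 : ∀ u : V, ∑ σ, (Pi.single {u} (1 : ZMod 2) : Finset V → ZMod 2) σ • c σ =
              f u := fun u => by rw [pair_single, hcs]
          rw [← h1 v, ← h1 w, ← Finset.sum_add_distrib]
          refine Finset.sum_congr rfl (fun σ _ => ?_)
          rw [hx, Pi.add_apply, add_smul]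
        have hzero : ∑ σ, x σ • c σ = 0 := by
          have h1 : ∑ σ, x σ • c σ = ∑ σ, ubd b σ • c σ :=
            Finset.sum_congr rfl (fun σ _ => by rw [hb2 σ])
          rw [h1, adj]
          refine Finset.sum_eq_zero (fun σ _ => ?_)
          by_cases h2 : b σ = 0
          · rw [h2, zero_smul]
          · obtain ⟨h3, h4⟩ := hb1 σ h2
            obtain ⟨u, u', hne, rfl⟩ := card_eq_two.1 h3
            obtain ⟨σ', hσ1, hσ2, hσ3⟩ := hex _ h4
            have h5 : f u = z σ' := hf1 u σ' hσ1 hσ2 (hσ3 (mem_insert_self u _))
            have h6 : f u' = z σ' := hf1 u' σ' hσ1 hσ2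
              (hσ3 (mem_insert_of_mem (mem_singleton_self u')))
            have h7 : ucb c {u, u'} = f u' + f u := by
              unfold ucb
              rw [Finset.sum_pair hne]
              have h8 : ({u, u'} : Finset V).erase u = {u'} := by
                rw [erase_insert]
                simpa using hne
              have h9 : ({u, u'} : Finset V).erase u' = {u} := by
                rw [pair_comm, erase_insert]
                simpa using hne.symm
              rw [h8, h9, hcs, hcs]
            rw [h7, h5, h6]
            have h10 : ∀ k : ZMod 2, k + k = 0 := by decide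
            rw [h10, smul_zero]
        rw [hpair] at hzero
        have h11 : ∀ a b : ZMod 2, a + b = 0 → a = b := by decide
        exact h11 _ _ hzero
    -- conclusion
    obtain ⟨v, hv⟩ : ρ.Nonempty := card_pos.1 (by omega)
    have hvL : Lk Δ τ {v} := hS.down _ _ hρ (singleton_subset_iff.2 hv)
    obtain ⟨σ, hσ⟩ : ∃ σ, z σ ≠ 0 := by
      by_contra hne
      apply hz3
      funext σ
      by_contra h1
      exact hne ⟨σ, h1⟩
    obtain ⟨h1, h2⟩ := hz1 σ hσ
    obtain ⟨w, hw⟩ : σ.Nonempty := card_pos.1 (by omega)
    have hwL : Lk Δ τ {w} := hS.down _ _ h2 (singleton_subset_iff.2 hw)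
    rw [← hf1 v ρ hρ hc hv, hconst v w hvL hwL, hf1 w σ h2 h1 hw]
    exact h01 _ hσ

/-- The faces with the maximal number of vertices of the link of a face are `z`, all ones: a cochain
on the top faces of a link is a coboundary iff the sum of its values is zero. -/
theorem GHS.ones {Δ : Finset V → Prop} {d : ℕ} (h : GHS (ZMod 2) Δ d) {τ : Finset V} (hτ : Δ τ)
    [DecidablePred (fun ρ : Finset V => Lk Δ τ ρ ∧ ρ.card = d - τ.card)]
    {A : Type*} [AddCommGroup A] [Module (ZMod 2) A] (c : Finset V → A) :
    ∑ ρ ∈ univ.filter (fun ρ : Finset V => Lk Δ τ ρ ∧ ρ.card = d - τ.card), c ρ = 0 ↔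
      ∃ b : Finset V → A, (∀ ρ, b ρ ≠ 0 → ρ.card + 1 = d - τ.card ∧ Lk Δ τ ρ) ∧
        ∀ ρ, Lk Δ τ ρ → ρ.card = d - τ.card → ucb b ρ = c ρ := by
  obtain ⟨z, hz1, hz2, ⟨ρ0, hρ1, hρ2, hρ3⟩, hz4⟩ := (h.sph hτ).cohom_top (A := A)
  have hd : τ.card ≤ d := h.dim τ hτ
  have hz0 : z ≠ 0 := fun h0 => by
    rw [h0, Pi.zero_apply] at hρ3
    exact absurd hρ3 (by decide)
  have hone := ones_aux h (d - τ.card) τ hτ (by omega) z hz1 hz2 hz0
  rw [← hz4 c, Finset.sum_filter]
  have h1 : ∀ ρ ∈ (univ : Finset (Finset V)),
      (if Lk Δ τ ρ ∧ ρ.card = d - τ.card then c ρ else 0) = z ρ • c ρ := by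
    intro ρ _
    by_cases h2 : Lk Δ τ ρ ∧ ρ.card = d - τ.card
    · rw [if_pos h2, hone ρ h2.1 h2.2, one_smul]
    · rw [if_neg h2]
      have h3 : z ρ = 0 := by
        by_contra h4
        exact h2 ⟨(hz1 ρ h4).2, (hz1 ρ h4).1⟩
      rw [h3, zero_smul]
  rw [Finset.sum_congr rfl h1]

end Pool.Agent.H85.UC
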