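import Mathlib

/-!
# helper85: integral homology spheres are mod 2 homology spheres

`V` is a finite linearly ordered vertex set, a simplicial complex on `V` is a predicate
`Δ : Finset V → Prop`. Chains are functions on the faces with values in a ring `R`; the boundary is
the usual signed one. `GHS R Δ d` says that the link of every face `τ` (the empty face included)
has the reduced homology with coefficients in `R` of a sphere of dimension `d - |τ| - 1`.
For `R = ℤ` this is the combinatorial form of a generalized homology `(d - 1)`-sphere.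

Main result: `GHS ℤ Δ d → GHS (ZMod 2) Δ d`.
-/

namespace Pool.Agent.H85.UC

open Finset

variable {V : Type*} [Fintype V] [LinearOrder V]

/-- The sign with which `v` is inserted in `ρ`: `(-1)` to the number of elements of `ρ` below `v`. -/
def sg (v : V) (ρ : Finset V) : ℤ := (-1) ^ (ρ.filter (fun w => w < v)).card

/-- The simplicial boundary: `(bd c) ρ = ∑ ± c (ρ ∪ {v})` over the vertices `v` outside `ρ`. -/
def bd {W : Type*} [AddCommGroup W] (c : Finset V → W) (ρ : Finset V) : W :=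
  ∑ v ∈ ρᶜ, sg v ρ • c (insert v ρ)

/-- `Δ` (a predicate on the finite sets of vertices) is a simplicial complex. -/
structure IsCpx (Δ : Finset V → Prop) : Prop where
  empty : Δ ∅
  down : ∀ σ τ, Δ σ → τ ⊆ σ → Δ τ

/-- `c` is a chain of the link of `τ`, living on the faces with `p` vertices. -/
def LkSupp {W : Type*} [Zero W] (Δ : Finset V → Prop) (τ : Finset V) (p : ℕ)
    (c : Finset V → W) : Prop :=
  ∀ ρ, c ρ ≠ 0 → ρ.card = p ∧ Disjoint ρ τ ∧ Δ (ρ ∪ τ)

/-- `Δ` is a generalized homology sphere of rank `d` (dimension `d - 1`) over `R`: for every face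
`τ` the reduced homology of the link of `τ` with coefficients in `R` is that of a sphere of
dimension `d - |τ| - 1`, that is, it vanishes except in this top dimension, where it is free of
rank one over `R`. -/
structure GHS (R : Type*) [CommRing R] (Δ : Finset V → Prop) (d : ℕ) : Prop where
  cpx : IsCpx Δ
  dim : ∀ σ, Δ σ → σ.card ≤ d
  acyc : ∀ τ, Δ τ → ∀ p, p + τ.card < d → ∀ c : Finset V → R, LkSupp Δ τ p c →
    (∀ ρ, bd c ρ = 0) → ∃ b : Finset V → R, LkSupp Δ τ (p + 1) b ∧ ∀ ρ, bd b ρ = c ρ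
  top : ∀ τ, Δ τ → ∃ z : Finset V → R, LkSupp Δ τ (d - τ.card) z ∧ (∀ ρ, bd z ρ = 0) ∧
    (∀ n : R, n • z = 0 → n = 0) ∧
    ∀ c : Finset V → R, LkSupp Δ τ (d - τ.card) c → (∀ ρ, bd c ρ = 0) → ∃ n : R, c = n • z

/-! ## `bd ∘ bd = 0` -/

omit [Fintype V] in
private theorem sg_insert_of_lt {v w : V} (h : v < w) {ρ : Finset V} (hv : v ∉ ρ) :
    sg w (insert v ρ) = - sg w ρ := by
  unfold sg
  rw [filter_insert, if_pos h, card_insert_of_notMem (by simp [hv]), pow_succ]
  ring

omit [Fintype V] in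
private theorem sg_insert_of_gt {v w : V} (h : w < v) {ρ : Finset V} :
    sg w (insert v ρ) = sg w ρ := by
  unfold sg
  rw [filter_insert, if_neg (not_lt.2 h.le)]

omit [Fintype V] in
private theorem sg_swap {v w : V} (h : v ≠ w) {ρ : Finset V} (hv : v ∉ ρ) (hw : w ∉ ρ) :
    sg v ρ * sg w (insert v ρ) = - (sg w ρ * sg v (insert w ρ)) := by
  rcases lt_or_gt_of_ne h with h | h
  · rw [sg_insert_of_lt h hv, sg_insert_of_gt h]
    ring
  · rw [sg_insert_of_gt h, sg_insert_of_lt h hw]
    ring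

theorem bd_bd {M : Type*} [AddCommGroup M] (c : Finset V → M) (ρ : Finset V) :
    bd (bd c) ρ = 0 := by
  have h1 : bd (bd c) ρ = ∑ p ∈ ((univ : Finset (V × V)).filter
      (fun p => p.1 ≠ p.2 ∧ p.1 ∉ ρ ∧ p.2 ∉ ρ)),
      (sg p.1 ρ * sg p.2 (insert p.1 ρ)) • c (insert p.2 (insert p.1 ρ)) := by
    unfold bd
    simp only [Finset.smul_sum, smul_smul]
    rw [Finset.sum_sigma']
    refine Finset.sum_bij' (fun x _ => (x.1, x.2)) (fun p _ => ⟨p.1, p.2⟩) ?_ ?_ ?_ ?_ ?_
    · rintro ⟨v, w⟩ h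
      simp only [mem_sigma, mem_compl, mem_insert, not_or] at h
      simp only [mem_filter, mem_univ, true_and]
      exact ⟨fun he => h.2.1 he.symm, h.1, h.2.2⟩
    · rintro ⟨v, w⟩ h
      simp only [mem_filter, mem_univ, true_and] at h
      simp only [mem_sigma, mem_compl, mem_insert, not_or]
      exact ⟨h.2.1, fun he => h.1 he.symm, h.2.2⟩
    · rintro ⟨v, w⟩ _
      rfl
    · rintro ⟨v, w⟩ _
      rfl
    · rintro ⟨v, w⟩ _
      rfl
  rw [h1]
  refine Finset.sum_involution (fun p _ => (p.2, p.1)) ?_ ?_ ?_ ?_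
  · rintro ⟨v, w⟩ h
    simp only [mem_filter, mem_univ, true_and] at h
    dsimp only
    rw [sg_swap h.1 h.2.1 h.2.2, insert_comm w v ρ, neg_smul, neg_add_cancel]
  · rintro ⟨v, w⟩ h _
    simp only [mem_filter, mem_univ, true_and] at h
    intro he
    exact h.1 (congrArg Prod.snd he)
  · rintro ⟨v, w⟩ h
    simp only [mem_filter, mem_univ, true_and] at h ⊢
    exact ⟨fun he => h.1 he.symm, h.2.2, h.2.1⟩
  · rintro ⟨v, w⟩ _
    rfl

/-! ## Reduction modulo two -/

/-- The lift of a chain with values in `ZMod 2` to the integers. -/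
def lift (c : Finset V → ZMod 2) : Finset V → ℤ := fun ρ => (c ρ).val

/-- The reduction of an integral chain. -/
def red (c : Finset V → ℤ) : Finset V → ZMod 2 := fun ρ => (c ρ : ZMod 2)

omit [Fintype V] [LinearOrder V] in
theorem red_lift (c : Finset V → ZMod 2) : red (lift c) = c := by
  funext ρ
  simp [red, lift]

theorem bd_red (c : Finset V → ℤ) (ρ : Finset V) : bd (red c) ρ = ((bd c ρ : ℤ) : ZMod 2) := by
  unfold bd red
  rw [Int.cast_sum]
  refine Finset.sum_congr rfl (fun v _ => ?_)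
  rw [smul_eq_mul, Int.cast_mul, zsmul_eq_mul]

omit [Fintype V] in
theorem lkSupp_lift {Δ : Finset V → Prop} {τ : Finset V} {p : ℕ} {c : Finset V → ZMod 2}
    (h : LkSupp Δ τ p c) : LkSupp Δ τ p (lift c) := by
  intro ρ hρ
  refine h ρ (fun h0 => hρ ?_)
  unfold lift
  rw [h0]
  rfl

omit [Fintype V] in
theorem lkSupp_red {Δ : Finset V → Prop} {τ : Finset V} {p : ℕ} {c : Finset V → ℤ}
    (h : LkSupp Δ τ p c) : LkSupp Δ τ p (red c) := by
  intro ρ hρ
  refine h ρ (fun h0 => hρ ?_)
  unfold red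
  rw [h0]
  rfl

omit [Fintype V] in
theorem lkSupp_sub {Δ : Finset V → Prop} {τ : Finset V} {p : ℕ} {c c' : Finset V → ℤ}
    (h : LkSupp Δ τ p c) (h' : LkSupp Δ τ p c') (n : ℤ) :
    LkSupp Δ τ p (c - n • c') := by
  intro ρ hρ
  by_cases h0 : c ρ = 0
  · refine h' ρ (fun h1 => hρ ?_)
    simp [h0, h1]
  · exact h ρ h0

theorem bd_sub (c c' : Finset V → ℤ) (n : ℤ) (ρ : Finset V) :
    bd (c - n • c') ρ = bd c ρ - n * bd c' ρ := by
  unfold bd
  rw [Finset.mul_sum, ← Finset.sum_sub_distrib]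
  refine Finset.sum_congr rfl (fun v _ => ?_)
  simp only [Pi.sub_apply, Pi.smul_apply, smul_eq_mul]
  ring

/-- The boundary of a chain of the link, on faces with `p + 1` vertices, lives on the faces with
`p` vertices. -/
theorem lkSupp_bd {Δ : Finset V → Prop} (hΔ : IsCpx Δ) {τ : Finset V} {p : ℕ} {c : Finset V → ℤ}
    (h : LkSupp Δ τ (p + 1) c) : LkSupp Δ τ p (bd c) := by
  intro ρ hρ
  unfold bd at hρ
  obtain ⟨v, hv, hne⟩ := Finset.exists_ne_zero_of_sum_ne_zero hρ
  have h1 : c (insert v ρ) ≠ 0 := fun h0 => hne (by rw [h0, smul_zero])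
  obtain ⟨h2, h3, h4⟩ := h _ h1
  rw [mem_compl] at hv
  rw [card_insert_of_notMem hv] at h2
  refine ⟨by omega, ?_, hΔ.down _ _ h4 ?_⟩
  · exact h3.mono_left (subset_insert v ρ)
  · exact union_subset_union (subset_insert v ρ) (Finset.Subset.refl τ)

/-- Faces with no vertex: a boundary of a chain on faces with no vertices is zero. -/
theorem bd_zero_of_card_zero {Δ : Finset V → Prop} {τ : Finset V} {c : Finset V → ℤ}
    (h : LkSupp Δ τ 0 c) (ρ : Finset V) : bd c ρ = 0 := by
  unfold bd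
  refine Finset.sum_eq_zero (fun v hv => ?_)
  by_contra hne
  have h1 : c (insert v ρ) ≠ 0 := fun h0 => hne (by rw [h0, smul_zero])
  have h2 := (h _ h1).1
  rw [Finset.card_eq_zero] at h2
  exact Finset.insert_ne_empty v ρ h2

/-- The correction: a mod 2 cycle on the faces with `p` vertices (`p` at most the top one) lifts to
an integral cycle. -/
theorem exists_cycle_lift {Δ : Finset V → Prop} {d : ℕ} (h : GHS ℤ Δ d) {τ : Finset V} (hτ : Δ τ)
    {p : ℕ} (hp : p + τ.card ≤ d) {c : Finset V → ZMod 2} (hc : LkSupp Δ τ p c)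
    (hc0 : ∀ ρ, bd c ρ = 0) :
    ∃ e : Finset V → ℤ, LkSupp Δ τ p e ∧ (∀ ρ, bd e ρ = 0) ∧ red e = c := by
  rcases p with _ | p
  · exact ⟨lift c, lkSupp_lift hc, fun ρ => bd_zero_of_card_zero (lkSupp_lift hc) ρ, red_lift c⟩
  · -- the boundary of the lift is even
    have h1 : ∀ ρ, ∃ k : ℤ, bd (lift c) ρ = 2 * k := by
      intro ρ
      have h2 : ((bd (lift c) ρ : ℤ) : ZMod 2) = 0 := by
        rw [← bd_red, red_lift, hc0]
      rw [ZMod.intCast_zmod_eq_zero_iff_dvd] at h2
      obtain ⟨k, hk⟩ := h2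
      exact ⟨k, by simpa using hk⟩
    choose f hf using h1
    have hfb : bd (lift c) = (2 : ℤ) • f := by
      funext ρ
      rw [hf ρ]
      simp
    have hsb : LkSupp Δ τ p (bd (lift c)) := lkSupp_bd h.cpx (lkSupp_lift hc)
    have hsf : LkSupp Δ τ p f := by
      intro ρ hρ
      refine hsb ρ (fun h0 => hρ ?_)
      rw [hf ρ] at h0
      omega
    have hbf : ∀ ρ, bd f ρ = 0 := by
      intro ρ
      have h3 : bd (bd (lift c)) ρ = 0 := bd_bd _ _
      rw [hfb] at h3
      have h4 : bd ((2 : ℤ) • f) ρ = 2 * bd f ρ := by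
        unfold bd
        rw [Finset.mul_sum]
        refine Finset.sum_congr rfl (fun v _ => ?_)
        simp only [Pi.smul_apply, smul_eq_mul]
        ring
      rw [h4] at h3
      omega
    obtain ⟨b, hb1, hb2⟩ := h.acyc τ hτ p (by omega) f hsf hbf
    refine ⟨lift c - (2 : ℤ) • b, lkSupp_sub (lkSupp_lift hc) hb1 2, fun ρ => ?_, ?_⟩
    · rw [bd_sub, hf ρ, hb2 ρ]
      ring
    · funext ρ
      have h5 : red (lift c) ρ = c ρ := by rw [red_lift]
      unfold red at h5 ⊢
      rw [← h5]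
      simp only [Pi.sub_apply, Pi.smul_apply, smul_eq_mul, Int.cast_sub, Int.cast_mul]
      have h6 : ((2 : ℤ) : ZMod 2) = 0 := by decide
      rw [h6, zero_mul, sub_zero]

/-- Integral homology spheres are mod 2 homology spheres. -/
theorem GHS.mod_two {Δ : Finset V → Prop} {d : ℕ} (h : GHS ℤ Δ d) : GHS (ZMod 2) Δ d where
  cpx := h.cpx
  dim := h.dim
  acyc := by
    intro τ hτ p hp c hc hc0
    obtain ⟨e, he1, he2, he3⟩ := exists_cycle_lift h hτ hp.le hc hc0
    obtain ⟨b, hb1, hb2⟩ := h.acyc τ hτ p hp e he1 he2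
    refine ⟨red b, lkSupp_red hb1, fun ρ => ?_⟩
    rw [bd_red, hb2 ρ, ← he3]
    rfl
  top := by
    intro τ hτ
    have hle : d - τ.card + τ.card = d := Nat.sub_add_cancel (h.dim τ hτ)
    obtain ⟨z, hz1, hz2, hz3, hz4⟩ := h.top τ hτ
    refine ⟨red z, lkSupp_red hz1, fun ρ => ?_, ?_, ?_⟩
    · rw [bd_red, hz2 ρ]
      rfl
    · intro n hn
      by_contra hne
      have hn1 : n = 1 := by
        have h7 : ∀ k : ZMod 2, ¬ k = 0 → k = 1 := by decide
        exact h7 n hne
      rw [hn1, one_smul] at hn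
      have h1 : ∀ ρ, ∃ k : ℤ, z ρ = 2 * k := by
        intro ρ
        have h2 : ((z ρ : ℤ) : ZMod 2) = 0 := congrFun hn ρ
        rw [ZMod.intCast_zmod_eq_zero_iff_dvd] at h2
        obtain ⟨k, hk⟩ := h2
        exact ⟨k, by simpa using hk⟩
      choose f hf using h1
      have hsf : LkSupp Δ τ (d - τ.card) f := by
        intro ρ hρ
        refine hz1 ρ (fun h0 => hρ ?_)
        rw [hf ρ] at h0
        omega
      have hzf : z = (2 : ℤ) • f := by
        funext ρ
        rw [hf ρ]
        simp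
      have hbf : ∀ ρ, bd f ρ = 0 := by
        intro ρ
        have h3 : bd z ρ = 2 * bd f ρ := by
          rw [hzf]
          unfold bd
          rw [Finset.mul_sum]
          refine Finset.sum_congr rfl (fun v _ => ?_)
          simp only [Pi.smul_apply, smul_eq_mul]
          ring
        have h4 := hz2 ρ
        omega
      obtain ⟨m, hm⟩ := hz4 f hsf hbf
      have h5 : (1 - 2 * m) • z = 0 := by
        rw [sub_smul, one_smul, mul_smul, ← hm, ← hzf, sub_self]
      have h6 := hz3 _ h5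
      omega
    · intro c hc hc0
      obtain ⟨e, he1, he2, he3⟩ := exists_cycle_lift h hτ hle.le hc hc0
      obtain ⟨m, hm⟩ := hz4 e he1 he2
      refine ⟨(m : ZMod 2), ?_⟩
      rw [← he3, hm]
      funext ρ
      simp [red]

end Pool.Agent.H85.UC
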