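import Pool.Agent.H85.UC

/-!
# helper85: mod 2 homology spheres: cohomology with coefficients, homology with coefficients,
Euler characteristic

`L : Finset V → Prop` is a simplicial complex (for instance the link of a face), everything is
without signs. `Sph L m` says that `L` is a mod 2 homology sphere of rank `m` (dimension `m - 1`)
(no condition on proper links). `A` is any module over `ZMod 2`.
-/

namespace Pool.Agent.H85.UC

open Finset

section Unsigned

variable {V : Type*} [Fintype V] [DecidableEq V]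

/-- The unsigned boundary. -/
def ubd {A : Type*} [AddCommMonoid A] (c : Finset V → A) (ρ : Finset V) : A :=
  ∑ v ∈ ρᶜ, c (insert v ρ)

/-- The unsigned coboundary. -/
def ucb {A : Type*} [AddCommMonoid A] (c : Finset V → A) (ρ : Finset V) : A :=
  ∑ v ∈ ρ, c (ρ.erase v)

/-- The chains of `L` on faces with `p` vertices. -/
def Supp {A : Type*} [Zero A] (L : Finset V → Prop) (p : ℕ) (c : Finset V → A) : Prop :=
  ∀ ρ, c ρ ≠ 0 → ρ.card = p ∧ L ρ

/-- `L` is a simplicial complex with the mod 2 homology of a sphere of dimension `m - 1`. -/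
structure Sph (L : Finset V → Prop) (m : ℕ) : Prop where
  empty : L ∅
  down : ∀ σ τ, L σ → τ ⊆ σ → L τ
  dim : ∀ σ, L σ → σ.card ≤ m
  acyc : ∀ p, p < m → ∀ c : Finset V → ZMod 2, Supp L p c → (∀ ρ, ubd c ρ = 0) →
    ∃ b : Finset V → ZMod 2, Supp L (p + 1) b ∧ ∀ ρ, ubd b ρ = c ρ
  top : ∃ z : Finset V → ZMod 2, Supp L m z ∧ (∀ ρ, ubd z ρ = 0) ∧ z ≠ 0 ∧
    ∀ c : Finset V → ZMod 2, Supp L m c → (∀ ρ, ubd c ρ = 0) → c = 0 ∨ c = z

/-- Boundary and coboundary are adjoint. -/
theorem adj {A : Type*} [AddCommGroup A] [Module (ZMod 2) A] (y : Finset V → ZMod 2)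
    (c : Finset V → A) : ∑ ρ, ubd y ρ • c ρ = ∑ σ, y σ • ucb c σ := by
  unfold ubd ucb
  simp only [Finset.sum_smul, Finset.smul_sum]
  rw [Finset.sum_sigma', Finset.sum_sigma']
  refine Finset.sum_bij' (fun x _ => ⟨insert x.2 x.1, x.2⟩) (fun x _ => ⟨x.1.erase x.2, x.2⟩)
    ?_ ?_ ?_ ?_ ?_
  · rintro ⟨ρ, v⟩ _
    simp
  · rintro ⟨σ, v⟩ _
    simp
  · rintro ⟨ρ, v⟩ h
    simp only [mem_sigma, mem_univ, true_and, mem_compl] at h
    simp [erase_insert h]
  · rintro ⟨σ, v⟩ h
    simp only [mem_sigma, mem_univ, true_and] at h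
    simp [insert_erase h]
  · rintro ⟨ρ, v⟩ h
    simp only [mem_sigma, mem_univ, true_and, mem_compl] at h
    simp [erase_insert h]

/-- The space of chains on the faces with `p` vertices. -/
def Csub (L : Finset V → Prop) (p : ℕ) : Submodule (ZMod 2) (Finset V → ZMod 2) where
  carrier := {x | Supp L p x}
  add_mem' := by
    intro x y hx hy ρ h
    by_cases h0 : x ρ = 0
    · exact hy ρ (fun h1 => h (by rw [Pi.add_apply, h0, h1, add_zero]))
    · exact hx ρ h0
  zero_mem' := fun ρ h => absurd rfl h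
  smul_mem' := by
    intro c x hx ρ h
    exact hx ρ (fun h1 => h (by rw [Pi.smul_apply, h1, smul_zero]))

/-- The unsigned boundary as a linear map. -/
def ubdL : (Finset V → ZMod 2) →ₗ[ZMod 2] (Finset V → ZMod 2) where
  toFun c := ubd c
  map_add' x y := by
    funext ρ
    simp only [ubd, Pi.add_apply, Finset.sum_add_distrib]
  map_smul' c x := by
    funext ρ
    simp only [ubd, Pi.smul_apply, RingHom.id_apply, Finset.smul_sum]

/-- The functional with values in `A` defined by `c`. -/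
def pair {A : Type*} [AddCommGroup A] [Module (ZMod 2) A] (c : Finset V → A) :
    (Finset V → ZMod 2) →ₗ[ZMod 2] A where
  toFun x := ∑ ρ, x ρ • c ρ
  map_add' x y := by
    simp only [Pi.add_apply, add_smul, Finset.sum_add_distrib]
  map_smul' k x := by
    simp only [Pi.smul_apply, smul_eq_mul, mul_smul, RingHom.id_apply, Finset.smul_sum]

omit [Fintype V] [DecidableEq V] in
/-- Linear algebra: a map which kills the kernel of `g` factors through `g` (everywhere defined). -/
theorem exists_factor {K E F A : Type*} [Field K] [AddCommGroup E] [Module K E] [AddCommGroup F]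
    [Module K F] [AddCommGroup A] [Module K A] (g : E →ₗ[K] F) (φ : E →ₗ[K] A)
    (h : ∀ x, g x = 0 → φ x = 0) : ∃ ψ : F →ₗ[K] A, ∀ x, ψ (g x) = φ x := by
  obtain ⟨s, hs⟩ := g.rangeRestrict.exists_rightInverse_of_surjective
    (LinearMap.range_rangeRestrict g)
  obtain ⟨t, ht⟩ := LinearMap.exists_extend s
  refine ⟨φ.comp t, fun x => ?_⟩
  have h1 : t (g x) = s ⟨g x, LinearMap.mem_range_self g x⟩ := by
    rw [← ht]
    rfl
  have h2 : g (t (g x)) = g x := by
    rw [h1]
    have h3 := LinearMap.congr_fun hs ⟨g x, LinearMap.mem_range_self g x⟩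
    exact congrArg Subtype.val h3
  have h4 : φ (t (g x) - x) = 0 := h _ (by rw [map_sub, h2, sub_self])
  rw [map_sub, sub_eq_zero] at h4
  exact h4

theorem pair_single {A : Type*} [AddCommGroup A] [Module (ZMod 2) A] (c : Finset V → A)
    (ρ : Finset V) : ∑ σ, (Pi.single ρ (1 : ZMod 2) : Finset V → ZMod 2) σ • c σ = c ρ := by
  rw [Finset.sum_eq_single ρ]
  · simp
  · intro σ _ h
    rw [Pi.single_eq_of_ne h, zero_smul]
  · intro h
    exact absurd (mem_univ ρ) h

/-- The common step: `c` is a coboundary on the faces with `p` vertices as soon as the functional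
`c` kills all cycles on the faces with `p` vertices. -/
theorem exists_coboundary {A : Type*} [AddCommGroup A] [Module (ZMod 2) A]
    {L : Finset V → Prop} (hdown : ∀ σ τ, L σ → τ ⊆ σ → L τ) {p : ℕ} (c : Finset V → A)
    (h : ∀ x : Finset V → ZMod 2, Supp L p x → (∀ ρ, ubd x ρ = 0) → ∑ ρ, x ρ • c ρ = 0) :
    ∃ b : Finset V → A, (∀ ρ, b ρ ≠ 0 → ρ.card + 1 = p ∧ L ρ) ∧
      ∀ ρ, L ρ → ρ.card = p → ucb b ρ = c ρ := by
  classical
  obtain ⟨ψ, hψ⟩ := exists_factor (K := ZMod 2) (ubdL.comp (Csub L p).subtype)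
    ((pair c).comp (Csub L p).subtype) (by
      rintro ⟨x, hx⟩ h0
      exact h x hx (fun ρ => congrFun h0 ρ))
  set b0 : Finset V → A := fun ρ => ψ (Pi.single ρ 1) with hb0
  have hsum : ∀ x : Finset V → ZMod 2, ψ x = ∑ σ, x σ • b0 σ := by
    intro x
    have h1 : x = ∑ σ, x σ • (Pi.single σ (1 : ZMod 2) : Finset V → ZMod 2) := by
      funext ρ
      rw [Finset.sum_apply, Finset.sum_eq_single ρ]
      · simp
      · intro σ _ hne
        simp [Pi.single_eq_of_ne (Ne.symm hne)]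
      · intro h
        exact absurd (mem_univ ρ) h
    conv_lhs => rw [h1]
    rw [map_sum]
    refine Finset.sum_congr rfl (fun σ _ => ?_)
    rw [map_smul]
  have hkey : ∀ ρ, L ρ → ρ.card = p → ucb b0 ρ = c ρ := by
    intro ρ hρ hcard
    have hmem : Supp L p (Pi.single ρ (1 : ZMod 2) : Finset V → ZMod 2) := by
      intro σ hσ
      have h2 : σ = ρ := by
        by_contra hne
        exact hσ (Pi.single_eq_of_ne hne _)
      rw [h2]
      exact ⟨hcard, hρ⟩
    have h3 := hψ ⟨_, hmem⟩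
    have h4 : ψ (ubd (Pi.single ρ (1 : ZMod 2) : Finset V → ZMod 2)) = c ρ := by
      refine Eq.trans h3 ?_
      exact pair_single c ρ
    rw [hsum, adj, pair_single] at h4
    exact h4
  refine ⟨fun ρ => if ρ.card + 1 = p ∧ L ρ then b0 ρ else 0, ?_, ?_⟩
  · intro ρ hρ
    by_contra hne
    exact hρ (if_neg hne)
  · intro ρ hρ hcard
    rw [← hkey ρ hρ hcard]
    unfold ucb
    refine Finset.sum_congr rfl (fun v hv => ?_)
    refine if_pos ⟨?_, hdown _ _ hρ (erase_subset v ρ)⟩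
    rw [card_erase_of_mem hv]
    have : 0 < ρ.card := card_pos.2 ⟨v, hv⟩
    omega

namespace Sph

variable {L : Finset V → Prop} {m : ℕ} {A : Type*} [AddCommGroup A] [Module (ZMod 2) A]

/-- Cohomology with coefficients below the top dimension: a cocycle is a coboundary. -/
theorem cohom (h : Sph L m) {p : ℕ} (hp : p < m) (c : Finset V → A)
    (hc : ∀ ρ, L ρ → ρ.card = p + 1 → ucb c ρ = 0) :
    ∃ b : Finset V → A, (∀ ρ, b ρ ≠ 0 → ρ.card + 1 = p ∧ L ρ) ∧
      ∀ ρ, L ρ → ρ.card = p → ucb b ρ = c ρ := by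
  refine exists_coboundary h.down c (fun x hx hx0 => ?_)
  obtain ⟨y, hy1, hy2⟩ := h.acyc p hp x hx hx0
  have h1 : ∑ ρ, x ρ • c ρ = ∑ ρ, ubd y ρ • c ρ :=
    Finset.sum_congr rfl (fun ρ _ => by rw [hy2 ρ])
  rw [h1, adj]
  refine Finset.sum_eq_zero (fun σ _ => ?_)
  by_cases h2 : y σ = 0
  · rw [h2, zero_smul]
  · rw [hc σ (hy1 σ h2).2 (hy1 σ h2).1, smul_zero]

/-- Cohomology with coefficients in the top dimension: `z` detects the coboundaries. -/
theorem cohom_top (h : Sph L m) : ∃ z : Finset V → ZMod 2, Supp L m z ∧ (∀ ρ, ubd z ρ = 0) ∧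
    (∃ ρ, L ρ ∧ ρ.card = m ∧ z ρ = 1) ∧
    ∀ c : Finset V → A,
      (∑ ρ, z ρ • c ρ = 0 ↔ ∃ b : Finset V → A, (∀ ρ, b ρ ≠ 0 → ρ.card + 1 = m ∧ L ρ) ∧
        ∀ ρ, L ρ → ρ.card = m → ucb b ρ = c ρ) := by
  obtain ⟨z, hz1, hz2, hz3, hz4⟩ := h.top
  refine ⟨z, hz1, hz2, ?_, fun c => ⟨fun h0 => ?_, ?_⟩⟩
  · by_contra hne
    apply hz3
    funext ρ
    by_contra h1
    have h2 : ∀ k : ZMod 2, k ≠ 0 → k = 1 := by decide
    exact hne ⟨ρ, (hz1 ρ h1).2, (hz1 ρ h1).1, h2 _ h1⟩
  · refine exists_coboundary h.down c (fun x hx hx0 => ?_)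
    rcases hz4 x hx hx0 with h1 | h1
    · rw [h1]
      simp
    · rw [h1]
      exact h0
  · rintro ⟨b, _, hb2⟩
    have h1 : ∑ ρ, z ρ • c ρ = ∑ ρ, z ρ • ucb b ρ := by
      refine Finset.sum_congr rfl (fun ρ _ => ?_)
      by_cases h2 : z ρ = 0
      · rw [h2, zero_smul, zero_smul]
      · rw [hb2 ρ (hz1 ρ h2).2 (hz1 ρ h2).1]
    rw [h1, ← adj]
    refine Finset.sum_eq_zero (fun ρ _ => ?_)
    rw [hz2 ρ, zero_smul]

/-- Homology with coefficients below the top dimension. -/
theorem hom (h : Sph L m) {p : ℕ} (hp : p < m) (c : Finset V → A) (hc : Supp L p c)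
    (hc0 : ∀ ρ, ubd c ρ = 0) :
    ∃ b : Finset V → A, Supp L (p + 1) b ∧ ∀ ρ, ubd b ρ = c ρ := by
  classical
  let B := Module.Basis.ofVectorSpace (ZMod 2) A
  -- coordinates
  have hex : ∀ i, ∃ b : Finset V → ZMod 2, Supp L (p + 1) b ∧
      ∀ ρ, ubd b ρ = B.repr (c ρ) i := by
    intro i
    refine h.acyc p hp (fun ρ => B.repr (c ρ) i) (fun ρ hρ => hc ρ (fun h0 => hρ ?_))
      (fun ρ => ?_)
    · change B.repr (c ρ) i = 0
      rw [h0]
      simp
    · have h1 := congrArg (fun a => B.repr a i) (hc0 ρ)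
      simp only [ubd, map_sum, map_zero, Finsupp.coe_finsetSum, Finset.sum_apply,
        Finsupp.coe_zero, Pi.zero_apply] at h1
      exact h1
  choose b hb1 hb2 using hex
  let S : Finset _ := (univ : Finset (Finset V)).biUnion (fun ρ => (B.repr (c ρ)).support)
  refine ⟨fun ρ => ∑ i ∈ S, b i ρ • B i, fun ρ hρ => ?_, fun ρ => ?_⟩
  · obtain ⟨i, _, hi⟩ := Finset.exists_ne_zero_of_sum_ne_zero hρ
    exact hb1 i ρ (fun h0 => hi (by rw [h0, zero_smul]))
  · unfold ubd
    rw [Finset.sum_comm]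
    have h1 : ∀ i ∈ S, ∑ v ∈ ρᶜ, b i (insert v ρ) • B i = B.repr (c ρ) i • B i := by
      intro i _
      rw [← Finset.sum_smul]
      congr 1
      exact hb2 i ρ
    rw [Finset.sum_congr rfl h1]
    have h2 : c ρ = ∑ i ∈ (B.repr (c ρ)).support, B.repr (c ρ) i • B i := by
      conv_lhs => rw [← B.linearCombination_repr (c ρ)]
      rfl
    conv_rhs => rw [h2]
    symm
    refine Finset.sum_subset ?_ ?_
    · intro i hi
      exact Finset.mem_biUnion.2 ⟨ρ, mem_univ ρ, hi⟩
    · intro i _ hi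
      rw [Finsupp.notMem_support_iff] at hi
      rw [hi, zero_smul]

end Sph

end Unsigned

/-! ## From `GHS` to `Sph` for links -/

section Links

variable {V : Type*} [Fintype V] [LinearOrder V]

omit [Fintype V] in
theorem sg_smul {A : Type*} [AddCommGroup A] [Module (ZMod 2) A] (v : V) (ρ : Finset V) (a : A) :
    sg v ρ • a = a := by
  unfold sg
  have h2 : a + a = 0 := by
    have h3 : ((1 : ZMod 2) + 1) • a = 0 := by
      have h4 : (1 : ZMod 2) + 1 = 0 := by decide
      rw [h4, zero_smul]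
    rw [add_smul, one_smul] at h3
    exact h3
  rcases neg_one_pow_eq_or ℤ (ρ.filter (fun w => w < v)).card with h | h
  · rw [h, one_smul]
  · rw [h, neg_smul, one_smul]
    exact neg_eq_of_add_eq_zero_left h2

/-- In characteristic two the signs disappear. -/
theorem bd_eq_ubd {A : Type*} [AddCommGroup A] [Module (ZMod 2) A] (c : Finset V → A)
    (ρ : Finset V) : bd c ρ = ubd c ρ := by
  unfold bd ubd
  exact Finset.sum_congr rfl (fun v _ => sg_smul v ρ _)

/-- The faces of the link of `τ`. -/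
def Lk (Δ : Finset V → Prop) (τ : Finset V) (ρ : Finset V) : Prop := Disjoint ρ τ ∧ Δ (ρ ∪ τ)

/-- The links of a mod 2 homology sphere in the sense of `GHS` are mod 2 homology spheres. -/
theorem GHS.sph {Δ : Finset V → Prop} {d : ℕ} (h : GHS (ZMod 2) Δ d) {τ : Finset V} (hτ : Δ τ) :
    Sph (Lk Δ τ) (d - τ.card) where
  empty := ⟨disjoint_empty_left τ, by rw [empty_union]; exact hτ⟩
  down := by
    intro σ ρ hσ hρ
    exact ⟨hσ.1.mono_left hρ, h.cpx.down _ _ hσ.2 (union_subset_union hρ (Finset.Subset.refl τ))⟩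
  dim := by
    intro σ hσ
    have h1 := h.dim _ hσ.2
    rw [card_union_of_disjoint hσ.1] at h1
    omega
  acyc := by
    intro p hp c hc hc0
    obtain ⟨b, hb1, hb2⟩ := h.acyc τ hτ p (by omega) c hc
      (fun ρ => by rw [bd_eq_ubd]; exact hc0 ρ)
    exact ⟨b, hb1, fun ρ => by rw [← bd_eq_ubd]; exact hb2 ρ⟩
  top := by
    obtain ⟨z, hz1, hz2, hz3, hz4⟩ := h.top τ hτ
    refine ⟨z, hz1, fun ρ => by rw [← bd_eq_ubd]; exact hz2 ρ, ?_, ?_⟩
    · intro h0
      have h1 := hz3 1 (by rw [one_smul]; exact h0)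
      exact absurd h1 (by decide)
    · intro c hc hc0
      obtain ⟨n, hn⟩ := hz4 c hc (fun ρ => by rw [bd_eq_ubd]; exact hc0 ρ)
      have h2 : ∀ k : ZMod 2, k = 0 ∨ k = 1 := by decide
      rcases h2 n with h3 | h3
      · left
        rw [hn, h3, zero_smul]
      · right
        rw [hn, h3, one_smul]

end Links

end Pool.Agent.H85.UC
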