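import Pool.Agent.H85.PencilIndep

set_option autoImplicit false

namespace Pool.Agent.H85

theorem card_ker_eq_index_range {G : Type*} [AddCommGroup G] [Finite G] (f : G →+ G) :
    Nat.card f.ker = f.range.index := by
  have h1 := f.ker.card_mul_index
  have h2 := f.range.card_mul_index
  rw [AddSubgroup.index_ker] at h1
  have hpos : 0 < Nat.card f.range := Nat.card_pos
  have h3 : Nat.card f.range * Nat.card f.ker = Nat.card f.range * f.range.index := by
    rw [h2, mul_comm, h1]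
  exact Nat.eq_of_mul_eq_mul_left hpos h3

theorem finite_quot_range {p : ℕ} [Fact p.Prime] {ι : Type*} [Fintype ι] [DecidableEq ι]
    (t : (ι → ℤ_[p]) →ₗ[ℤ_[p]] (ι → ℤ_[p])) (ht : Function.Injective t) :
    Finite ((ι → ℤ_[p]) ⧸ LinearMap.range t) := by
  have hdet : LinearMap.det t ≠ 0 := by
    intro h
    rw [LinearMap.det_eq_zero_iff_ker_ne_bot] at h
    exact h (LinearMap.ker_eq_bot.mpr ht)
  have hmem : ∀ v, LinearMap.det t • v ∈ LinearMap.range t := by
    intro v
    refine ⟨(LinearMap.toMatrix' t).adjugate.mulVec v, ?_⟩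
    rw [← LinearMap.toMatrix'_mulVec, Matrix.mulVec_mulVec, Matrix.mul_adjugate, Matrix.smul_mulVec,
      Matrix.one_mulVec, LinearMap.det_toMatrix']
  obtain ⟨un, j, hdj⟩ : ∃ (un : ℤ_[p]ˣ) (j : ℕ), LinearMap.det t = (un : ℤ_[p]) * (p : ℤ_[p]) ^ j :=
    ⟨_, _, PadicInt.unitCoeff_spec hdet⟩
  have hmem' : ∀ v, ((p : ℤ_[p]) ^ j) • v ∈ LinearMap.range t := by
    intro v
    have h2 : ((p : ℤ_[p]) ^ j) • v = LinearMap.det t • ((un⁻¹ : ℤ_[p]ˣ) : ℤ_[p]) • v := by
      rw [smul_smul]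
      congr 1
      rw [hdj, mul_comm, ← mul_assoc, Units.inv_mul, one_mul]
    rw [h2]
    exact hmem _
  have : NeZero (p ^ j) := ⟨pow_ne_zero _ (Fact.out : p.Prime).ne_zero⟩
  refine Finite.of_surjective (α := ι → ZMod (p ^ j))
    (fun c => Submodule.Quotient.mk (fun i => (((c i).val : ℕ) : ℤ_[p]))) ?_
  intro q
  obtain ⟨v, rfl⟩ := Submodule.Quotient.mk_surjective _ q
  refine ⟨fun i => PadicInt.toZModPow j (v i), ?_⟩
  rw [Submodule.Quotient.eq]
  have h3 : ∀ i, ∃ z, (((PadicInt.toZModPow j (v i)).val : ℕ) : ℤ_[p]) - v i = (p : ℤ_[p]) ^ j * z := by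
    intro i
    have h4 : (((PadicInt.toZModPow j (v i)).val : ℕ) : ℤ_[p]) - v i ∈
        RingHom.ker (PadicInt.toZModPow j : ℤ_[p] →+* ZMod (p ^ j)) := by
      rw [RingHom.mem_ker, map_sub, map_natCast, ZMod.natCast_val, ZMod.cast_id', id, sub_self]
    rw [PadicInt.ker_toZModPow, Ideal.mem_span_singleton] at h4
    exact h4
  choose z hz using h3
  have h5 : (fun i => (((PadicInt.toZModPow j (v i)).val : ℕ) : ℤ_[p])) - v = ((p : ℤ_[p]) ^ j) • z := by
    funext i
    simp only [Pi.sub_apply, Pi.smul_apply, smul_eq_mul]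
    exact hz i
  rw [h5]
  exact hmem' z

theorem sum_single_apply {R : Type*} [CommRing R] {ι σ : Type*} [DecidableEq ι]
    [Fintype σ] (s : σ → ι) (hs : Function.Injective s) (r : σ → R) (a : σ) :
    (∑ b, r b • (Pi.single (s b) 1 : ι → R)) (s a) = r a := by
  rw [Finset.sum_apply, Finset.sum_eq_single a]
  · simp
  · intro b _ hb
    rw [Pi.smul_apply, Pi.single_eq_of_ne (fun h => hb (hs h).symm), smul_zero]
  · intro h
    exact absurd (Finset.mem_univ a) h

/-- The index inequality for a commuting pair: the number of vectors killed mod `p` is at most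
the number of generators mod `p`. -/
theorem index_ineq {p : ℕ} [hp : Fact p.Prime] {ι : Type*} [Fintype ι] [DecidableEq ι]
    (x y : (ι → ℤ_[p]) →ₗ[ℤ_[p]] (ι → ℤ_[p])) (hxy : ∀ v, x (y v) = y (x v))
    {σ γ : Type} [Fintype σ] [Fintype γ]
    (s : σ → ι) (hs : Function.Injective s)
    (hsx : ∀ a, ∃ u, x (Pi.single (s a) 1) = (p : ℤ_[p]) • u)
    (hsy : ∀ a, ∃ u, y (Pi.single (s a) 1) = (p : ℤ_[p]) • u)
    (g : γ → ι)
    (hgen : ∀ i, (∃ b, g b = i) ∨
      (Pi.single i 1 : ι → ℤ_[p]) ∈ LinearMap.range x ⊔ LinearMap.range y)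
    (hpL : ∀ v : ι → ℤ_[p], (p : ℤ_[p]) • v ∈ LinearMap.range x ⊔ LinearMap.range y)
    (hker : ∀ v, x v = 0 → y v = 0 → v = 0) :
    Fintype.card σ ≤ Fintype.card γ := by
  have hp0 : (p : ℤ_[p]) ≠ 0 := by
    exact_mod_cast hp.out.ne_zero
  obtain ⟨c, hc⟩ := exists_injective_pencil x y hxy hker
  set t := x + (c : ℤ_[p]) • y with ht
  have hty : ∀ v, t (y v) = y (t v) := by
    intro v
    rw [ht, LinearMap.add_apply, LinearMap.smul_apply, LinearMap.add_apply, LinearMap.smul_apply,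
      map_add, map_smul, hxy]
  have hle : LinearMap.range x ⊔ LinearMap.range y ≤ LinearMap.range t ⊔ LinearMap.range y := by
    apply sup_le _ le_sup_right
    rintro _ ⟨v, rfl⟩
    have h1 : x v = t v + (-(c : ℤ_[p])) • y v := by
      rw [ht, LinearMap.add_apply, LinearMap.smul_apply, neg_smul]; abel
    rw [h1]
    apply Submodule.add_mem
    · exact Submodule.mem_sup_left ⟨v, rfl⟩
    · exact Submodule.mem_sup_right (Submodule.smul_mem _ _ ⟨v, rfl⟩)
  have hfin : Finite ((ι → ℤ_[p]) ⧸ LinearMap.range t) := finite_quot_range t hc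
  have hmap : LinearMap.range t ≤ (LinearMap.range t).comap y := by
    rintro _ ⟨v, rfl⟩
    exact ⟨y v, hty v⟩
  set yb := ((LinearMap.range t).mapQ (LinearMap.range t) y hmap).toAddMonoidHom with hyb
  have hyb_mk : ∀ v, yb (Submodule.Quotient.mk v) = Submodule.Quotient.mk (y v) := by
    intro v
    rfl
  have hcard := card_ker_eq_index_range yb
  -- lower bound
  have hst : ∀ a, ∃ u, t (Pi.single (s a) 1) = (p : ℤ_[p]) • u := by
    intro a
    obtain ⟨u, hu⟩ := hsx a
    obtain ⟨w, hw⟩ := hsy a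
    refine ⟨u + (c : ℤ_[p]) • w, ?_⟩
    rw [ht, LinearMap.add_apply, LinearMap.smul_apply, hu, hw, smul_add, smul_comm]
  choose u hu using hst
  choose w hw using hsy
  have hlow : p ^ Fintype.card σ ≤ Nat.card yb.ker := by
    have hS : ∀ (e : σ → Fin p), t (∑ a, ((e a : ℕ) : ℤ_[p]) • (Pi.single (s a) 1 : ι → ℤ_[p])) =
        (p : ℤ_[p]) • ∑ a, ((e a : ℕ) : ℤ_[p]) • u a := by
      intro e
      rw [map_sum, Finset.smul_sum]
      apply Finset.sum_congr rfl
      intro a _
      rw [map_smul, hu, smul_comm]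
    have hSy : ∀ (e : σ → Fin p), y (∑ a, ((e a : ℕ) : ℤ_[p]) • (Pi.single (s a) 1 : ι → ℤ_[p])) =
        (p : ℤ_[p]) • ∑ a, ((e a : ℕ) : ℤ_[p]) • w a := by
      intro e
      rw [map_sum, Finset.smul_sum]
      apply Finset.sum_congr rfl
      intro a _
      rw [map_smul, hw, smul_comm]
    have hmemker : ∀ e : σ → Fin p,
        (Submodule.Quotient.mk (∑ a, ((e a : ℕ) : ℤ_[p]) • u a) :
          (ι → ℤ_[p]) ⧸ LinearMap.range t) ∈ yb.ker := by
      intro e
      rw [AddMonoidHom.mem_ker, hyb_mk, Submodule.Quotient.mk_eq_zero]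
      refine ⟨∑ a, ((e a : ℕ) : ℤ_[p]) • w a, ?_⟩
      have h1 : (p : ℤ_[p]) • t (∑ a, ((e a : ℕ) : ℤ_[p]) • w a) =
          (p : ℤ_[p]) • y (∑ a, ((e a : ℕ) : ℤ_[p]) • u a) := by
        rw [← map_smul, ← hSy, hty, hS, map_smul]
      exact smul_right_injective _ hp0 h1
    have hinj : Function.Injective (fun e : σ → Fin p =>
        (⟨Submodule.Quotient.mk (∑ a, ((e a : ℕ) : ℤ_[p]) • u a), hmemker e⟩ : yb.ker)) := by
      intro e e' hee
      have h1 : (Submodule.Quotient.mk (∑ a, ((e a : ℕ) : ℤ_[p]) • u a) :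
          (ι → ℤ_[p]) ⧸ LinearMap.range t) = Submodule.Quotient.mk (∑ a, ((e' a : ℕ) : ℤ_[p]) • u a) :=
        congrArg Subtype.val hee
      rw [Submodule.Quotient.eq] at h1
      obtain ⟨z, hz⟩ := h1
      have h2 : t (∑ a, ((e a : ℕ) : ℤ_[p]) • (Pi.single (s a) 1 : ι → ℤ_[p]) -
          ∑ a, ((e' a : ℕ) : ℤ_[p]) • (Pi.single (s a) 1 : ι → ℤ_[p])) = t ((p : ℤ_[p]) • z) := by
        rw [map_sub, hS, hS, ← smul_sub, map_smul, hz]
      have h3 := hc h2
      funext a
      have h4 := congrFun h3 (s a)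
      rw [Pi.sub_apply, sum_single_apply s hs, sum_single_apply s hs, Pi.smul_apply,
        smul_eq_mul] at h4
      have h5 := congrArg PadicInt.toZMod h4
      rw [map_sub, map_natCast, map_natCast, map_mul, map_natCast, ZMod.natCast_self, zero_mul,
        sub_eq_zero, ZMod.natCast_eq_natCast_iff'] at h5
      rw [Nat.mod_eq_of_lt (e a).isLt, Nat.mod_eq_of_lt (e' a).isLt] at h5
      exact Fin.ext h5
    have h6 := Nat.card_le_card_of_injective _ hinj
    rwa [Nat.card_fun, Nat.card_eq_fintype_card, Nat.card_eq_fintype_card, Fintype.card_fin] at h6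
  -- upper bound
  have hup : yb.range.index ≤ p ^ Fintype.card γ := by
    have htop : (LinearMap.range x ⊔ LinearMap.range y) ⊔
        Submodule.span ℤ_[p] (Set.range fun b => (Pi.single (g b) 1 : ι → ℤ_[p])) = ⊤ := by
      rw [eq_top_iff]
      intro v _
      have hv : v = ∑ i, v i • (Pi.single i 1 : ι → ℤ_[p]) := by
        funext k
        simp [Finset.sum_apply, Pi.single_apply]
      rw [hv]
      apply Submodule.sum_mem
      intro i _
      apply Submodule.smul_mem
      rcases hgen i with ⟨b, rfl⟩ | h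
      · exact Submodule.mem_sup_right (Submodule.subset_span ⟨b, rfl⟩)
      · exact Submodule.mem_sup_left h
    have hrep : ∀ v : ι → ℤ_[p], ∃ e : γ → Fin p,
        v - ∑ b, ((e b : ℕ) : ℤ_[p]) • (Pi.single (g b) 1 : ι → ℤ_[p]) ∈
          LinearMap.range x ⊔ LinearMap.range y := by
      intro v
      have hv : v ∈ (LinearMap.range x ⊔ LinearMap.range y) ⊔
        Submodule.span ℤ_[p] (Set.range fun b => (Pi.single (g b) 1 : ι → ℤ_[p])) := by
        rw [htop]; trivial
      obtain ⟨n, hn, m, hm, rfl⟩ := Submodule.mem_sup.mp hv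
      obtain ⟨r, rfl⟩ := (Submodule.mem_span_range_iff_exists_fun _).mp hm
      refine ⟨fun b => ⟨(PadicInt.toZMod (r b)).val, ZMod.val_lt _⟩, ?_⟩
      have h1 : ∀ b, ∃ z, r b - (((PadicInt.toZMod (r b)).val : ℕ) : ℤ_[p]) = (p : ℤ_[p]) * z := by
        intro b
        have h4 : r b - (((PadicInt.toZMod (r b)).val : ℕ) : ℤ_[p]) ∈
            RingHom.ker (PadicInt.toZMod : ℤ_[p] →+* ZMod p) := by
          rw [RingHom.mem_ker, map_sub, map_natCast, ZMod.natCast_val, ZMod.cast_id', id, sub_self]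
        rw [PadicInt.ker_toZMod, PadicInt.maximalIdeal_eq_span_p, Ideal.mem_span_singleton] at h4
        exact h4
      choose z hz using h1
      have h2 : n + ∑ b, r b • (Pi.single (g b) 1 : ι → ℤ_[p]) -
          ∑ b, (((PadicInt.toZMod (r b)).val : ℕ) : ℤ_[p]) • (Pi.single (g b) 1 : ι → ℤ_[p]) =
          n + (p : ℤ_[p]) • ∑ b, z b • (Pi.single (g b) 1 : ι → ℤ_[p]) := by
        rw [add_sub_assoc, ← Finset.sum_sub_distrib, Finset.smul_sum]
        congr 1
        apply Finset.sum_congr rfl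
        intro b _
        rw [← sub_smul, hz, smul_smul]
      simp only
      rw [h2]
      exact Submodule.add_mem _ hn (hpL _)
    have hsurj : Function.Surjective (fun e : γ → Fin p =>
        (QuotientAddGroup.mk (Submodule.Quotient.mk
          (∑ b, ((e b : ℕ) : ℤ_[p]) • (Pi.single (g b) 1 : ι → ℤ_[p]))) :
          ((ι → ℤ_[p]) ⧸ LinearMap.range t) ⧸ yb.range)) := by
      intro q
      obtain ⟨q', rfl⟩ := QuotientAddGroup.mk_surjective q
      obtain ⟨v, rfl⟩ := Submodule.Quotient.mk_surjective _ q'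
      obtain ⟨e, he⟩ := hrep v
      refine ⟨e, ?_⟩
      obtain ⟨_, ⟨a, rfl⟩, _, ⟨b, rfl⟩, hab⟩ := Submodule.mem_sup.mp (hle he)
      simp only
      rw [QuotientAddGroup.eq]
      refine ⟨Submodule.Quotient.mk b, ?_⟩
      rw [hyb_mk, ← Submodule.Quotient.mk_neg, ← Submodule.Quotient.mk_add, Submodule.Quotient.eq]
      refine ⟨-a, ?_⟩
      rw [map_neg]
      have : t a = v - ∑ b, ((e b : ℕ) : ℤ_[p]) • (Pi.single (g b) 1 : ι → ℤ_[p]) - y b := by
        rw [← hab]; abel
      rw [this]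
      abel
    have h7 := Nat.card_le_card_of_surjective _ hsurj
    rw [AddSubgroup.index_eq_card]
    rwa [Nat.card_fun, Nat.card_eq_fintype_card (α := γ), Nat.card_eq_fintype_card (α := Fin p),
      Fintype.card_fin] at h7
  have hfinal : p ^ Fintype.card σ ≤ p ^ Fintype.card γ := by
    calc p ^ Fintype.card σ ≤ Nat.card yb.ker := hlow
      _ = yb.range.index := hcard
      _ ≤ p ^ Fintype.card γ := hup
  exact (Nat.pow_le_pow_iff_right hp.out.one_lt).mp hfinal

end Pool.Agent.H85
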