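import Mathlib

set_option autoImplicit false

namespace Pool.Agent.H85

/-- The step to the right on the torus `ℤ² / ⟨(2N, 0), (N, N)⟩`. -/
def xiF (N : ℕ) (q : Fin (2 * N) × Fin N) : Fin (2 * N) × Fin N :=
  (if h : q.1.val + 1 < 2 * N then ⟨q.1.val + 1, h⟩ else ⟨0, by have := q.1.isLt; omega⟩, q.2)

/-- The step upwards on the torus `ℤ² / ⟨(2N, 0), (N, N)⟩`. -/
def etaF (N : ℕ) (q : Fin (2 * N) × Fin N) : Fin (2 * N) × Fin N :=
  (if q.2.val + 1 < N then q.1
    else if h' : q.1.val < N then ⟨q.1.val + N, by omega⟩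
    else ⟨q.1.val - N, by have := q.1.isLt; omega⟩,
   if h : q.2.val + 1 < N then ⟨q.2.val + 1, h⟩ else ⟨0, by have := q.2.isLt; omega⟩)

/-- Exponent of the weight of the step to the right. -/
def alF (N : ℕ) (q : Fin (2 * N) × Fin N) : ℕ :=
  if q.1.val + 1 < N then 0 else if q.1.val + 1 = N then N - q.2.val
  else if q.1.val + 1 < 2 * N then 1 else 1 + q.2.val

/-- Exponent of the weight of the step upwards. -/
def beF (N : ℕ) (q : Fin (2 * N) × Fin N) : ℕ :=
  if q.2.val + 1 < N then (if q.1.val < N then 1 else 0)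
  else (if q.1.val < N then q.1.val else 2 * N - q.1.val)

theorem xiF_fst (N : ℕ) (q : Fin (2 * N) × Fin N) :
    (xiF N q).1.val = if q.1.val + 1 < 2 * N then q.1.val + 1 else 0 := by
  unfold xiF; dsimp only; split_ifs <;> rfl

theorem xiF_snd (N : ℕ) (q : Fin (2 * N) × Fin N) : (xiF N q).2.val = q.2.val := rfl

theorem etaF_fst (N : ℕ) (q : Fin (2 * N) × Fin N) :
    (etaF N q).1.val = if q.2.val + 1 < N then q.1.val
      else if q.1.val < N then q.1.val + N else q.1.val - N := by
  unfold etaF; dsimp only; split_ifs <;> rfl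

theorem etaF_snd (N : ℕ) (q : Fin (2 * N) × Fin N) :
    (etaF N q).2.val = if q.2.val + 1 < N then q.2.val + 1 else 0 := by
  unfold etaF; dsimp only; split_ifs <;> rfl

theorem pair_ext {N : ℕ} {q r : Fin (2 * N) × Fin N} (h1 : q.1.val = r.1.val)
    (h2 : q.2.val = r.2.val) : q = r :=
  Prod.ext (Fin.ext h1) (Fin.ext h2)

theorem xiF_inj (N : ℕ) : Function.Injective (xiF N) := by
  intro q r h
  have h1 : (xiF N q).1.val = (xiF N r).1.val := by rw [h]
  have h2 : (xiF N q).2.val = (xiF N r).2.val := by rw [h]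
  rw [xiF_fst, xiF_fst] at h1
  rw [xiF_snd, xiF_snd] at h2
  have hq := q.1.isLt
  have hr := r.1.isLt
  apply pair_ext
  · split_ifs at h1 <;> omega
  · exact h2

theorem etaF_inj (N : ℕ) : Function.Injective (etaF N) := by
  intro q r h
  have h1 : (etaF N q).1.val = (etaF N r).1.val := by rw [h]
  have h2 : (etaF N q).2.val = (etaF N r).2.val := by rw [h]
  rw [etaF_fst, etaF_fst] at h1
  rw [etaF_snd, etaF_snd] at h2
  have hq := q.1.isLt
  have hr := r.1.isLt
  have hq2 := q.2.isLt
  have hr2 := r.2.isLt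
  apply pair_ext
  · split_ifs at h1 h2 <;> omega
  · split_ifs at h1 h2 <;> omega

theorem xi_eta_comm (N : ℕ) (q : Fin (2 * N) × Fin N) : xiF N (etaF N q) = etaF N (xiF N q) := by
  have hq := q.1.isLt
  have hq2 := q.2.isLt
  apply pair_ext
  · rw [xiF_fst, etaF_fst, etaF_fst, xiF_fst, xiF_snd]
    split_ifs <;> omega
  · rw [xiF_snd, etaF_snd, etaF_snd, xiF_snd]

theorem weights_comm (N : ℕ) (q : Fin (2 * N) × Fin N) :
    alF N (etaF N q) + beF N q = beF N (xiF N q) + alF N q ∨
      (N ≤ alF N (etaF N q) + beF N q ∧ N ≤ beF N (xiF N q) + alF N q) := by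
  have hq := q.1.isLt
  have hq2 := q.2.isLt
  unfold alF beF
  rw [etaF_fst, etaF_snd, xiF_fst, xiF_snd]
  split_ifs <;> omega

theorem weights_out (N : ℕ) (q : Fin (2 * N) × Fin N) : alF N q ≤ 1 ∨ beF N q ≤ 1 := by
  have hq := q.1.isLt
  have hq2 := q.2.isLt
  unfold alF beF
  split_ifs <;> omega

theorem weights_in (N : ℕ) (hN : 2 ≤ N) (i : Fin (2 * N) × Fin N) :
    (∃ w, xiF N w = i ∧ alF N w ≤ 1) ∨ (∃ w, etaF N w = i ∧ beF N w ≤ 1) := by
  have hi := i.1.isLt
  have hi2 := i.2.isLt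
  by_cases h0 : i.1.val = 0
  · by_cases h1 : i.2.val = 0
    · left
      refine ⟨(⟨2 * N - 1, by omega⟩, i.2), ?_, ?_⟩
      · apply pair_ext
        · rw [xiF_fst]; dsimp only; split_ifs <;> omega
        · rfl
      · unfold alF; dsimp only; split_ifs <;> omega
    · right
      refine ⟨(i.1, ⟨i.2.val - 1, by omega⟩), ?_, ?_⟩
      · apply pair_ext
        · rw [etaF_fst]; dsimp only; split_ifs <;> omega
        · rw [etaF_snd]; dsimp only; split_ifs <;> omega
      · unfold beF; dsimp only; split_ifs <;> omega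
  · by_cases h1 : i.1.val = N
    · right
      by_cases h2 : i.2.val = 0
      · refine ⟨(⟨0, by omega⟩, ⟨N - 1, by omega⟩), ?_, ?_⟩
        · apply pair_ext
          · rw [etaF_fst]; dsimp only; split_ifs <;> omega
          · rw [etaF_snd]; dsimp only; split_ifs <;> omega
        · unfold beF; dsimp only; split_ifs <;> omega
      · refine ⟨(i.1, ⟨i.2.val - 1, by omega⟩), ?_, ?_⟩
        · apply pair_ext
          · rw [etaF_fst]; dsimp only; split_ifs <;> omega
          · rw [etaF_snd]; dsimp only; split_ifs <;> omega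
        · unfold beF; dsimp only; split_ifs <;> omega
    · left
      refine ⟨(⟨i.1.val - 1, by omega⟩, i.2), ?_, ?_⟩
      · apply pair_ext
        · rw [xiF_fst]; dsimp only; split_ifs <;> omega
        · rfl
      · unfold alF; dsimp only; split_ifs <;> omega

/-- The vertices all of whose out-weights are positive. -/
def socF (N : ℕ) (hN : 2 ≤ N) (a : Fin (2 * N)) : Fin (2 * N) × Fin N :=
  if h : a.val < N then (⟨N - 1, by omega⟩, ⟨a.val, h⟩) else (a, ⟨N - 1, by omega⟩)

theorem socF_fst (N : ℕ) (hN : 2 ≤ N) (a : Fin (2 * N)) :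
    (socF N hN a).1.val = if a.val < N then N - 1 else a.val := by
  unfold socF; split_ifs <;> rfl

theorem socF_snd (N : ℕ) (hN : 2 ≤ N) (a : Fin (2 * N)) :
    (socF N hN a).2.val = if a.val < N then a.val else N - 1 := by
  unfold socF; split_ifs <;> rfl

theorem socF_inj (N : ℕ) (hN : 2 ≤ N) : Function.Injective (socF N hN) := by
  intro a b h
  have h1 : (socF N hN a).1.val = (socF N hN b).1.val := by rw [h]
  have h2 : (socF N hN a).2.val = (socF N hN b).2.val := by rw [h]
  rw [socF_fst, socF_fst] at h1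
  rw [socF_snd, socF_snd] at h2
  apply Fin.ext
  split_ifs at h1 h2 <;> omega

theorem socF_al (N : ℕ) (hN : 2 ≤ N) (a : Fin (2 * N)) : 1 ≤ alF N (socF N hN a) := by
  have ha := a.isLt
  unfold alF
  rw [socF_fst, socF_snd]
  split_ifs <;> omega

theorem socF_be (N : ℕ) (hN : 2 ≤ N) (a : Fin (2 * N)) : 1 ≤ beF N (socF N hN a) := by
  have ha := a.isLt
  unfold beF
  rw [socF_fst, socF_snd]
  split_ifs <;> omega

/-- The vertices all of whose in-weights are positive. -/
def genF (N : ℕ) (hN : 2 ≤ N) (b : Fin (2 * N - 1)) : Fin (2 * N) × Fin N :=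
  if h : b.val < N then (⟨0, by omega⟩, ⟨b.val, h⟩)
  else (⟨b.val + 1, by omega⟩, ⟨0, by omega⟩)

theorem genF_spec (N : ℕ) (hN : 2 ≤ N) (i : Fin (2 * N) × Fin N) :
    (∃ b, genF N hN b = i) ∨ (∃ w, xiF N w = i ∧ alF N w = 0) ∨
      (∃ w, etaF N w = i ∧ beF N w = 0) := by
  have hi := i.1.isLt
  have hi2 := i.2.isLt
  by_cases h0 : i.1.val = 0
  · left
    refine ⟨⟨i.2.val, by omega⟩, ?_⟩
    unfold genF
    rw [dif_pos hi2]
    apply pair_ext
    · exact h0.symm
    · rfl
  · by_cases h1 : i.1.val < N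
    · right; left
      refine ⟨(⟨i.1.val - 1, by omega⟩, i.2), ?_, ?_⟩
      · apply pair_ext
        · rw [xiF_fst]; dsimp only; split_ifs <;> omega
        · rfl
      · unfold alF; dsimp only; split_ifs <;> omega
    · by_cases h2 : i.2.val = 0
      · by_cases h3 : i.1.val = N
        · right; right
          refine ⟨(⟨0, by omega⟩, ⟨N - 1, by omega⟩), ?_, ?_⟩
          · apply pair_ext
            · rw [etaF_fst]; dsimp only; split_ifs <;> omega
            · rw [etaF_snd]; dsimp only; split_ifs <;> omega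
          · unfold beF; dsimp only; split_ifs <;> omega
        · left
          refine ⟨⟨i.1.val - 1, by omega⟩, ?_⟩
          unfold genF
          rw [dif_neg (by dsimp only; omega)]
          apply pair_ext
          · dsimp only; omega
          · dsimp only; omega
      · right; right
        refine ⟨(i.1, ⟨i.2.val - 1, by omega⟩), ?_, ?_⟩
        · apply pair_ext
          · rw [etaF_fst]; dsimp only; split_ifs <;> omega
          · rw [etaF_snd]; dsimp only; split_ifs <;> omega
        · unfold beF; dsimp only; split_ifs <;> omega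

/-- The combinatorial data, transported to `Fin n`. -/
theorem torus_data (N : ℕ) (hN : 2 ≤ N) :
    ∃ (n : ℕ) (_ : n = 2 * N * N) (ξ η : Fin n → Fin n) (α β : Fin n → ℕ),
      Function.Injective ξ ∧ Function.Injective η ∧ (∀ q, ξ (η q) = η (ξ q)) ∧
      (∀ q, α (η q) + β q = β (ξ q) + α q ∨ (N ≤ α (η q) + β q ∧ N ≤ β (ξ q) + α q)) ∧
      (∀ i, (∃ w, ξ w = i ∧ α w ≤ 1) ∨ (∃ w, η w = i ∧ β w ≤ 1)) ∧
      (∀ i, α i ≤ 1 ∨ β i ≤ 1) ∧
      (∃ s : Fin (2 * N) → Fin n, Function.Injective s ∧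
        (∀ a, 1 ≤ α (s a)) ∧ (∀ a, 1 ≤ β (s a))) ∧
      (∃ g : Fin (2 * N - 1) → Fin n,
        ∀ i, (∃ b, g b = i) ∨ (∃ w, ξ w = i ∧ α w = 0) ∨ (∃ w, η w = i ∧ β w = 0)) := by
  obtain ⟨e⟩ : Nonempty (Fin (2 * N) × Fin N ≃ Fin (2 * N * N)) :=
    ⟨finProdFinEquiv⟩
  refine ⟨2 * N * N, rfl, fun k => e (xiF N (e.symm k)), fun k => e (etaF N (e.symm k)),
    fun k => alF N (e.symm k), fun k => beF N (e.symm k), ?_, ?_, ?_, ?_, ?_, ?_, ?_, ?_⟩
  · exact e.injective.comp ((xiF_inj N).comp e.symm.injective)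
  · exact e.injective.comp ((etaF_inj N).comp e.symm.injective)
  · intro q
    simp only [Equiv.symm_apply_apply, xi_eta_comm]
  · intro q
    simp only [Equiv.symm_apply_apply]
    exact weights_comm N _
  · intro i
    rcases weights_in N hN (e.symm i) with ⟨w, h1, h2⟩ | ⟨w, h1, h2⟩
    · left
      refine ⟨e w, ?_, ?_⟩
      · dsimp only; rw [Equiv.symm_apply_apply, h1, Equiv.apply_symm_apply]
      · dsimp only; rw [Equiv.symm_apply_apply]; exact h2
    · right
      refine ⟨e w, ?_, ?_⟩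
      · dsimp only; rw [Equiv.symm_apply_apply, h1, Equiv.apply_symm_apply]
      · dsimp only; rw [Equiv.symm_apply_apply]; exact h2
  · intro i
    exact weights_out N _
  · refine ⟨fun a => e (socF N hN a), e.injective.comp (socF_inj N hN), ?_, ?_⟩
    · intro a; dsimp only; rw [Equiv.symm_apply_apply]; exact socF_al N hN a
    · intro a; dsimp only; rw [Equiv.symm_apply_apply]; exact socF_be N hN a
  · refine ⟨fun b => e (genF N hN b), ?_⟩
    intro i
    rcases genF_spec N hN (e.symm i) with ⟨b, hb⟩ | ⟨w, h1, h2⟩ | ⟨w, h1, h2⟩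
    · left
      exact ⟨b, by dsimp only; rw [hb, Equiv.apply_symm_apply]⟩
    · right; left
      refine ⟨e w, ?_, ?_⟩
      · dsimp only; rw [Equiv.symm_apply_apply, h1, Equiv.apply_symm_apply]
      · dsimp only; rw [Equiv.symm_apply_apply]; exact h2
    · right; right
      refine ⟨e w, ?_, ?_⟩
      · dsimp only; rw [Equiv.symm_apply_apply, h1, Equiv.apply_symm_apply]
      · dsimp only; rw [Equiv.symm_apply_apply]; exact h2

end Pool.Agent.H85
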