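import Pool.Agent.H85.WeightedShift
import Pool.Agent.H85.Torus

set_option autoImplicit false

namespace Pool.Agent.H85

theorem isUnit_one_add_smul {p : ℕ} [hp : Fact p.Prime] {n : ℕ} (M : Matrix (Fin n) (Fin n) ℤ_[p]) :
    IsUnit (1 + (p : ℤ_[p]) • M) := by
  rw [Matrix.isUnit_iff_isUnit_det]
  by_contra h
  have h1 : (1 + (p : ℤ_[p]) • M).det ∈ IsLocalRing.maximalIdeal ℤ_[p] :=
    (IsLocalRing.mem_maximalIdeal _).mpr h
  rw [← PadicInt.ker_toZMod, RingHom.mem_ker, RingHom.map_det] at h1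
  have h2 : PadicInt.toZMod.mapMatrix (1 + (p : ℤ_[p]) • M) = (1 : Matrix (Fin n) (Fin n) (ZMod p)) := by
    rw [map_add, map_one]
    have : PadicInt.toZMod.mapMatrix ((p : ℤ_[p]) • M) = 0 := by
      ext i j
      rw [RingHom.mapMatrix_apply, Matrix.map_apply, Matrix.smul_apply, smul_eq_mul, map_mul,
        map_natCast, ZMod.natCast_self, zero_mul, Matrix.zero_apply]
    rw [this, add_zero]
  rw [h2, Matrix.det_one] at h1
  exact one_ne_zero h1

/-- For every prime `p`, pairs of invertible `p`-adic matrices commuting modulo arbitrarily high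
powers of `p` need not be congruent modulo `p ^ 3` to commuting pairs. -/
theorem not_stable (p : ℕ) [hp : Fact p.Prime] (N : ℕ) (hN : 2 ≤ N) :
    ∃ A B : Matrix.GeneralLinearGroup (Fin (2 * N * N)) ℤ_[p],
      (∀ i j, (p : ℤ_[p]) ^ (N + 2) ∣ (A.val * B.val - B.val * A.val) i j) ∧
      ¬ ∃ A' B' : Matrix.GeneralLinearGroup (Fin (2 * N * N)) ℤ_[p],
          A' * B' = B' * A' ∧
          (∀ i j, (p : ℤ_[p]) ^ 3 ∣ (A.val - A'.val) i j) ∧
          (∀ i j, (p : ℤ_[p]) ^ 3 ∣ (B.val - B'.val) i j) := by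
  have hp0 : (p : ℤ_[p]) ≠ 0 := by
    exact_mod_cast hp.out.ne_zero
  obtain ⟨n, rfl, ξ, η, α, β, hξ, hη, hcomm, hw, hin, hout, ⟨s, hs, hsα, hsβ⟩, ⟨g, hg⟩⟩ :=
    torus_data N hN
  set X := wshift p ξ α with hX
  set Y := wshift p η β with hY
  refine ⟨(isUnit_one_add_smul X).unit, (isUnit_one_add_smul Y).unit, ?_, ?_⟩
  · intro i j
    rw [IsUnit.unit_spec, IsUnit.unit_spec]
    have h1 : (1 + (p : ℤ_[p]) • X) * (1 + (p : ℤ_[p]) • Y) -
        (1 + (p : ℤ_[p]) • Y) * (1 + (p : ℤ_[p]) • X) = (p : ℤ_[p]) ^ 2 • (X * Y - Y * X) := by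
      rw [pow_two, ← smul_smul]
      simp only [add_mul, mul_add, one_mul, mul_one, Matrix.smul_mul, Matrix.mul_smul, smul_sub]
      abel
    rw [h1, Matrix.smul_apply, smul_eq_mul, add_comm N 2, pow_add]
    apply mul_dvd_mul_left
    rw [Matrix.sub_apply, hX, hY, wshift_mul_apply, wshift_mul_apply, hcomm]
    split_ifs with h
    · rcases hw j with h2 | ⟨h2, h3⟩
      · rw [h2, sub_self]; exact dvd_zero _
      · exact dvd_sub (pow_dvd_pow _ h2) (pow_dvd_pow _ h3)
    · rw [sub_self]; exact dvd_zero _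
  · rintro ⟨A', B', hAB, hA, hB⟩
    choose Z hZ using hA
    choose W hW using hB
    have hA' : A'.val = 1 + (p : ℤ_[p]) • (X - (p : ℤ_[p]) ^ 2 • Matrix.of Z) := by
      ext i j
      have := hZ i j
      rw [IsUnit.unit_spec, Matrix.sub_apply] at this
      rw [smul_sub, smul_smul, ← pow_succ', ← add_sub_assoc, Matrix.sub_apply (1 + (p : ℤ_[p]) • X),
        Matrix.smul_apply, Matrix.of_apply, smul_eq_mul, ← this, sub_sub_cancel]
    have hB' : B'.val = 1 + (p : ℤ_[p]) • (Y - (p : ℤ_[p]) ^ 2 • Matrix.of W) := by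
      ext i j
      have := hW i j
      rw [IsUnit.unit_spec, Matrix.sub_apply] at this
      rw [smul_sub, smul_smul, ← pow_succ', ← add_sub_assoc, Matrix.sub_apply (1 + (p : ℤ_[p]) • Y),
        Matrix.smul_apply, Matrix.of_apply, smul_eq_mul, ← this, sub_sub_cancel]
    set X' := X - (p : ℤ_[p]) ^ 2 • Matrix.of Z with hX'
    set Y' := Y - (p : ℤ_[p]) ^ 2 • Matrix.of W with hY'
    have hcomm' : X' * Y' = Y' * X' := by
      have h1 : A'.val * B'.val = B'.val * A'.val := by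
        have := congrArg Units.val hAB
        rwa [Units.val_mul, Units.val_mul] at this
      rw [hA', hB'] at h1
      have h2 : (p : ℤ_[p]) ^ 2 • (X' * Y' - Y' * X') = 0 := by
        have h3 : (1 + (p : ℤ_[p]) • X') * (1 + (p : ℤ_[p]) • Y') -
            (1 + (p : ℤ_[p]) • Y') * (1 + (p : ℤ_[p]) • X') =
              (p : ℤ_[p]) ^ 2 • (X' * Y' - Y' * X') := by
          rw [pow_two, ← smul_smul]
          simp only [add_mul, mul_add, one_mul, mul_one, Matrix.smul_mul, Matrix.mul_smul, smul_sub]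
          abel
        rw [← h3, h1, sub_self]
      have h4 := (smul_eq_zero.mp h2).resolve_left (pow_ne_zero _ hp0)
      exact sub_eq_zero.mp h4
    have hcard := card_le_of_near (p := p) ξ η hξ hη α β X' Y' (Matrix.of Z) (Matrix.of W)
      hcomm' hX' hY' hin hout s hs hsα hsβ g hg
    rw [Fintype.card_fin, Fintype.card_fin] at hcard
    omega

end Pool.Agent.H85
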