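import Pool.Agent.H85.WeightedShift
import Pool.Agent.H85.Torus

set_option autoImplicit false

namespace Pool.Agent.H85.NS2

open Pool.Agent.H85

variable {p : ℕ} [hp : Fact p.Prime]

/-- A unipotent (mod `p`) weighted shift plus one is invertible. -/
theorem isUnit_one_add_wshift {ι : Type*} [Fintype ι] [DecidableEq ι] (ξ : ι → ι)
    (hξ : Function.Injective ξ) (α : ι → ℕ)
    (hch : ∀ i, ∃ (j : ι) (t : ℕ), 1 ≤ α j ∧ ξ^[t + 1] j = i) :
    IsUnit (1 + wshift p ξ α) := by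
  rw [Matrix.isUnit_iff_isUnit_det]
  by_contra h
  have h1 : (1 + wshift p ξ α).det ∈ IsLocalRing.maximalIdeal ℤ_[p] :=
    (IsLocalRing.mem_maximalIdeal _).mpr h
  rw [← PadicInt.ker_toZMod, RingHom.mem_ker, RingHom.map_det] at h1
  obtain ⟨v, hv0, hv⟩ := Matrix.exists_mulVec_eq_zero_iff.mpr h1
  apply hv0
  have hstep : ∀ j, v (ξ j) + PadicInt.toZMod ((p : ℤ_[p]) ^ (α j)) * v j = 0 := by
    intro j
    have h2 := congrFun hv (ξ j)
    rw [map_add, map_one, Matrix.add_mulVec, Matrix.one_mulVec, Pi.add_apply, Pi.zero_apply] at h2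
    rw [← h2]
    congr 1
    rw [Matrix.mulVec, dotProduct, Finset.sum_eq_single j]
    · simp [wshift]
    · intro b _ hb
      simp only [wshift, RingHom.mapMatrix_apply, Matrix.map_apply, Matrix.of_apply]
      rw [if_neg (fun h => hb (hξ h).symm), map_zero, zero_mul]
    · intro h; exact absurd (Finset.mem_univ _) h
  have hz : ∀ (t : ℕ) (j : ι), 1 ≤ α j → v (ξ^[t + 1] j) = 0 := by
    intro t
    induction t with
    | zero =>
      intro j hj
      have h2 := hstep j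
      have h3 : PadicInt.toZMod ((p : ℤ_[p]) ^ (α j)) = (0 : ZMod p) := by
        rw [map_pow, map_natCast, ZMod.natCast_self, zero_pow (by omega)]
      rw [h3, zero_mul, add_zero] at h2
      exact h2
    | succ t ih =>
      intro j hj
      have h2 := hstep (ξ^[t + 1] j)
      rw [ih j hj, mul_zero, add_zero] at h2
      rw [Function.iterate_succ_apply']
      exact h2
  funext i
  obtain ⟨j, t, h2, rfl⟩ := hch i
  exact hz t j h2

theorem xiF_iter (N : ℕ) (hN : 2 ≤ N) (y : Fin N) (s : ℕ) (hs : s ≤ 2 * N) :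
    ((xiF N)^[s] (⟨N - 1, by omega⟩, y)).1.val = (if s ≤ N then N - 1 + s else s - N - 1) ∧
    ((xiF N)^[s] (⟨N - 1, by omega⟩, y)).2.val = y.val := by
  induction s with
  | zero => exact ⟨by simp, rfl⟩
  | succ s ih =>
    obtain ⟨h1, h2⟩ := ih (by omega)
    rw [Function.iterate_succ_apply', xiF_fst, xiF_snd, h1, h2]
    refine ⟨?_, rfl⟩
    split_ifs <;> omega

theorem etaF_iter (N : ℕ) (hN : 2 ≤ N) (x : ℕ) (hx : x < N) (s : ℕ) (hs : s ≤ 2 * N) :
    ((etaF N)^[s] (⟨x, by omega⟩, ⟨0, by omega⟩)).1.val =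
      (if s < N then x else if s < 2 * N then x + N else x) ∧
    ((etaF N)^[s] (⟨x, by omega⟩, ⟨0, by omega⟩)).2.val =
      (if s < N then s else if s < 2 * N then s - N else 0) := by
  induction s with
  | zero =>
    constructor
    · rw [if_pos (by omega)]; rfl
    · rw [if_pos (by omega)]; rfl
  | succ s ih =>
    obtain ⟨h1, h2⟩ := ih (by omega)
    rw [Function.iterate_succ_apply', etaF_fst, etaF_snd, h1, h2]
    constructor
    · split_ifs <;> omega
    · split_ifs <;> omega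

theorem xiF_chain (N : ℕ) (hN : 2 ≤ N) (i : Fin (2 * N) × Fin N) :
    ∃ (j : Fin (2 * N) × Fin N) (t : ℕ), 1 ≤ alF N j ∧ (xiF N)^[t + 1] j = i := by
  have hi := i.1.isLt
  have hi2 := i.2.isLt
  have hal : 1 ≤ alF N (⟨N - 1, by omega⟩, i.2) := by
    unfold alF; dsimp only; split_ifs <;> omega
  by_cases h : N ≤ i.1.val
  · refine ⟨(⟨N - 1, by omega⟩, i.2), i.1.val - N, hal, ?_⟩
    obtain ⟨h1, h2⟩ := xiF_iter N hN i.2 (i.1.val - N + 1) (by omega)
    apply pair_ext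
    · rw [h1]; split_ifs <;> omega
    · exact h2
  · refine ⟨(⟨N - 1, by omega⟩, i.2), i.1.val + N, hal, ?_⟩
    obtain ⟨h1, h2⟩ := xiF_iter N hN i.2 (i.1.val + N + 1) (by omega)
    apply pair_ext
    · rw [h1]; split_ifs <;> omega
    · exact h2

theorem etaF_chain (N : ℕ) (hN : 2 ≤ N) (i : Fin (2 * N) × Fin N) :
    ∃ (j : Fin (2 * N) × Fin N) (t : ℕ), 1 ≤ beF N j ∧ (etaF N)^[t + 1] j = i := by
  have hi := i.1.isLt
  have hi2 := i.2.isLt
  have hbe : ∀ (x : ℕ) (hx : x < N), 1 ≤ beF N (⟨x, by omega⟩, ⟨0, by omega⟩) := by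
    intro x hx
    unfold beF; dsimp only; split_ifs <;> omega
  by_cases h : i.1.val < N
  · by_cases h0 : i.2.val = 0
    · refine ⟨(⟨i.1.val, by omega⟩, ⟨0, by omega⟩), 2 * N - 1, hbe _ h, ?_⟩
      obtain ⟨h1, h2⟩ := etaF_iter N hN i.1.val h (2 * N - 1 + 1) (by omega)
      apply pair_ext
      · rw [h1]; split_ifs <;> omega
      · rw [h2]; split_ifs <;> omega
    · refine ⟨(⟨i.1.val, by omega⟩, ⟨0, by omega⟩), i.2.val - 1, hbe _ h, ?_⟩
      obtain ⟨h1, h2⟩ := etaF_iter N hN i.1.val h (i.2.val - 1 + 1) (by omega)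
      apply pair_ext
      · rw [h1]; split_ifs <;> omega
      · rw [h2]; split_ifs <;> omega
  · refine ⟨(⟨i.1.val - N, by omega⟩, ⟨0, by omega⟩), N + i.2.val - 1,
      hbe _ (by omega), ?_⟩
    obtain ⟨h1, h2⟩ := etaF_iter N hN (i.1.val - N) (by omega) (N + i.2.val - 1 + 1) (by omega)
    apply pair_ext
    · rw [h1]; split_ifs <;> omega
    · rw [h2]; split_ifs <;> omega

/-- The index set: the torus and `r` extra points. -/
abbrev Idx (N r : ℕ) : Type := (Fin (2 * N) × Fin N) ⊕ Fin r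

def xi (N r : ℕ) : Idx N r → Idx N r := Sum.map (xiF N) id

def eta (N r : ℕ) : Idx N r → Idx N r := Sum.map (etaF N) id

def al (N r : ℕ) : Idx N r → ℕ := Sum.elim (alF N) (fun _ => 1)

def be (N r : ℕ) : Idx N r → ℕ := Sum.elim (beF N) (fun _ => 1)

theorem xi_inj (N r : ℕ) : Function.Injective (xi N r) :=
  Function.Injective.sumMap (xiF_inj N) Function.injective_id

theorem eta_inj (N r : ℕ) : Function.Injective (eta N r) :=
  Function.Injective.sumMap (etaF_inj N) Function.injective_id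

theorem iter_inl {τ : Type*} {r : ℕ} (f : τ → τ) (s : ℕ) (q : τ) :
    (Sum.map f (id : Fin r → Fin r))^[s] (Sum.inl q) = Sum.inl (f^[s] q) := by
  induction s with
  | zero => rfl
  | succ s ih => rw [Function.iterate_succ_apply', ih, Function.iterate_succ_apply']; rfl

theorem xi_chain (N r : ℕ) (hN : 2 ≤ N) (i : Idx N r) :
    ∃ (j : Idx N r) (t : ℕ), 1 ≤ al N r j ∧ (xi N r)^[t + 1] j = i := by
  rcases i with i | i
  · obtain ⟨j, t, h1, h2⟩ := xiF_chain N hN i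
    exact ⟨Sum.inl j, t, h1, by rw [xi, iter_inl, h2]⟩
  · exact ⟨Sum.inr i, 0, le_refl _, rfl⟩

theorem eta_chain (N r : ℕ) (hN : 2 ≤ N) (i : Idx N r) :
    ∃ (j : Idx N r) (t : ℕ), 1 ≤ be N r j ∧ (eta N r)^[t + 1] j = i := by
  rcases i with i | i
  · obtain ⟨j, t, h1, h2⟩ := etaF_chain N hN i
    exact ⟨Sum.inl j, t, h1, by rw [eta, iter_inl, h2]⟩
  · exact ⟨Sum.inr i, 0, le_refl _, rfl⟩

theorem comm_dvd (N r : ℕ) (i j : Idx N r) :
    (p : ℤ_[p]) ^ N ∣
      (wshift p (xi N r) (al N r) * wshift p (eta N r) (be N r) -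
        wshift p (eta N r) (be N r) * wshift p (xi N r) (al N r)) i j := by
  rw [Matrix.sub_apply, wshift_mul_apply, wshift_mul_apply]
  rcases j with j | j
  · have hc : xi N r (eta N r (Sum.inl j)) = eta N r (xi N r (Sum.inl j)) := by
      show Sum.inl (xiF N (etaF N j)) = Sum.inl (etaF N (xiF N j))
      rw [xi_eta_comm]
    rw [hc]
    split_ifs with h
    · show (p : ℤ_[p]) ^ N ∣ (p : ℤ_[p]) ^ (alF N (etaF N j) + beF N j) -
        (p : ℤ_[p]) ^ (beF N (xiF N j) + alF N j)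
      rcases weights_comm N j with h2 | ⟨h2, h3⟩
      · rw [h2, sub_self]; exact dvd_zero _
      · exact dvd_sub (pow_dvd_pow _ h2) (pow_dvd_pow _ h3)
    · rw [sub_self]; exact dvd_zero _
  · have hc : xi N r (eta N r (Sum.inr j)) = eta N r (xi N r (Sum.inr j)) := rfl
    rw [hc]
    have h2 : al N r (eta N r (Sum.inr j)) + be N r (Sum.inr j) =
        be N r (xi N r (Sum.inr j)) + al N r (Sum.inr j) := rfl
    rw [h2, sub_self]
    exact dvd_zero _

/-- No commuting pair is congruent mod `p ^ 2` to the two weighted shifts. -/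
theorem no_pair (N r : ℕ) (hN : 2 ≤ N) (X' Y' Z W : Matrix (Idx N r) (Idx N r) ℤ_[p])
    (hcomm : X' * Y' = Y' * X')
    (hX : X' = wshift p (xi N r) (al N r) - (p : ℤ_[p]) ^ 2 • Z)
    (hY : Y' = wshift p (eta N r) (be N r) - (p : ℤ_[p]) ^ 2 • W) : False := by
  have hcard := card_le_of_near (p := p) (xi N r) (eta N r) (xi_inj N r) (eta_inj N r)
    (al N r) (be N r) X' Y' Z W hcomm hX hY ?_ ?_
    (σ := Fin (2 * N) ⊕ Fin r) (γ := Fin (2 * N - 1) ⊕ Fin r)
    (Sum.map (socF N hN) id) (Function.Injective.sumMap (socF_inj N hN) Function.injective_id)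
    ?_ ?_ (Sum.map (genF N hN) id) ?_
  · rw [Fintype.card_sum, Fintype.card_sum, Fintype.card_fin, Fintype.card_fin,
      Fintype.card_fin] at hcard
    omega
  · rintro (i | i)
    · rcases weights_in N hN i with ⟨w, h1, h2⟩ | ⟨w, h1, h2⟩
      · exact Or.inl ⟨Sum.inl w, by rw [← h1]; rfl, h2⟩
      · exact Or.inr ⟨Sum.inl w, by rw [← h1]; rfl, h2⟩
    · exact Or.inl ⟨Sum.inr i, rfl, le_refl _⟩
  · rintro (i | i)
    · exact weights_out N i
    · exact Or.inl (le_refl _)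
  · rintro (a | a)
    · exact socF_al N hN a
    · exact le_refl _
  · rintro (a | a)
    · exact socF_be N hN a
    · exact le_refl _
  · rintro (i | i)
    · rcases genF_spec N hN i with ⟨b, hb⟩ | ⟨w, h1, h2⟩ | ⟨w, h1, h2⟩
      · exact Or.inl ⟨Sum.inl b, by rw [← hb]; rfl⟩
      · exact Or.inr (Or.inl ⟨Sum.inl w, by rw [← h1]; rfl, h2⟩)
      · exact Or.inr (Or.inr ⟨Sum.inl w, by rw [← h1]; rfl, h2⟩)
    · exact Or.inl ⟨Sum.inr i, rfl⟩

theorem isUnit_one_add_smul' {ι : Type*} [Fintype ι] [DecidableEq ι] (M : Matrix ι ι ℤ_[p]) :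
    IsUnit (1 + (p : ℤ_[p]) • M) := by
  rw [Matrix.isUnit_iff_isUnit_det]
  by_contra h
  have h1 : (1 + (p : ℤ_[p]) • M).det ∈ IsLocalRing.maximalIdeal ℤ_[p] :=
    (IsLocalRing.mem_maximalIdeal _).mpr h
  rw [← PadicInt.ker_toZMod, RingHom.mem_ker, RingHom.map_det] at h1
  have h2 : PadicInt.toZMod.mapMatrix (1 + (p : ℤ_[p]) • M) = (1 : Matrix ι ι (ZMod p)) := by
    rw [map_add, map_one]
    have : PadicInt.toZMod.mapMatrix ((p : ℤ_[p]) • M) = 0 := by
      ext i j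
      rw [RingHom.mapMatrix_apply, Matrix.map_apply, Matrix.smul_apply, smul_eq_mul, map_mul,
        map_natCast, ZMod.natCast_self, zero_mul, Matrix.zero_apply]
    rw [this, add_zero]
  rw [h2, Matrix.det_one] at h1
  exact one_ne_zero h1

theorem isUnit_pow {ι : Type*} [Fintype ι] [DecidableEq ι] (X : Matrix ι ι ℤ_[p])
    (h0 : IsUnit (1 + X)) (j : ℕ) : IsUnit (1 + (p : ℤ_[p]) ^ j • X) := by
  cases j with
  | zero => rw [pow_zero, one_smul]; exact h0
  | succ j =>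
    rw [pow_succ', ← smul_smul]
    exact isUnit_one_add_smul' _

/-- The statement over the index set `Idx N r`. -/
theorem main_idx (p : ℕ) [hp : Fact p.Prime] (j N r : ℕ) (hN : 2 ≤ N) :
    ∃ A B : Matrix (Idx N r) (Idx N r) ℤ_[p], IsUnit A ∧ IsUnit B ∧
      (∀ i k, (p : ℤ_[p]) ^ j ∣ (A - 1) i k) ∧ (∀ i k, (p : ℤ_[p]) ^ j ∣ (B - 1) i k) ∧
      (∀ i k, (p : ℤ_[p]) ^ (N + 2 * j) ∣ (A * B - B * A) i k) ∧
      ∀ A' B' : Matrix (Idx N r) (Idx N r) ℤ_[p], A' * B' = B' * A' →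
        (∀ i k, (p : ℤ_[p]) ^ (j + 2) ∣ (A - A') i k) →
        (∀ i k, (p : ℤ_[p]) ^ (j + 2) ∣ (B - B') i k) → False := by
  have hp0 : (p : ℤ_[p]) ≠ 0 := by
    exact_mod_cast hp.out.ne_zero
  set X := wshift p (xi N r) (al N r) with hX
  set Y := wshift p (eta N r) (be N r) with hY
  have hmul : ∀ U V : Matrix (Idx N r) (Idx N r) ℤ_[p],
      (1 + (p : ℤ_[p]) ^ j • U) * (1 + (p : ℤ_[p]) ^ j • V) -
        (1 + (p : ℤ_[p]) ^ j • V) * (1 + (p : ℤ_[p]) ^ j • U) =
          (p : ℤ_[p]) ^ (2 * j) • (U * V - V * U) := by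
    intro U V
    rw [show (p : ℤ_[p]) ^ (2 * j) = (p : ℤ_[p]) ^ j * (p : ℤ_[p]) ^ j by rw [two_mul, pow_add],
      ← smul_smul]
    simp only [add_mul, mul_add, one_mul, mul_one, Matrix.smul_mul, Matrix.mul_smul, smul_sub]
    abel
  refine ⟨1 + (p : ℤ_[p]) ^ j • X, 1 + (p : ℤ_[p]) ^ j • Y,
    isUnit_pow _ (isUnit_one_add_wshift _ (xi_inj N r) _ (xi_chain N r hN)) _,
    isUnit_pow _ (isUnit_one_add_wshift _ (eta_inj N r) _ (eta_chain N r hN)) _, ?_, ?_, ?_, ?_⟩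
  · intro i k
    rw [add_sub_cancel_left, Matrix.smul_apply, smul_eq_mul]
    exact dvd_mul_right _ _
  · intro i k
    rw [add_sub_cancel_left, Matrix.smul_apply, smul_eq_mul]
    exact dvd_mul_right _ _
  · intro i k
    rw [hmul, Matrix.smul_apply, smul_eq_mul, add_comm N, pow_add]
    exact mul_dvd_mul_left _ (comm_dvd N r i k)
  · intro A' B' hAB hA hB
    choose Z hZ using hA
    choose W hW using hB
    have hA' : A' = 1 + (p : ℤ_[p]) ^ j • (X - (p : ℤ_[p]) ^ 2 • Matrix.of Z) := by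
      ext i k
      have := hZ i k
      rw [Matrix.sub_apply] at this
      rw [smul_sub, smul_smul, ← pow_add, ← add_sub_assoc,
        Matrix.sub_apply (1 + (p : ℤ_[p]) ^ j • X), Matrix.smul_apply, Matrix.of_apply,
        smul_eq_mul, ← this, sub_sub_cancel]
    have hB' : B' = 1 + (p : ℤ_[p]) ^ j • (Y - (p : ℤ_[p]) ^ 2 • Matrix.of W) := by
      ext i k
      have := hW i k
      rw [Matrix.sub_apply] at this
      rw [smul_sub, smul_smul, ← pow_add, ← add_sub_assoc,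
        Matrix.sub_apply (1 + (p : ℤ_[p]) ^ j • Y), Matrix.smul_apply, Matrix.of_apply,
        smul_eq_mul, ← this, sub_sub_cancel]
    set X' := X - (p : ℤ_[p]) ^ 2 • Matrix.of Z with hX'
    set Y' := Y - (p : ℤ_[p]) ^ 2 • Matrix.of W with hY'
    have hcomm' : X' * Y' = Y' * X' := by
      have h1 := hmul X' Y'
      rw [← hA', ← hB', hAB, sub_self] at h1
      exact sub_eq_zero.mp ((smul_eq_zero.mp h1.symm).resolve_left (pow_ne_zero _ hp0))
    exact no_pair N r hN X' Y' (Matrix.of Z) (Matrix.of W) hcomm' hX' hY'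

/-- The statement for all `n ≥ 2 N ^ 2`. -/
theorem main_fin (p : ℕ) [hp : Fact p.Prime] (j N n : ℕ) (hN : 2 ≤ N) (hn : 2 * N ^ 2 ≤ n) :
    ∃ A B : Matrix (Fin n) (Fin n) ℤ_[p], IsUnit A ∧ IsUnit B ∧
      (∀ i k, (p : ℤ_[p]) ^ j ∣ (A - 1) i k) ∧ (∀ i k, (p : ℤ_[p]) ^ j ∣ (B - 1) i k) ∧
      (∀ i k, (p : ℤ_[p]) ^ (N + 2 * j) ∣ (A * B - B * A) i k) ∧
      ∀ A' B' : Matrix (Fin n) (Fin n) ℤ_[p], A' * B' = B' * A' →
        (∀ i k, (p : ℤ_[p]) ^ (j + 2) ∣ (A - A') i k) →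
        (∀ i k, (p : ℤ_[p]) ^ (j + 2) ∣ (B - B') i k) → False := by
  obtain ⟨A, B, hA, hB, hA1, hB1, hAB, hno⟩ := main_idx p j N (n - 2 * N ^ 2) hN
  have hcard : Fintype.card (Idx N (n - 2 * N ^ 2)) = Fintype.card (Fin n) := by
    rw [Fintype.card_sum, Fintype.card_prod, Fintype.card_fin, Fintype.card_fin, Fintype.card_fin,
      Fintype.card_fin]
    have : 2 * N * N = 2 * N ^ 2 := by ring
    omega
  obtain ⟨e⟩ : Nonempty (Idx N (n - 2 * N ^ 2) ≃ Fin n) := ⟨Fintype.equivOfCardEq hcard⟩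
  have hone : (1 : Matrix (Fin n) (Fin n) ℤ_[p]) =
      (1 : Matrix (Idx N (n - 2 * N ^ 2)) (Idx N (n - 2 * N ^ 2)) ℤ_[p]).submatrix e.symm e.symm :=
    (Matrix.submatrix_one_equiv e.symm).symm
  refine ⟨A.submatrix e.symm e.symm, B.submatrix e.symm e.symm,
    (Matrix.isUnit_submatrix_equiv e.symm e.symm).mpr hA,
    (Matrix.isUnit_submatrix_equiv e.symm e.symm).mpr hB,
    ?_, ?_, ?_, ?_⟩
  · intro i k
    rw [hone]
    exact hA1 _ _
  · intro i k
    rw [hone]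
    exact hB1 _ _
  · intro i k
    rw [Matrix.submatrix_mul_equiv, Matrix.submatrix_mul_equiv]
    exact hAB _ _
  · intro A' B' hc hA2 hB2
    refine hno (A'.submatrix e e) (B'.submatrix e e) ?_ ?_ ?_
    · rw [Matrix.submatrix_mul_equiv, Matrix.submatrix_mul_equiv, hc]
    · intro i k
      have := hA2 (e i) (e k)
      simpa using this
    · intro i k
      have := hB2 (e i) (e k)
      simpa using this

end Pool.Agent.H85.NS2
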