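import Mathlib

set_option autoImplicit false

namespace Pool.Agent.H85

/-- Kernels in a pencil of commuting endomorphisms without common kernel are independent. -/
theorem pencil_indep {R M : Type*} [CommRing R] [IsDomain R] [CharZero R] [AddCommGroup M]
    [Module R M] [Module.IsTorsionFree R M]
    (x y : M →ₗ[R] M) (hxy : ∀ v, x (y v) = y (x v))
    (hker : ∀ v, x v = 0 → y v = 0 → v = 0) :
    iSupIndep (fun c : ℕ => LinearMap.ker (x + (c : R) • y)) := by
  rw [iSupIndep_iff_finsetSum_eq_zero_imp_eq_zero]
  intro s
  classical
  induction s using Finset.induction_on with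
  | empty => intro v _ _ i hi; simp at hi
  | insert c0 s hc0 ih =>
    intro v hv hsum
    have hvx : ∀ i ∈ insert c0 s, x (v i) = -((i : R) • y (v i)) := by
      intro i hi
      have := hv i hi
      rw [LinearMap.mem_ker, LinearMap.add_apply, LinearMap.smul_apply] at this
      exact eq_neg_of_add_eq_zero_left this
    have key : ∀ c ∈ s, v c = 0 := by
      intro c hc
      have h1 : ∀ i ∈ s, ((c0 : R) - (i : R)) • y (v i) ∈ LinearMap.ker (x + (i : R) • y) := by
        intro i hi
        apply Submodule.smul_mem
        rw [LinearMap.mem_ker, LinearMap.add_apply, LinearMap.smul_apply, hxy,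
          hvx i (Finset.mem_insert_of_mem hi)]
        simp
      have h2 : ∑ i ∈ s, ((c0 : R) - (i : R)) • y (v i) = 0 := by
        have h3 : (x + (c0 : R) • y) (∑ i ∈ insert c0 s, v i) = 0 := by rw [hsum, map_zero]
        rw [map_sum, Finset.sum_insert hc0] at h3
        have h4 : (x + (c0 : R) • y) (v c0) = 0 := hv c0 (Finset.mem_insert_self _ _)
        rw [h4, zero_add] at h3
        rw [← h3]
        apply Finset.sum_congr rfl
        intro i hi
        rw [LinearMap.add_apply, LinearMap.smul_apply, hvx i (Finset.mem_insert_of_mem hi), sub_smul]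
        abel
      have h3 := ih (fun i => ((c0 : R) - (i : R)) • y (v i)) h1 h2 c hc
      have h4 : ((c0 : R) - (c : R)) ≠ 0 := by
        intro h
        have : (c0 : R) = (c : R) := sub_eq_zero.mp h
        have : c0 = c := Nat.cast_injective this
        exact hc0 (this ▸ hc)
      have h5 : y (v c) = 0 := (smul_eq_zero.mp h3).resolve_left h4
      have h6 : x (v c) = 0 := by rw [hvx c (Finset.mem_insert_of_mem hc), h5]; simp
      exact hker _ h6 h5
    intro i hi
    rcases Finset.mem_insert.mp hi with rfl | hi
    · rw [Finset.sum_insert hc0, Finset.sum_eq_zero key, add_zero] at hsum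
      exact hsum
    · exact key i hi

/-- Existence of an injective member of the pencil. -/
theorem exists_injective_pencil {R M : Type*} [CommRing R] [IsDomain R] [CharZero R]
    [AddCommGroup M] [Module R M] [Module.IsTorsionFree R M] [IsNoetherian R M]
    (x y : M →ₗ[R] M) (hxy : ∀ v, x (y v) = y (x v))
    (hker : ∀ v, x v = 0 → y v = 0 → v = 0) :
    ∃ c : ℕ, Function.Injective (x + (c : R) • y) := by
  have h := WellFoundedGT.finite_ne_bot_of_iSupIndep (pencil_indep x y hxy hker)
  obtain ⟨c, hc⟩ := h.exists_notMem
  refine ⟨c, ?_⟩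
  rw [← LinearMap.ker_eq_bot]
  by_contra h'
  exact hc h'

end Pool.Agent.H85
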