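import Mathlib

set_option autoImplicit false

namespace Pool.Agent.H85

open Matrix Polynomial

theorem exists_equiv_of_map_eq {ι κ α : Type*} [Fintype ι] [Fintype κ] (f : ι → α) (g : κ → α)
    (h : Multiset.map f Finset.univ.val = Multiset.map g Finset.univ.val) :
    ∃ e : ι ≃ κ, ∀ i, f i = g (e i) := by
  classical
  have hc : ∀ a, Fintype.card {x // f x = a} = Fintype.card {y // g y = a} := by
    intro a
    have h1 := congrArg (Multiset.count a) h
    rw [Multiset.count_map, Multiset.count_map] at h1
    rw [Fintype.card_subtype, Fintype.card_subtype]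
    simp only [Finset.card_def, Finset.filter_val]
    convert h1 using 3 <;> exact eq_comm
  refine ⟨(Equiv.sigmaFiberEquiv f).symm.trans
    ((Equiv.sigmaCongrRight fun a => Fintype.equivOfCardEq (hc a)).trans
      (Equiv.sigmaFiberEquiv g)), ?_⟩
  intro i
  have : ∀ (s : Σ a, {y // g y = a}), g (Equiv.sigmaFiberEquiv g s) = s.1 := by
    rintro ⟨a, y, hy⟩
    exact hy
  rw [Equiv.trans_apply, Equiv.trans_apply, this]
  rfl

variable {ι κ : Type*} [Fintype ι] [DecidableEq ι] [Fintype κ] [DecidableEq κ]

/-- product of two involutions of the special unitary group -/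
def IsP2 (R : Matrix ι ι ℂ) : Prop :=
  ∃ J K : Matrix ι ι ℂ, J ∈ specialUnitaryGroup ι ℂ ∧ K ∈ specialUnitaryGroup ι ℂ ∧
    J * J = 1 ∧ K * K = 1 ∧ R = J * K

/-- product of four involutions of the special unitary group -/
def IsP4 (A : Matrix ι ι ℂ) : Prop :=
  ∃ R S : Matrix ι ι ℂ, IsP2 R ∧ IsP2 S ∧ A = R * S

theorem conj_mem_SU {U A : Matrix ι ι ℂ} (hU : U ∈ unitaryGroup ι ℂ)
    (hA : A ∈ specialUnitaryGroup ι ℂ) : U * A * star U ∈ specialUnitaryGroup ι ℂ := by
  rw [mem_specialUnitaryGroup_iff] at hA ⊢
  refine ⟨mul_mem (mul_mem hU hA.1) (Unitary.star_mem hU), ?_⟩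
  rw [det_mul, det_mul, hA.2, mul_one, ← det_mul, mem_unitaryGroup_iff.mp hU, det_one]

theorem IsP2.conj {U R : Matrix ι ι ℂ} (hU : U ∈ unitaryGroup ι ℂ) (hR : IsP2 R) :
    IsP2 (U * R * star U) := by
  obtain ⟨J, K, hJ, hK, hJJ, hKK, rfl⟩ := hR
  have h1 : star U * U = 1 := mem_unitaryGroup_iff'.mp hU
  have h2 : U * star U = 1 := mem_unitaryGroup_iff.mp hU
  refine ⟨U * J * star U, U * K * star U, conj_mem_SU hU hJ, conj_mem_SU hU hK, ?_, ?_, ?_⟩
  · calc U * J * star U * (U * J * star U) = U * J * (star U * U) * J * star U := by noncomm_ring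
      _ = 1 := by rw [h1, mul_one, mul_assoc U J J, hJJ, mul_one, h2]
  · calc U * K * star U * (U * K * star U) = U * K * (star U * U) * K * star U := by noncomm_ring
      _ = 1 := by rw [h1, mul_one, mul_assoc U K K, hKK, mul_one, h2]
  · calc U * (J * K) * star U = U * J * 1 * K * star U := by noncomm_ring
      _ = U * J * star U * (U * K * star U) := by rw [← h1]; noncomm_ring

theorem IsP4.conj {U A : Matrix ι ι ℂ} (hU : U ∈ unitaryGroup ι ℂ) (hA : IsP4 A) :
    IsP4 (U * A * star U) := by
  obtain ⟨R, S, hR, hS, rfl⟩ := hA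
  have h1 : star U * U = 1 := mem_unitaryGroup_iff'.mp hU
  refine ⟨_, _, hR.conj hU, hS.conj hU, ?_⟩
  calc U * (R * S) * star U = U * R * 1 * S * star U := by noncomm_ring
      _ = U * R * star U * (U * S * star U) := by rw [← h1]; noncomm_ring

theorem reindex_mem_SU (e : ι ≃ κ) {A : Matrix ι ι ℂ} (hA : A ∈ specialUnitaryGroup ι ℂ) :
    reindex e e A ∈ specialUnitaryGroup κ ℂ := by
  rw [mem_specialUnitaryGroup_iff] at hA ⊢
  refine ⟨?_, ?_⟩
  · rw [mem_unitaryGroup_iff, star_eq_conjTranspose, conjTranspose_reindex,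
      reindex_apply, reindex_apply, submatrix_mul_equiv, ← star_eq_conjTranspose,
      mem_unitaryGroup_iff.mp hA.1, submatrix_one_equiv]
  · rw [det_reindex_self, hA.2]

theorem IsP2.reindex (e : ι ≃ κ) {R : Matrix ι ι ℂ} (hR : IsP2 R) :
    IsP2 (Matrix.reindex e e R) := by
  obtain ⟨J, K, hJ, hK, hJJ, hKK, rfl⟩ := hR
  refine ⟨Matrix.reindex e e J, Matrix.reindex e e K, reindex_mem_SU e hJ, reindex_mem_SU e hK,
    ?_, ?_, ?_⟩
  · rw [reindex_apply, submatrix_mul_equiv, hJJ, submatrix_one_equiv]
  · rw [reindex_apply, submatrix_mul_equiv, hKK, submatrix_one_equiv]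
  · rw [reindex_apply, reindex_apply, reindex_apply, submatrix_mul_equiv]

theorem IsP4.reindex (e : ι ≃ κ) {A : Matrix ι ι ℂ} (hA : IsP4 A) :
    IsP4 (Matrix.reindex e e A) := by
  obtain ⟨R, S, hR, hS, rfl⟩ := hA
  refine ⟨_, _, hR.reindex e, hS.reindex e, ?_⟩
  rw [reindex_apply, reindex_apply, reindex_apply, submatrix_mul_equiv]

/-- Unitary diagonalization of unitary matrices, by the Cayley transform. -/
theorem unitary_diag {A : Matrix ι ι ℂ} (hA : A ∈ unitaryGroup ι ℂ) :
    ∃ U ∈ unitaryGroup ι ℂ, ∃ d : ι → ℂ, A = U * diagonal d * star U := by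
  -- choose a unit complex number which is not an eigenvalue
  obtain ⟨z, hz⟩ : ∃ z : Circle, A.charpoly.eval (z : ℂ) ≠ 0 := by
    by_contra h
    push Not at h
    have hinf : Set.Infinite (Set.range (fun z : Circle => (z : ℂ))) := by
      have : Infinite Circle := by
        apply Infinite.of_injective (fun k : ℕ => Circle.exp (1 / ((k : ℝ) + 1)))
        intro a b hab
        have ha : ∀ k : ℕ, Complex.arg (Circle.exp (1 / ((k : ℝ) + 1)) : ℂ) = 1 / ((k : ℝ) + 1) := by
          intro k
          apply Circle.arg_exp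
          · have : (0 : ℝ) < 1 / ((k : ℝ) + 1) := by positivity
            linarith [Real.pi_pos]
          · have : 1 / ((k : ℝ) + 1) ≤ 1 := by
              rw [div_le_one (by positivity)]
              have : (0 : ℝ) ≤ k := Nat.cast_nonneg k
              linarith
            linarith [Real.pi_gt_three]
        have h2 := congrArg (fun z : Circle => Complex.arg (z : ℂ)) hab
        simp only [ha] at h2
        have h3 : (a : ℝ) + 1 = (b : ℝ) + 1 := by
          have := congrArg (fun x : ℝ => x⁻¹) h2
          simpa using this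
        exact_mod_cast add_right_cancel h3
      exact Set.infinite_range_of_injective Subtype.val_injective
    apply hinf
    apply (Polynomial.finite_setOfPred_isRoot (Matrix.charpoly_monic A).ne_zero).subset
    rintro _ ⟨z, rfl⟩
    exact h z
  set w : ℂ := (z : ℂ) with hw
  have hww : star w * w = 1 := by
    rw [hw]
    have := Circle.normSq_coe z
    rw [Complex.star_def, mul_comm, Complex.mul_conj, this, Complex.ofReal_one]
  have hww' : w * star w = 1 := by rw [mul_comm]; exact hww
  set B := star w • A with hB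
  have hBu : star B * B = 1 := by
    rw [hB, star_smul, star_star, smul_mul_smul_comm, hww', one_smul]
    exact mem_unitaryGroup_iff'.mp hA
  have hBu' : B * star B = 1 := by
    rw [hB, star_smul, star_star, smul_mul_smul_comm, hww, one_smul]
    exact mem_unitaryGroup_iff.mp hA
  have hdet : IsUnit (1 - B) := by
    rw [Matrix.isUnit_iff_isUnit_det, isUnit_iff_ne_zero]
    intro h
    apply hz
    rw [Matrix.eval_charpoly]
    have : (scalar ι) w - A = w • (1 - B) := by
      rw [hB, smul_sub, smul_smul, hww', one_smul]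
      ext i j; simp [scalar_apply, Matrix.one_apply, Matrix.diagonal_apply]
    rw [this, det_smul, h, mul_zero]
  obtain ⟨V, hV⟩ := hdet
  have hV1 : (1 - B) * (↑V⁻¹ : Matrix ι ι ℂ) = 1 := by rw [← hV, Units.mul_inv]
  have hV2 : (↑V⁻¹ : Matrix ι ι ℂ) * (1 - B) = 1 := by rw [← hV, Units.inv_mul]
  set C : Matrix ι ι ℂ := (↑V⁻¹ : Matrix ι ι ℂ) with hC
  -- the Cayley transform
  set H : Matrix ι ι ℂ := Complex.I • ((1 + B) * C) with hH
  have hcomm : (1 + B) * C = C * (1 + B) := by
    calc (1 + B) * C = (C * (1 - B)) * ((1 + B) * C) := by rw [hV2, one_mul]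
      _ = C * (1 + B) * ((1 - B) * C) := by noncomm_ring
      _ = C * (1 + B) := by rw [hV1, mul_one]
  have hCstar : star C * (1 - star B) = 1 := by
    have := congrArg star hV1
    rwa [star_mul, star_sub, star_one] at this
  have hCstar' : star C = - (B * C) := by
    -- star C (1 - B⋆) = 1, and (1 - B⋆) (-(B C)) = -(B C) + C = (1-B) C = 1
    calc star C = star C * ((1 - star B) * (-(B * C))) := by
          have : (1 - star B) * (-(B * C)) = (1 - B) * C + (star B * B - 1) * C := by noncomm_ring
          rw [this, hV1, hBu, sub_self, zero_mul, add_zero, mul_one]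
      _ = -(B * C) := by rw [← mul_assoc, hCstar, one_mul]
  have hBC : B * C = C * B := by
    have h1 : (1 + B) * C = C + B * C := by noncomm_ring
    have h2 : C * (1 + B) = C + C * B := by noncomm_ring
    rw [h1, h2] at hcomm
    exact add_left_cancel hcomm
  have hHerm : H.IsHermitian := by
    rw [Matrix.IsHermitian, ← star_eq_conjTranspose, hH, star_smul, star_mul, star_add, star_one,
      hCstar', Complex.star_def, Complex.conj_I]
    have : -(B * C) * (1 + star B) = -((1 + B) * C) := by
      have h3 : B * C * star B = C := by rw [hBC, mul_assoc, hBu', mul_one]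
      calc -(B * C) * (1 + star B) = -(B * C) - B * C * star B := by noncomm_ring
        _ = -((1 + B) * C) := by rw [h3]; noncomm_ring
    rw [this, smul_neg, neg_smul, neg_neg]
  have hHB : (H + Complex.I • 1) * B = H - Complex.I • 1 := by
    -- H (1 - B) = i (1 + B)
    have h4 : H * (1 - B) = Complex.I • (1 + B) := by
      rw [hH, smul_mul_assoc, mul_assoc, hV2, mul_one]
    have h5 : H * B = H - Complex.I • (1 + B) := by
      rw [← h4]; noncomm_ring
    rw [add_mul, h5, smul_mul_assoc, one_mul, smul_add]
    abel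
  have hspec := hHerm.spectral_theorem
  set U : Matrix ι ι ℂ := (hHerm.eigenvectorUnitary : Matrix ι ι ℂ) with hU
  have hUm : U ∈ unitaryGroup ι ℂ := hHerm.eigenvectorUnitary.2
  have hU1 : star U * U = 1 := mem_unitaryGroup_iff'.mp hUm
  have hU2 : U * star U = 1 := mem_unitaryGroup_iff.mp hUm
  rw [Unitary.conjStarAlgAut_apply] at hspec
  have hspec' : H = U * diagonal (fun i => ((hHerm.eigenvalues i : ℝ) : ℂ)) * star U := hspec
  set h : ι → ℂ := fun i => ((hHerm.eigenvalues i : ℝ) : ℂ) with hh
  have hne : ∀ i, h i + Complex.I ≠ 0 := by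
    intro i hi
    have := congrArg Complex.im hi
    simp [hh] at this
  have h6 : diagonal (fun i => h i + Complex.I) * (star U * B * U) = diagonal (fun i => h i - Complex.I) := by
    have h7 : diagonal (fun i => h i + Complex.I) = star U * (H + Complex.I • 1) * U := by
      rw [hspec']
      have : star U * (U * diagonal h * star U + Complex.I • 1) * U =
          (star U * U) * diagonal h * (star U * U) + Complex.I • (star U * U) := by
        rw [mul_add, add_mul, mul_smul_comm, smul_mul_assoc, mul_one]
        noncomm_ring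
      rw [this, hU1, one_mul, mul_one]
      ext i j
      by_cases hij : i = j
      · subst hij; simp
      · simp [hij]
    have h8 : diagonal (fun i => h i - Complex.I) = star U * (H - Complex.I • 1) * U := by
      rw [hspec']
      have : star U * (U * diagonal h * star U - Complex.I • 1) * U =
          (star U * U) * diagonal h * (star U * U) - Complex.I • (star U * U) := by
        rw [mul_sub, sub_mul, mul_smul_comm, smul_mul_assoc, mul_one]
        noncomm_ring
      rw [this, hU1, one_mul, mul_one]
      ext i j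
      by_cases hij : i = j
      · subst hij; simp
      · simp [hij]
    rw [h7, h8, ← hHB]
    calc star U * (H + Complex.I • 1) * U * (star U * B * U)
        = star U * (H + Complex.I • 1) * (U * star U) * B * U := by noncomm_ring
      _ = star U * ((H + Complex.I • 1) * B) * U := by rw [hU2, mul_one]; noncomm_ring
  have h9 : star U * B * U = diagonal (fun i => (h i + Complex.I)⁻¹ * (h i - Complex.I)) := by
    have h10 : diagonal (fun i => (h i + Complex.I)⁻¹) * diagonal (fun i => h i + Complex.I) = 1 := by
      rw [diagonal_mul_diagonal]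
      ext i j
      by_cases hij : i = j
      · subst hij; simp [hne i]
      · simp [hij]
    calc star U * B * U = (diagonal (fun i => (h i + Complex.I)⁻¹) *
          diagonal (fun i => h i + Complex.I)) * (star U * B * U) := by rw [h10, one_mul]
      _ = diagonal (fun i => (h i + Complex.I)⁻¹) * diagonal (fun i => h i - Complex.I) := by
          rw [mul_assoc, h6]
      _ = _ := by rw [diagonal_mul_diagonal]
  refine ⟨U, hUm, fun i => w * ((h i + Complex.I)⁻¹ * (h i - Complex.I)), ?_⟩
  have h11 : B = U * diagonal (fun i => (h i + Complex.I)⁻¹ * (h i - Complex.I)) * star U := by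
    rw [← h9]
    calc B = (U * star U) * B * (U * star U) := by rw [hU2, one_mul, mul_one]
      _ = _ := by noncomm_ring
  have h12 : A = w • B := by rw [hB, smul_smul, hww', one_smul]
  have h13 : diagonal (fun i => w * ((h i + Complex.I)⁻¹ * (h i - Complex.I))) =
      w • diagonal (fun i => (h i + Complex.I)⁻¹ * (h i - Complex.I)) := by
    ext i j
    by_cases hij : i = j
    · subst hij; simp
    · simp [hij]
  rw [h13, mul_smul_comm, smul_mul_assoc, ← h11, ← h12]

end Pool.Agent.H85
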