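import Pool.Agent.H85.SUGood

set_option autoImplicit false

namespace Pool.Agent.H85

open Matrix Polynomial

theorem real_interp {A B C : ℝ} (h : (C - A) * (C - B) ≤ 0) :
    ∃ t : ℝ, 0 ≤ t ∧ t ≤ 1 ∧ t * A + (1 - t) * B = C := by
  by_cases hAB : A = B
  · subst hAB
    have : C - A = 0 := by nlinarith [sq_nonneg (C - A)]
    exact ⟨0, le_refl _, zero_le_one, by linarith⟩
  · have hne : A - B ≠ 0 := sub_ne_zero.mpr hAB
    refine ⟨(C - B) / (A - B), ?_, ?_, ?_⟩
    · rcases lt_or_gt_of_ne hAB with hlt | hgt
      · apply div_nonneg_of_nonpos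
        · by_contra hcon
          push Not at hcon
          nlinarith
        · linarith
      · apply div_nonneg
        · by_contra hcon
          push Not at hcon
          nlinarith
        · linarith
    · rcases lt_or_gt_of_ne hAB with hlt | hgt
      · rw [div_le_one_of_neg (by linarith)]
        by_contra hcon
        push Not at hcon
        nlinarith
      · rw [div_le_one (by linarith)]
        by_contra hcon
        push Not at hcon
        nlinarith
    · field_simp
      ring

/-- The point of angle `θ` on the unit circle. -/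
noncomputable def E (θ : ℝ) : ℂ := Complex.exp (θ * Complex.I)

theorem E_add (a b : ℝ) : E (a + b) = E a * E b := by
  unfold E; rw [← Complex.exp_add]; push_cast; ring_nf

theorem E_zero : E 0 = 1 := by unfold E; simp

theorem E_pi : E Real.pi = -1 := by unfold E; exact Complex.exp_pi_mul_I

theorem E_neg (a : ℝ) : E (-a) = star (E a) := by
  unfold E
  rw [Complex.star_def, ← Complex.exp_conj, map_mul, Complex.conj_I, Complex.conj_ofReal]
  push_cast; ring_nf

theorem E_mul_star (a : ℝ) : E a * star (E a) = 1 := by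
  rw [← E_neg, ← E_add, add_neg_cancel, E_zero]

theorem E_star_mul (a : ℝ) : star (E a) * E a = 1 := by
  rw [mul_comm, E_mul_star]

theorem E_sub (a b : ℝ) : E (a - b) = E a * star (E b) := by
  rw [sub_eq_add_neg, E_add, E_neg]

theorem E_add_E (a b : ℝ) : E a + E b = 2 * E ((a + b) / 2) * (Real.cos ((a - b) / 2) : ℂ) := by
  have h1 : (Real.cos ((a - b) / 2) : ℂ) = (E ((a - b) / 2) + E (-((a - b) / 2))) / 2 := by
    rw [Complex.ofReal_cos, Complex.cos]
    unfold E
    push_cast
    ring_nf
  rw [h1]
  have h2 : E a = E ((a + b) / 2) * E ((a - b) / 2) := by rw [← E_add]; ring_nf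
  have h3 : E b = E ((a + b) / 2) * E (-((a - b) / 2)) := by rw [← E_add]; ring_nf
  rw [h2, h3]; ring

/-- Two by two unitary matrices with prescribed product and prescribed eigenvalues. -/
theorem block_two (α β μ ν : ℝ)
    (h : (Real.sin ((μ - α) / 2) * Real.sin ((ν - α) / 2)) *
      (Real.sin ((μ - β) / 2) * Real.sin ((ν - β) / 2)) ≤ 0) :
    ∃ R S : Matrix (Fin 2) (Fin 2) ℂ, R ∈ unitaryGroup (Fin 2) ℂ ∧ S ∈ unitaryGroup (Fin 2) ℂ ∧
      R * S = diagonal ![E α, E β] ∧
      R.charpoly = (X - C 1) * (X - C (E (α + β - μ - ν))) ∧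
      S.charpoly = (X - C (E μ)) * (X - C (E ν)) := by
  have hA : Real.cos ((μ - ν) / 2) - Real.cos ((μ + ν) / 2 - α) =
      2 * (Real.sin ((μ - α) / 2) * Real.sin ((ν - α) / 2)) := by
    rw [Real.cos_sub_cos]
    have e1 : ((μ - ν) / 2 + ((μ + ν) / 2 - α)) / 2 = (μ - α) / 2 := by ring
    have e2 : ((μ - ν) / 2 - ((μ + ν) / 2 - α)) / 2 = -((ν - α) / 2) := by ring
    rw [e1, e2, Real.sin_neg]; ring
  have hB : Real.cos ((μ - ν) / 2) - Real.cos ((μ + ν) / 2 - β) =
      2 * (Real.sin ((μ - β) / 2) * Real.sin ((ν - β) / 2)) := by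
    rw [Real.cos_sub_cos]
    have e1 : ((μ - ν) / 2 + ((μ + ν) / 2 - β)) / 2 = (μ - β) / 2 := by ring
    have e2 : ((μ - ν) / 2 - ((μ + ν) / 2 - β)) / 2 = -((ν - β) / 2) := by ring
    rw [e1, e2, Real.sin_neg]; ring
  obtain ⟨t, ht0, ht1, ht⟩ := real_interp (A := Real.cos ((μ + ν) / 2 - β))
    (B := Real.cos ((μ + ν) / 2 - α)) (C := Real.cos ((μ - ν) / 2)) (by rw [hA, hB]; nlinarith)
  set r := E (α + β - μ - ν) with hr
  have hrr : r * star r = 1 := E_mul_star _
  have hrr' : star r * r = 1 := E_star_mul _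
  set s : ℝ := Real.sqrt (t * (1 - t)) with hs
  have hs2 : s * s = t * (1 - t) := Real.mul_self_sqrt (mul_nonneg ht0 (by linarith))
  have hs2' : (s : ℂ) * s = t * (1 - t) := by exact_mod_cast hs2
  set R : Matrix (Fin 2) (Fin 2) ℂ := !![1 + (r - 1) * t, (r - 1) * s; (r - 1) * s, 1 + (r - 1) * (1 - t)]
    with hR
  have hRstar : star R = !![1 + (star r - 1) * t, (star r - 1) * s;
      (star r - 1) * s, 1 + (star r - 1) * (1 - t)] := by
    rw [hR, star_eq_conjTranspose]
    ext i j
    fin_cases i <;> fin_cases j <;> simp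
  have hRu : R ∈ unitaryGroup (Fin 2) ℂ := by
    rw [mem_unitaryGroup_iff, hRstar, hR]
    have key : ∀ c : ℂ, c * ((r - 1) * (star r - 1) + (r - 1) + (star r - 1)) = 0 := by
      intro c
      have : (r - 1) * (star r - 1) + (r - 1) + (star r - 1) = r * star r - 1 := by ring
      rw [this, hrr, sub_self, mul_zero]
    rw [Matrix.mul_fin_two, one_fin_two]
    congr 1
    ext i j
    fin_cases i <;> fin_cases j <;> simp only [Fin.zero_eta, Fin.mk_one, Fin.isValue, of_apply,
      cons_val', cons_val_zero, cons_val_one, cons_val_fin_one]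
    · linear_combination key t + (r - 1) * (star r - 1) * hs2'
    · linear_combination key s
    · linear_combination key s
    · linear_combination key (1 - t) + (r - 1) * (star r - 1) * hs2'
  have hDu : diagonal ![E α, E β] ∈ unitaryGroup (Fin 2) ℂ := by
    rw [mem_unitaryGroup_iff, star_eq_conjTranspose, diagonal_conjTranspose, diagonal_mul_diagonal]
    ext i j
    fin_cases i <;> fin_cases j <;> simp <;> exact E_mul_star _
  have hdetR : R.det = r := by
    rw [hR, det_fin_two_of]
    linear_combination (-(r - 1) * (r - 1)) * hs2'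
  have htrR : R.trace = 1 + r := by
    rw [hR, trace_fin_two_of]; ring
  refine ⟨R, star R * diagonal ![E α, E β], hRu, mul_mem (Unitary.star_mem hRu) hDu, ?_, ?_, ?_⟩
  · rw [← mul_assoc, mem_unitaryGroup_iff.mp hRu, one_mul]
  · rw [charpoly_fin_two, hdetR, htrR, map_add, map_one]; ring
  · have hdet : (star R * diagonal ![E α, E β]).det = E μ * E ν := by
      rw [det_mul, star_eq_conjTranspose, det_conjTranspose, hdetR, det_diagonal,
        Fin.prod_univ_two, hr, ← E_neg]
      simp only [cons_val_zero, cons_val_one]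
      rw [← E_add, ← E_add, ← E_add]
      congr 1; ring
    have htr : (star R * diagonal ![E α, E β]).trace = E μ + E ν := by
      have h1 : (star R * diagonal ![E α, E β]).trace =
          (t : ℂ) * (star r * E α + E β) + (1 - t) * (E α + star r * E β) := by
        rw [hRstar, Matrix.trace_fin_two]
        simp only [mul_diagonal, of_apply, cons_val', cons_val_zero, cons_val_one,
          cons_val_fin_one]
        ring
      have h2 : star r * E α = E (μ + ν - β) := by
        rw [hr, ← E_neg, ← E_add]; congr 1; ring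
      have h3 : star r * E β = E (μ + ν - α) := by
        rw [hr, ← E_neg, ← E_add]; congr 1; ring
      rw [h1, h2, h3, E_add_E (μ + ν - β) β, E_add_E α (μ + ν - α), E_add_E μ ν, ← ht]
      have e1 : (μ + ν - β + β) / 2 = (μ + ν) / 2 := by ring
      have e2 : (α + (μ + ν - α)) / 2 = (μ + ν) / 2 := by ring
      have e3 : (μ + ν - β - β) / 2 = (μ + ν) / 2 - β := by ring
      have e4 : (α - (μ + ν - α)) / 2 = -((μ + ν) / 2 - α) := by ring
      rw [e1, e2, e3, e4, Real.cos_neg]
      push_cast
      ring
    rw [charpoly_fin_two, hdet, htr, map_add, map_mul]; ring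

end Pool.Agent.H85
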