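import Pool.Agent.H85.SUBlock

set_option autoImplicit false

namespace Pool.Agent.H85

open Matrix Polynomial

/-- partial products -/
noncomputable def bs (γ : ℂ) (a : ℕ → ℂ) (k : ℕ) : ℂ := γ * ∏ i ∈ Finset.range k, a i

noncomputable def Rc (γ : ℂ) (a : ℕ → ℂ) (i : ℕ) : ℂ :=
  if Even i then bs γ a (i + 1) else star (bs γ a i)

noncomputable def Sc (γ : ℂ) (a : ℕ → ℂ) (i : ℕ) : ℂ :=
  if Even i then star (bs γ a i) else bs γ a (i + 1)

theorem bs_zero (γ : ℂ) (a : ℕ → ℂ) : bs γ a 0 = γ := by unfold bs; simp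

theorem bs_succ (γ : ℂ) (a : ℕ → ℂ) (k : ℕ) : bs γ a (k + 1) = bs γ a k * a k := by
  unfold bs; rw [Finset.prod_range_succ, mul_assoc]

theorem bs_unit {γ : ℂ} (hγ : γ * star γ = 1) {a : ℕ → ℂ} (ha : ∀ i, a i * star (a i) = 1)
    (k : ℕ) : bs γ a k * star (bs γ a k) = 1 := by
  induction k with
  | zero => rw [bs_zero]; exact hγ
  | succ k ih =>
    rw [bs_succ, star_mul]
    calc bs γ a k * a k * (star (a k) * star (bs γ a k)) =
        (bs γ a k * star (bs γ a k)) * (a k * star (a k)) := by ring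
      _ = 1 := by rw [ih, ha, one_mul]

theorem Rc_mul_Sc {γ : ℂ} (hγ : γ * star γ = 1) {a : ℕ → ℂ} (ha : ∀ i, a i * star (a i) = 1)
    (i : ℕ) : Rc γ a i * Sc γ a i = a i := by
  have h := bs_unit hγ ha i
  unfold Rc Sc
  split_ifs
  · rw [bs_succ]; linear_combination (a i) * h
  · rw [bs_succ]; linear_combination (a i) * h

theorem Rc_unit {γ : ℂ} (hγ : γ * star γ = 1) {a : ℕ → ℂ} (ha : ∀ i, a i * star (a i) = 1)
    (i : ℕ) : Rc γ a i * star (Rc γ a i) = 1 := by
  unfold Rc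
  split_ifs
  · exact bs_unit hγ ha _
  · rw [star_star, mul_comm]; exact bs_unit hγ ha _

theorem Sc_unit {γ : ℂ} (hγ : γ * star γ = 1) {a : ℕ → ℂ} (ha : ∀ i, a i * star (a i) = 1)
    (i : ℕ) : Sc γ a i * star (Sc γ a i) = 1 := by
  unfold Sc
  split_ifs
  · rw [star_star, mul_comm]; exact bs_unit hγ ha _
  · exact bs_unit hγ ha _

theorem prod_Rc_even (γ : ℂ) (a : ℕ → ℂ) (q : ℕ) :
    ∏ i ∈ Finset.range (2 * q), (X - C (Rc γ a i)) =
      ∏ j ∈ Finset.range q, ((X - C (bs γ a (2 * j + 1))) * (X - C (star (bs γ a (2 * j + 1))))) := by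
  induction q with
  | zero => simp
  | succ q ih =>
    rw [show 2 * (q + 1) = 2 * q + 1 + 1 by ring, Finset.prod_range_succ, Finset.prod_range_succ,
      Finset.prod_range_succ, ih]
    have h1 : Rc γ a (2 * q) = bs γ a (2 * q + 1) := by
      unfold Rc; rw [if_pos (even_two_mul q)]
    have h2 : Rc γ a (2 * q + 1) = star (bs γ a (2 * q + 1)) := by
      unfold Rc; rw [if_neg]; simp
    rw [h1, h2, mul_assoc]

theorem prod_Sc_odd (γ : ℂ) (a : ℕ → ℂ) (q : ℕ) :
    ∏ i ∈ Finset.range (2 * q + 1), (X - C (Sc γ a i)) =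
      (X - C (star γ)) * ∏ j ∈ Finset.range q,
        ((X - C (bs γ a (2 * (j + 1)))) * (X - C (star (bs γ a (2 * (j + 1)))))) := by
  induction q with
  | zero => simp [Sc, bs_zero]
  | succ q ih =>
    rw [show 2 * (q + 1) + 1 = 2 * q + 1 + 1 + 1 by ring, Finset.prod_range_succ,
      Finset.prod_range_succ, Finset.prod_range_succ _ q, ih]
    have h1 : Sc γ a (2 * q + 1) = bs γ a (2 * (q + 1)) := by
      unfold Sc; rw [if_neg (by simp)]; rfl
    have h2 : Sc γ a (2 * q + 1 + 1) = star (bs γ a (2 * (q + 1))) := by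
      unfold Sc; rw [if_pos]
      · rfl
      · exact ⟨q + 1, by ring⟩
    rw [h1, h2]; ring

theorem diagonal_unitary {ι : Type*} [Fintype ι] [DecidableEq ι] {d : ι → ℂ}
    (hd : ∀ i, d i * star (d i) = 1) : diagonal d ∈ unitaryGroup ι ℂ := by
  rw [mem_unitaryGroup_iff, star_eq_conjTranspose, diagonal_conjTranspose, diagonal_mul_diagonal]
  ext i j
  by_cases hij : i = j
  · subst hij
    rw [diagonal_apply_eq, one_apply_eq]; exact hd i
  · rw [diagonal_apply_ne _ hij, one_apply_ne hij]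

theorem charpoly_diag_range (n : ℕ) (f : ℕ → ℂ) :
    (diagonal (fun i : Fin n => f i)).charpoly = ∏ i ∈ Finset.range n, (X - C (f i)) := by
  rw [charpoly_diagonal]
  exact Fin.prod_univ_eq_prod_range (fun i => (X - C (f i))) n

/-- Odd dimension. -/
theorem isP4_odd (q : ℕ) (a : ℕ → ℂ) (ha : ∀ i, a i * star (a i) = 1)
    (hprod : ∏ i ∈ Finset.range (2 * q + 1), a i = 1) :
    IsP4 (diagonal (fun i : Fin (2 * q + 1) => a i)) := by
  have h1 : (1 : ℂ) * star (1 : ℂ) = 1 := by simp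
  have hs : ((-1 : ℂ) ^ q = 1 ∨ (-1 : ℂ) ^ q = -1) := neg_one_pow_eq_or ℂ q
  have hsq : (-1 : ℂ) ^ q * (-1) ^ q = 1 := by rw [← mul_pow]; norm_num
  refine ⟨diagonal (fun i : Fin (2 * q + 1) => Rc 1 a i), diagonal (fun i : Fin (2 * q + 1) => Sc 1 a i),
    ?_, ?_, ?_⟩
  · apply GoodPoly.isP2 (diagonal_unitary fun i => Rc_unit h1 ha _)
    rw [charpoly_diag_range _ (Rc 1 a), Finset.prod_range_succ, prod_Rc_even]
    have h2 : Rc 1 a (2 * q) = 1 := by
      unfold Rc bs; rw [if_pos (even_two_mul q), hprod, one_mul]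
    rw [h2]
    have := (goodPoly_prod (Finset.range q) (fun j => bs 1 a (2 * j + 1))
      (fun j _ => bs_unit h1 ha _)).mul (goodPoly_X_sub_one hs)
    rwa [Finset.card_range, hsq] at this
  · apply GoodPoly.isP2 (diagonal_unitary fun i => Sc_unit h1 ha _)
    rw [charpoly_diag_range _ (Sc 1 a), prod_Sc_odd, star_one, mul_comm]
    have := (goodPoly_prod (Finset.range q) (fun j => bs 1 a (2 * (j + 1)))
      (fun j _ => bs_unit h1 ha _)).mul (goodPoly_X_sub_one hs)
    rwa [Finset.card_range, hsq] at this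
  · rw [diagonal_mul_diagonal]
    congr 1
    funext i
    exact (Rc_mul_Sc h1 ha _).symm

/-- Dimension divisible by four. -/
theorem isP4_four (m : ℕ) (hm : Even (m + 1)) (a : ℕ → ℂ) (ha : ∀ i, a i * star (a i) = 1)
    (hprod : ∏ i ∈ Finset.range (2 * (m + 1)), a i = 1) :
    IsP4 (diagonal (fun i : Fin (2 * (m + 1)) => a i)) := by
  have h1 : (1 : ℂ) * star (1 : ℂ) = 1 := by simp
  refine ⟨diagonal (fun i : Fin (2 * (m + 1)) => Rc 1 a i),
    diagonal (fun i : Fin (2 * (m + 1)) => Sc 1 a i), ?_, ?_, ?_⟩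
  · apply GoodPoly.isP2 (diagonal_unitary fun i => Rc_unit h1 ha _)
    rw [charpoly_diag_range _ (Rc 1 a), prod_Rc_even]
    have := goodPoly_prod (Finset.range (m + 1)) (fun j => bs 1 a (2 * j + 1))
      (fun j _ => bs_unit h1 ha _)
    rwa [Finset.card_range, hm.neg_one_pow] at this
  · apply GoodPoly.isP2 (diagonal_unitary fun i => Sc_unit h1 ha _)
    rw [charpoly_diag_range _ (Sc 1 a), show 2 * (m + 1) = 2 * m + 1 + 1 by ring,
      Finset.prod_range_succ, prod_Sc_odd]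
    have h2 : Sc 1 a (2 * m + 1) = 1 := by
      have : bs 1 a (2 * (m + 1)) = 1 := by unfold bs; rw [hprod, one_mul]
      unfold Sc; rw [if_neg (by simp)]; exact this
    rw [h2]
    have h3 := (goodPoly_prod (Finset.range m) (fun j => bs 1 a (2 * (j + 1)))
      (fun j _ => bs_unit h1 ha _)).mul (goodPoly_pair h1)
    rw [Finset.card_range, ← pow_succ, hm.neg_one_pow] at h3
    convert h3 using 1
    ring
  · rw [diagonal_mul_diagonal]
    congr 1
    funext i
    exact (Rc_mul_Sc h1 ha _).symm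

/-- Dimension `2 q + 4` with `q` odd. -/
theorem isP4_special (q : ℕ) (hq : Odd q) (a : ℕ → ℂ) (ha : ∀ i, a i * star (a i) = 1)
    (α β ζ ν : ℝ) (hprod : (∏ i ∈ Finset.range (2 * q + 1), a i) * (E α * E β * E ζ) = 1)
    (j0 : ℕ) (hj0 : j0 ≤ q)
    (hj : bs (E ν) a (2 * j0) = 1 ∨ bs (E ν) a (2 * j0) = -1)
    (hsep : (Real.sin ((-ζ - α) / 2) * Real.sin ((ν - α) / 2)) *
      (Real.sin ((-ζ - β) / 2) * Real.sin ((ν - β) / 2)) ≤ 0) :
    IsP4 (diagonal (Sum.elim (fun i : Fin (2 * q + 1) => a i)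
      (Sum.elim ![E α, E β] (fun _ : Fin 1 => E ζ)))) := by
  have hγ : E ν * star (E ν) = 1 := E_mul_star ν
  obtain ⟨R', S', hR', hS', hRS, hcR, hcS⟩ := block_two α β (-ζ) ν hsep
  have hR'' : fromBlocks R' 0 0 (diagonal fun _ : Fin 1 => (1 : ℂ)) ∈
      unitaryGroup (Fin 2 ⊕ Fin 1) ℂ :=
    fromBlocks_mem_unitary hR' (diagonal_unitary fun i => by simp)
  have hS'' : fromBlocks S' 0 0 (diagonal fun _ : Fin 1 => E ζ) ∈
      unitaryGroup (Fin 2 ⊕ Fin 1) ℂ :=
    fromBlocks_mem_unitary hS' (diagonal_unitary fun i => E_mul_star ζ)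
  refine ⟨fromBlocks (diagonal (fun i : Fin (2 * q + 1) => Rc (E ν) a i)) 0 0
      (fromBlocks R' 0 0 (diagonal fun _ : Fin 1 => (1 : ℂ))),
    fromBlocks (diagonal (fun i : Fin (2 * q + 1) => Sc (E ν) a i)) 0 0
      (fromBlocks S' 0 0 (diagonal fun _ : Fin 1 => E ζ)), ?_, ?_, ?_⟩
  · apply GoodPoly.isP2 (fromBlocks_mem_unitary (diagonal_unitary fun i => Rc_unit hγ ha _) hR'')
    rw [charpoly_fromBlocks_zero₁₂, charpoly_fromBlocks_zero₁₂, charpoly_diag_range _ (Rc (E ν) a),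
      charpoly_diagonal, hcR, Finset.prod_range_succ, prod_Rc_even]
    have h2 : Rc (E ν) a (2 * q) = bs (E ν) a (2 * q + 1) := by
      unfold Rc; rw [if_pos (even_two_mul q)]
    have h3 : E (α + β - -ζ - ν) = star (bs (E ν) a (2 * q + 1)) := by
      have h4 : E α * E β * E ζ = E (α + β + ζ) := by rw [E_add, E_add]
      rw [h4] at hprod
      have h5 : bs (E ν) a (2 * q + 1) * E (α + β + ζ) = E ν := by
        unfold bs; rw [mul_assoc, hprod, mul_one]
      have h6' : ∀ B : ℂ, B * E (α + β + ζ) = E ν → B = E (ν - (α + β + ζ)) := by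
        intro B hB
        rw [E_sub, ← hB, mul_assoc, E_mul_star, mul_one]
      have h6 := h6' _ h5
      rw [h6, ← E_neg]; congr 1; ring
    rw [h2, h3]
    have h7 := (goodPoly_prod (Finset.range (q + 1)) (fun j => bs (E ν) a (2 * j + 1))
      (fun j _ => bs_unit hγ ha _)).mul (goodPoly_sq (e := 1) (Or.inl rfl))
    rw [Finset.card_range, hq.add_one.neg_one_pow, one_mul, Finset.prod_range_succ] at h7
    convert h7 using 1
    simp only [Finset.univ_unique, Finset.prod_singleton]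
    ring
  · apply GoodPoly.isP2 (fromBlocks_mem_unitary (diagonal_unitary fun i => Sc_unit hγ ha _) hS'')
    rw [charpoly_fromBlocks_zero₁₂, charpoly_fromBlocks_zero₁₂, charpoly_diag_range _ (Sc (E ν) a),
      charpoly_diagonal, hcS, prod_Sc_odd, E_neg]
    -- pairs `bs (2 j)`, `j ≤ q`
    have h8 : (X - C (star (E ν))) * (∏ j ∈ Finset.range q,
        ((X - C (bs (E ν) a (2 * (j + 1)))) * (X - C (star (bs (E ν) a (2 * (j + 1))))))) *
        (X - C (E ν)) = ∏ j ∈ Finset.range (q + 1),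
        ((X - C (bs (E ν) a (2 * j))) * (X - C (star (bs (E ν) a (2 * j))))) := by
      rw [Finset.prod_range_succ', mul_zero, bs_zero]; ring
    have h9 : ∏ j ∈ Finset.range (q + 1),
        ((X - C (bs (E ν) a (2 * j))) * (X - C (star (bs (E ν) a (2 * j))))) =
        ((X - C (bs (E ν) a (2 * j0))) * (X - C (star (bs (E ν) a (2 * j0))))) *
        ∏ j ∈ (Finset.range (q + 1)).erase j0,
        ((X - C (bs (E ν) a (2 * j))) * (X - C (star (bs (E ν) a (2 * j))))) :=
      (Finset.mul_prod_erase _ _ (Finset.mem_range.mpr (by omega))).symm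
    have h10 : star (bs (E ν) a (2 * j0)) = bs (E ν) a (2 * j0) := by
      rcases hj with h | h <;> rw [h] <;> simp
    rw [h10] at h9
    have hcard : ((Finset.range (q + 1)).erase j0).card = q := by
      rw [Finset.card_erase_of_mem (Finset.mem_range.mpr (by omega)), Finset.card_range]; rfl
    have h11 := ((goodPoly_sq hj).mul (goodPoly_prod ((Finset.range (q + 1)).erase j0)
      (fun j => bs (E ν) a (2 * j)) (fun j _ => bs_unit hγ ha _))).mul (goodPoly_pair (E_mul_star ζ))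
    rw [hcard, hq.neg_one_pow, ← h9, ← h8] at h11
    have h12 : (1 : ℂ) * -1 * -1 = 1 := by norm_num
    rw [h12] at h11
    convert h11 using 1
    simp only [Finset.univ_unique, Finset.prod_singleton]
    ring
  · rw [fromBlocks_multiply, fromBlocks_multiply]
    simp only [Matrix.mul_zero, Matrix.zero_mul, add_zero, zero_add, hRS, diagonal_mul_diagonal,
      fromBlocks_diagonal, one_mul, Rc_mul_Sc hγ ha]

end Pool.Agent.H85
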