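import Pool.Agent.H85.SUChain

set_option autoImplicit false

namespace Pool.Agent.H85

theorem prod_getD {M : Type*} [CommMonoid M] (g : ℂ → M) (l : List ℂ) :
    ∏ i ∈ Finset.range l.length, g (l.getD i 1) = (l.map g).prod := by
  induction l with
  | nil => simp
  | cons a l ih =>
    rw [List.length_cons, Finset.prod_range_succ', List.map_cons, List.prod_cons, mul_comm]
    congr 1

theorem prod_getD_take (l : List ℂ) (k : ℕ) (hk : k ≤ l.length) :
    ∏ i ∈ Finset.range k, l.getD i 1 = (l.take k).prod := by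
  have h := prod_getD (fun z => z) (l.take k)
  rw [List.length_take, min_eq_left hk, List.map_id'] at h
  rw [← h]
  apply Finset.prod_congr rfl
  intro i hi
  rw [Finset.mem_range] at hi
  rw [List.getD_eq_getElem?_getD, List.getD_eq_getElem?_getD, List.getElem?_take, if_pos hi]

theorem prod_map_E (s : ℝ) (l : List ℝ) : (l.map (fun t => E (s * t))).prod = E (s * l.sum) := by
  induction l with
  | nil => simp [E_zero]
  | cons a l ih => rw [List.map_cons, List.prod_cons, ih, List.sum_cons, mul_add, E_add]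

theorem swap_aux (c : ℝ) : ∀ (u v p : List ℝ), u.length = v.length → p.sum + u.sum < c →
    c ≤ p.sum + v.sum → ∃ (M R : List ℝ) (x y : ℝ), (p ++ u ++ v).Perm (M ++ R ++ [x, y]) ∧
      M.length + 1 = p.length + u.length ∧ M.sum + x ≤ c ∧ c ≤ M.sum + y := by
  intro u
  induction u with
  | nil =>
    intro v p h1 h2 h3
    have : v = [] := List.length_eq_zero_iff.mp h1.symm
    subst this
    linarith
  | cons x u ih =>
    intro v p h1 h2 h3
    rcases v with _ | ⟨y, v⟩
    · simp at h1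
    · have h1' : u.length = v.length := by simpa using h1
      rw [List.sum_cons] at h2 h3
      by_cases hc : c ≤ (p.sum + y) + u.sum
      · refine ⟨p ++ u, v, x, y, ?_, ?_, ?_, ?_⟩
        · rw [List.perm_iff_count]; intro a
          simp only [List.count_append, List.count_cons, List.count_nil]
          omega
        · simp [add_assoc]
        · rw [List.sum_append]; linarith
        · rw [List.sum_append]; linarith
      · push Not at hc
        obtain ⟨M, R, x0, y0, hp, hl, hx, hy⟩ := ih v (p ++ [y]) h1'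
          (by rw [List.sum_append, List.sum_singleton]; exact hc)
          (by rw [List.sum_append, List.sum_singleton]; linarith)
        refine ⟨M, x :: R, x0, y0, ?_, ?_, hx, hy⟩
        · rw [List.perm_iff_count] at hp ⊢; intro a
          have := hp a
          simp only [List.count_append, List.count_cons, List.count_nil] at this ⊢
          omega
        · rw [hl]; simp; ring

theorem swap_main (L : List ℝ) (m : ℕ) (hm : 1 ≤ m) (hL : L.length = 2 * m) (c : ℝ)
    (hc : L.sum = 2 * c) : ∃ (M R : List ℝ) (x y : ℝ), L.Perm (M ++ R ++ [x, y]) ∧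
      M.length + 1 = m ∧ (c - M.sum - x) * (c - M.sum - y) ≤ 0 := by
  have hsplit : L = L.take m ++ L.drop m := (List.take_append_drop m L).symm
  have h1 : (L.take m).length = m := by rw [List.length_take]; omega
  have h2 : (L.drop m).length = m := by rw [List.length_drop]; omega
  have hsum : (L.take m).sum + (L.drop m).sum = 2 * c := by
    rw [← List.sum_append, ← hsplit, hc]
  rcases lt_trichotomy (L.take m).sum c with h | h | h
  · obtain ⟨M, R, x, y, hp, hl, hx, hy⟩ := swap_aux c (L.take m) (L.drop m) [] (by rw [h1, h2])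
      (by simpa using h) (by rw [List.sum_nil, zero_add]; linarith)
    refine ⟨M, R, x, y, ?_, ?_, ?_⟩
    · rw [List.nil_append, ← hsplit] at hp; exact hp
    · rw [hl, h1]; simp
    · apply mul_nonpos_of_nonneg_of_nonpos <;> linarith
  · obtain ⟨x, u, hu⟩ : ∃ x u, L.take m = x :: u := by
      rcases hh : L.take m with _ | ⟨x, u⟩
      · rw [hh] at h1; simp at h1; omega
      · exact ⟨x, u, rfl⟩
    obtain ⟨y, v, hv⟩ : ∃ y v, L.drop m = y :: v := by
      rcases hh : L.drop m with _ | ⟨x, u⟩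
      · rw [hh] at h2; simp at h2; omega
      · exact ⟨x, u, rfl⟩
    refine ⟨u, v, x, y, ?_, ?_, ?_⟩
    · rw [hsplit, hu, hv, List.perm_iff_count]; intro a
      simp only [List.count_append, List.count_cons, List.count_nil]
      omega
    · rw [hu] at h1; simpa using h1
    · have : c - u.sum - x = 0 := by rw [hu, List.sum_cons] at h; linarith
      rw [this, zero_mul]
  · obtain ⟨M, R, x, y, hp, hl, hx, hy⟩ := swap_aux c (L.drop m) (L.take m) [] (by rw [h1, h2])
      (by rw [List.sum_nil, zero_add]; linarith) (by rw [List.sum_nil, zero_add]; linarith)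
    refine ⟨M, R, x, y, ?_, ?_, ?_⟩
    · rw [List.nil_append] at hp
      have h3 : L.Perm (L.drop m ++ L.take m) := by
        conv_lhs => rw [hsplit]
        exact List.perm_append_comm
      exact h3.trans hp
    · rw [hl, h2]; simp
    · apply mul_nonpos_of_nonneg_of_nonpos <;> linarith

/-- The separation condition. -/
def Sep (α β ζ ν : ℝ) : Prop :=
  (Real.sin ((-ζ - α) / 2) * Real.sin ((ν - α) / 2)) *
      (Real.sin ((-ζ - β) / 2) * Real.sin ((ν - β) / 2)) ≤ 0

theorem sep_of_between {x y z w : ℝ} (hx : 0 < x) (hx' : x < Real.pi) (hy : 0 < y)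
    (hy' : y < Real.pi) (hz : 0 < z) (hz' : z < Real.pi) (h : (w - x) * (w - y) ≤ 0)
    {s : ℝ} (hs : s = 1 ∨ s = -1) : Sep (s * x) (s * y) (s * z) (s * w) := by
  have h1 : 0 ≤ Real.sin ((z + x) / 2) :=
    Real.sin_nonneg_of_nonneg_of_le_pi (by linarith) (by linarith)
  have h2 : 0 ≤ Real.sin ((z + y) / 2) :=
    Real.sin_nonneg_of_nonneg_of_le_pi (by linarith) (by linarith)
  have h3 : Real.sin ((w - x) / 2) * Real.sin ((w - y) / 2) ≤ 0 := by
    rcases mul_nonpos_iff.mp h with ⟨ha, hb⟩ | ⟨ha, hb⟩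
    · apply mul_nonpos_of_nonneg_of_nonpos
      · exact Real.sin_nonneg_of_nonneg_of_le_pi (by linarith) (by linarith)
      · exact Real.sin_nonpos_of_nonpos_of_neg_pi_le (by linarith) (by linarith)
    · apply mul_nonpos_of_nonpos_of_nonneg
      · exact Real.sin_nonpos_of_nonpos_of_neg_pi_le (by linarith) (by linarith)
      · exact Real.sin_nonneg_of_nonneg_of_le_pi (by linarith) (by linarith)
  have h4 : Sep (s * x) (s * y) (s * z) (s * w) ↔
      Real.sin ((z + x) / 2) * Real.sin ((z + y) / 2) *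
        (Real.sin ((w - x) / 2) * Real.sin ((w - y) / 2)) ≤ 0 := by
    unfold Sep
    rcases hs with rfl | rfl
    · have e1 : (-(1 * z) - 1 * x) / 2 = -((z + x) / 2) := by ring
      have e2 : (-(1 * z) - 1 * y) / 2 = -((z + y) / 2) := by ring
      have e3 : (1 * w - 1 * x) / 2 = (w - x) / 2 := by ring
      have e4 : (1 * w - 1 * y) / 2 = (w - y) / 2 := by ring
      rw [e1, e2, e3, e4, Real.sin_neg, Real.sin_neg]
      constructor <;> intro h <;> linarith
    · have e1 : (-(-1 * z) - -1 * x) / 2 = ((z + x) / 2) := by ring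
      have e2 : (-(-1 * z) - -1 * y) / 2 = ((z + y) / 2) := by ring
      have e3 : (-1 * w - -1 * x) / 2 = -((w - x) / 2) := by ring
      have e4 : (-1 * w - -1 * y) / 2 = -((w - y) / 2) := by ring
      rw [e1, e2, e3, e4, Real.sin_neg, Real.sin_neg]
      constructor <;> intro h <;> linarith
  rw [h4]
  exact mul_nonpos_of_nonneg_of_nonpos (mul_nonneg h1 h2) h3

theorem sep_zero {α β ζ : ℝ} (h1 : 0 ≤ α) (h1' : α ≤ Real.pi) (h2 : β ≤ 0) (h2' : -Real.pi ≤ β)
    (h3 : -Real.pi ≤ ζ) (h3' : ζ ≤ Real.pi) (h4 : α ≤ |ζ|) (h5 : -β ≤ |ζ|) : Sep α β ζ 0 := by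
  unfold Sep
  have hsα : Real.sin ((0 - α) / 2) ≤ 0 :=
    Real.sin_nonpos_of_nonpos_of_neg_pi_le (by linarith) (by linarith)
  have hsβ : 0 ≤ Real.sin ((0 - β) / 2) :=
    Real.sin_nonneg_of_nonneg_of_le_pi (by linarith) (by linarith)
  rcases le_total 0 ζ with hζ | hζ
  · rw [abs_of_nonneg hζ] at h4 h5
    have a1 : Real.sin ((-ζ - α) / 2) ≤ 0 :=
      Real.sin_nonpos_of_nonpos_of_neg_pi_le (by linarith) (by linarith)
    have a2 : Real.sin ((-ζ - β) / 2) ≤ 0 :=
      Real.sin_nonpos_of_nonpos_of_neg_pi_le (by linarith) (by linarith)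
    exact mul_nonpos_of_nonneg_of_nonpos (mul_nonneg_of_nonpos_of_nonpos a1 hsα)
      (mul_nonpos_of_nonpos_of_nonneg a2 hsβ)
  · rw [abs_of_nonpos hζ] at h4 h5
    have a1 : 0 ≤ Real.sin ((-ζ - α) / 2) :=
      Real.sin_nonneg_of_nonneg_of_le_pi (by linarith) (by linarith)
    have a2 : 0 ≤ Real.sin ((-ζ - β) / 2) :=
      Real.sin_nonneg_of_nonneg_of_le_pi (by linarith) (by linarith)
    exact mul_nonpos_of_nonpos_of_nonneg (mul_nonpos_of_nonneg_of_nonpos a1 hsα)
      (mul_nonneg a2 hsβ)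

theorem sep_pi {α β ζ : ℝ} (h1 : 0 ≤ α) (h1' : α ≤ Real.pi) (h2 : β ≤ 0) (h2' : -Real.pi ≤ β)
    (h4 : |ζ| ≤ α) (h5 : |ζ| ≤ -β) : Sep α β ζ Real.pi := by
  unfold Sep
  have h6 := abs_le.mp h4
  have h7 := abs_le.mp h5
  have hsα : 0 ≤ Real.sin ((Real.pi - α) / 2) :=
    Real.sin_nonneg_of_nonneg_of_le_pi (by linarith) (by linarith)
  have hsβ : 0 ≤ Real.sin ((Real.pi - β) / 2) :=
    Real.sin_nonneg_of_nonneg_of_le_pi (by linarith [Real.pi_pos]) (by linarith)
  have a1 : Real.sin ((-ζ - α) / 2) ≤ 0 :=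
    Real.sin_nonpos_of_nonpos_of_neg_pi_le (by linarith) (by linarith)
  have a2 : 0 ≤ Real.sin ((-ζ - β) / 2) :=
    Real.sin_nonneg_of_nonneg_of_le_pi (by linarith) (by linarith)
  exact mul_nonpos_of_nonpos_of_nonneg (mul_nonpos_of_nonpos_of_nonneg a1 hsα) (mul_nonneg a2 hsβ)

theorem exists_E {z : ℂ} (hz : z * star z = 1) : z = E (Complex.arg z) := by
  have h1 : ‖z‖ = 1 := by
    rw [Complex.star_def, Complex.mul_conj] at hz
    have : Complex.normSq z = 1 := by exact_mod_cast hz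
    rw [Complex.normSq_eq_norm_sq] at this
    have h2 : 0 ≤ ‖z‖ := norm_nonneg z
    nlinarith
  have := Complex.norm_mul_exp_arg_mul_I z
  rw [h1, Complex.ofReal_one, one_mul] at this
  exact this.symm

theorem E_neg_pi : E (-Real.pi) = E Real.pi := by
  rw [E_neg, E_pi]; simp

def inU (z : ℂ) : Prop := ∃ α : ℝ, 0 ≤ α ∧ α ≤ Real.pi ∧ z = E α
def inD (z : ℂ) : Prop := ∃ β : ℝ, -Real.pi ≤ β ∧ β ≤ 0 ∧ z = E β

theorem three_lemma {z1 z2 z3 : ℂ} (h1 : inU z1) (h2 : inD z2) (h3 : inU z3 ∨ inD z3) :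
    ∃ α β ζ ν : ℝ, [z1, z2, z3].Perm [E α, E β, E ζ] ∧ (ν = 0 ∨ ν = Real.pi) ∧ Sep α β ζ ν := by
  obtain ⟨a1, ha1, ha1', rfl⟩ := h1
  obtain ⟨b2, hb2, hb2', rfl⟩ := h2
  rcases h3 with ⟨a3, ha3, ha3', rfl⟩ | ⟨b3, hb3, hb3', rfl⟩
  · rcases le_total a1 a3 with h13 | h13
    · rcases le_total (-b2) a3 with h23 | h23
      · refine ⟨a1, b2, a3, 0, List.Perm.refl _, Or.inl rfl, ?_⟩
        apply sep_zero ha1 ha1' hb2' hb2 (by linarith) ha3' <;> rw [abs_of_nonneg ha3] <;> linarith
      · refine ⟨a3, b2, a1, Real.pi, ?_, Or.inr rfl, ?_⟩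
        · rw [List.perm_iff_count]; intro a
          simp only [List.count_cons, List.count_nil]; omega
        · apply sep_pi ha3 ha3' hb2' hb2 <;> rw [abs_of_nonneg ha1] <;> linarith
    · rcases le_total (-b2) a1 with h23 | h23
      · refine ⟨a3, b2, a1, 0, ?_, Or.inl rfl, ?_⟩
        · rw [List.perm_iff_count]; intro a
          simp only [List.count_cons, List.count_nil]; omega
        · apply sep_zero ha3 ha3' hb2' hb2 (by linarith) ha1' <;> rw [abs_of_nonneg ha1] <;> linarith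
      · refine ⟨a1, b2, a3, Real.pi, List.Perm.refl _, Or.inr rfl, ?_⟩
        apply sep_pi ha1 ha1' hb2' hb2 <;> rw [abs_of_nonneg ha3] <;> linarith
  · rcases le_total b2 b3 with h13 | h13
    · -- `b2 ≤ b3 ≤ 0`
      rcases le_total a1 (-b2) with h23 | h23
      · -- `b2` has the largest absolute value
        refine ⟨a1, b3, b2, 0, ?_, Or.inl rfl, ?_⟩
        · rw [List.perm_iff_count]; intro a
          simp only [List.count_cons, List.count_nil]; omega
        · apply sep_zero ha1 ha1' hb3' hb3 hb2 (by linarith) <;> rw [abs_of_nonpos hb2'] <;> linarith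
      · refine ⟨a1, b2, b3, Real.pi, List.Perm.refl _, Or.inr rfl, ?_⟩
        apply sep_pi ha1 ha1' hb2' hb2 <;> rw [abs_of_nonpos hb3'] <;> linarith
    · rcases le_total a1 (-b3) with h23 | h23
      · refine ⟨a1, b2, b3, 0, List.Perm.refl _, Or.inl rfl, ?_⟩
        apply sep_zero ha1 ha1' hb2' hb2 hb3 (by linarith) <;> rw [abs_of_nonpos hb3'] <;> linarith
      · refine ⟨a1, b3, b2, Real.pi, ?_, Or.inr rfl, ?_⟩
        · rw [List.perm_iff_count]; intro a
          simp only [List.count_cons, List.count_nil]; omega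
        · apply sep_pi ha1 ha1' hb3' hb3 <;> rw [abs_of_nonpos hb2'] <;> linarith

def opU (z : ℂ) : Prop := ∃ α : ℝ, 0 < α ∧ α < Real.pi ∧ z = E (1 * α)
def opD (z : ℂ) : Prop := ∃ α : ℝ, 0 < α ∧ α < Real.pi ∧ z = E (-1 * α)

theorem inD_of_not_opU {z : ℂ} (hz : z * star z = 1) (h : ¬ opU z) : inD z := by
  have h1 := exists_E hz
  have h2 := Complex.neg_pi_lt_arg z
  have h3 := Complex.arg_le_pi z
  by_cases h4 : Complex.arg z ≤ 0
  · exact ⟨_, h2.le, h4, h1⟩
  · push Not at h4
    rcases h3.lt_or_eq with h5 | h5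
    · exact absurd ⟨_, h4, h5, by rw [one_mul]; exact h1⟩ h
    · exact ⟨-Real.pi, le_refl _, by linarith [Real.pi_pos], by rw [E_neg_pi, ← h5]; exact h1⟩

theorem inU_of_not_opD {z : ℂ} (hz : z * star z = 1) (h : ¬ opD z) : inU z := by
  have h1 := exists_E hz
  have h2 := Complex.neg_pi_lt_arg z
  have h3 := Complex.arg_le_pi z
  by_cases h4 : 0 ≤ Complex.arg z
  · exact ⟨_, h4, h3, h1⟩
  · push Not at h4
    exact absurd ⟨-Complex.arg z, by linarith, by linarith, by
      rw [show (-1 : ℝ) * -Complex.arg z = Complex.arg z by ring]; exact h1⟩ h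

theorem inU_or_inD {z : ℂ} (hz : z * star z = 1) : inU z ∨ inD z := by
  by_cases h : opD z
  · right
    obtain ⟨α, h1, h2, h3⟩ := h
    exact ⟨-α, by linarith, by linarith, by rw [h3]; ring_nf⟩
  · exact Or.inl (inU_of_not_opD hz h)

theorem inD_of_opD {z : ℂ} (h : opD z) : inD z := by
  obtain ⟨α, h1, h2, h3⟩ := h
  exact ⟨-α, by linarith, by linarith, by rw [h3]; ring_nf⟩

theorem case_C (l : List ℂ) (hl : 3 ≤ l.length) (hunit : ∀ z ∈ l, z * star z = 1)
    (hU : ¬ ∀ z ∈ l, opU z) (hD : ¬ ∀ z ∈ l, opD z) :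
    ∃ (V : List ℂ) (α β ζ ν : ℝ), l.Perm (V ++ [E α, E β, E ζ]) ∧ (ν = 0 ∨ ν = Real.pi) ∧
      Sep α β ζ ν := by
  classical
  push Not at hU
  obtain ⟨y, hy, hyU⟩ := hU
  have hyD : inD y := inD_of_not_opU (hunit y hy) hyU
  have hp1 : l.Perm (y :: l.erase y) := List.perm_cons_erase hy
  have hmem1 : ∀ z ∈ l.erase y, z ∈ l := fun z hz => List.mem_of_mem_erase hz
  have hlen1 : (l.erase y).length + 1 = l.length := by
    rw [hp1.length_eq]; rfl
  -- find `z1 ∈ U`, `z2 ∈ D`, and the rest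
  obtain ⟨z1, z2, l2, hz1, hz2, hp2⟩ : ∃ (z1 z2 : ℂ) (l2 : List ℂ), inU z1 ∧ inD z2 ∧
      l.Perm (z1 :: z2 :: l2) := by
    by_cases hx : ∃ x ∈ l.erase y, ¬ opD x
    · obtain ⟨x, hx, hxD⟩ := hx
      refine ⟨x, y, (l.erase y).erase x, inU_of_not_opD (hunit x (hmem1 x hx)) hxD, hyD, ?_⟩
      have hp3 : (l.erase y).Perm (x :: (l.erase y).erase x) := List.perm_cons_erase hx
      exact (hp1.trans (hp3.cons y)).trans (List.Perm.swap _ _ _)
    · push Not at hx
      have hyU' : inU y := by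
        apply inU_of_not_opD (hunit y hy)
        intro hyo
        apply hD
        intro z hz
        rcases List.mem_cons.mp (hp1.mem_iff.mp hz) with rfl | h
        · exact hyo
        · exact hx z h
      obtain ⟨x, l2, hl2⟩ : ∃ x l2, l.erase y = x :: l2 := by
        rcases hh : l.erase y with _ | ⟨x, l2⟩
        · rw [hh] at hlen1; simp at hlen1; omega
        · exact ⟨x, l2, rfl⟩
      refine ⟨y, x, l2, hyU', inD_of_opD (hx x (by rw [hl2]; simp)), ?_⟩
      rw [← hl2]; exact hp1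
  obtain ⟨z3, V, hV⟩ : ∃ z3 V, l2 = z3 :: V := by
    rcases hh : l2 with _ | ⟨x, V⟩
    · rw [hh] at hp2
      have := hp2.length_eq
      simp at this; omega
    · exact ⟨x, V, rfl⟩
  subst hV
  have hz3 : z3 * star z3 = 1 := hunit z3 (hp2.mem_iff.mpr (by simp))
  obtain ⟨α, β, ζ, ν, hp, hν, hs⟩ := three_lemma hz1 hz2 (inU_or_inD hz3)
  refine ⟨V, α, β, ζ, ν, ?_, hν, hs⟩
  have h5 : (z1 :: z2 :: z3 :: V) = [z1, z2, z3] ++ V := rfl
  rw [h5] at hp2
  exact hp2.trans ((hp.append_right V).trans List.perm_append_comm)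

theorem case_AB (l : List ℂ) (q : ℕ) (hq : 1 ≤ q) (hl : l.length = 2 * q + 4)
    (hprod : l.prod = 1) {s : ℝ} (hs : s = 1 ∨ s = -1)
    (h : ∀ z ∈ l, ∃ α : ℝ, 0 < α ∧ α < Real.pi ∧ z = E (s * α)) :
    ∃ (M V : List ℂ) (α β ζ ν : ℝ), l.Perm (M ++ V ++ [E α, E β, E ζ]) ∧
      M.length = q + 1 ∧ (E ν * M.prod = 1 ∨ E ν * M.prod = -1) ∧ Sep α β ζ ν := by
  -- lift to a list of angles
  obtain ⟨L, hL, hLl⟩ : ∃ L : List ℝ, (∀ t ∈ L, 0 < t ∧ t < Real.pi) ∧ L.map (fun t => E (s * t)) = l := by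
    clear hl hprod
    induction l with
    | nil => exact ⟨[], by simp, rfl⟩
    | cons a l ih =>
      obtain ⟨L, hL, hLl⟩ := ih (fun z hz => h z (List.mem_cons_of_mem _ hz))
      obtain ⟨α, h1, h2, h3⟩ := h a (by simp)
      refine ⟨α :: L, ?_, ?_⟩
      · intro t ht
        rcases List.mem_cons.mp ht with rfl | ht
        · exact ⟨h1, h2⟩
        · exact hL t ht
      · rw [List.map_cons, hLl, h3]
  have hLlen : L.length = 2 * (q + 2) := by
    rw [← hLl, List.length_map] at hl; omega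
  rw [← hLl, prod_map_E] at hprod
  obtain ⟨k, hk⟩ : ∃ k : ℤ, L.sum = 2 * (k * Real.pi) := by
    unfold E at hprod
    rw [Complex.exp_eq_one_iff] at hprod
    obtain ⟨k, hk⟩ := hprod
    have h1 : ((s * L.sum : ℝ) : ℂ) = ((k * (2 * Real.pi) : ℝ) : ℂ) := by
      have hI : Complex.I ≠ 0 := Complex.I_ne_zero
      apply mul_right_cancel₀ hI
      rw [hk]; push_cast; ring
    have h2 : s * L.sum = k * (2 * Real.pi) := by exact_mod_cast h1
    rcases hs with rfl | rfl
    · exact ⟨k, by linarith⟩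
    · exact ⟨-k, by push_cast; linarith⟩
  obtain ⟨M, R, x, y, hp, hMl, hsep⟩ := swap_main L (q + 2) (by omega) hLlen (k * Real.pi) hk
  have hlen := hp.length_eq
  rw [List.length_append, List.length_append, hLlen] at hlen
  obtain ⟨z, R', hR⟩ : ∃ z R', R = z :: R' := by
    rcases hh : R with _ | ⟨z, R'⟩
    · rw [hh] at hlen; simp at hlen; omega
    · exact ⟨z, R', rfl⟩
  subst hR
  have hx := hL x (hp.mem_iff.mpr (by simp))
  have hy := hL y (hp.mem_iff.mpr (by simp))
  have hz := hL z (hp.mem_iff.mpr (by simp))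
  refine ⟨M.map (fun t => E (s * t)), R'.map (fun t => E (s * t)), s * x, s * y, s * z,
    s * (k * Real.pi - M.sum), ?_, ?_, ?_, ?_⟩
  · rw [← hLl]
    have h1 : L.Perm (M ++ R' ++ [x, y, z]) := by
      refine hp.trans ?_
      rw [List.perm_iff_count]; intro a
      simp only [List.count_append, List.count_cons, List.count_nil]
      omega
    have h2 := h1.map (fun t => E (s * t))
    simpa [List.map_append] using h2
  · rw [List.length_map]; omega
  · rw [prod_map_E, ← E_add]
    have h1 : s * (k * Real.pi - M.sum) + s * M.sum = s * (k * Real.pi) := by ring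
    rw [h1]
    have h2 : ∀ k : ℤ, E (k * Real.pi) = 1 ∨ E (k * Real.pi) = -1 := by
      intro k
      have h3 : E (k * Real.pi) = (-1) ^ k := by
        unfold E
        rw [← Complex.exp_pi_mul_I, ← Complex.exp_int_mul]
        push_cast; ring_nf
      rw [h3]
      rcases Int.even_or_odd k with hk | hk
      · left; exact hk.neg_one_zpow
      · right; exact hk.neg_one_zpow
    rcases hs with rfl | rfl
    · rw [one_mul]; exact h2 k
    · have := h2 (-k)
      push_cast at this
      rw [show (-1 : ℝ) * (k * Real.pi) = -k * Real.pi by ring]; exact this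
  · exact sep_of_between hx.1 hx.2 hy.1 hy.2 hz.1 hz.2 hsep hs

end Pool.Agent.H85
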