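import Pool.Agent.H85.SUBasic

set_option autoImplicit false

namespace Pool.Agent.H85

open Matrix Polynomial

variable {ι κ : Type*} [Fintype ι] [DecidableEq ι] [Fintype κ] [DecidableEq κ]

theorem transfer {A : Matrix ι ι ℂ} (hA : A ∈ unitaryGroup ι ℂ) (d' : κ → ℂ)
    (h : A.charpoly = ∏ j, (X - C (d' j))) :
    ∃ (e : κ ≃ ι) (U : Matrix ι ι ℂ), U ∈ unitaryGroup ι ℂ ∧
      A = U * (Matrix.reindex e e (diagonal d')) * star U := by
  obtain ⟨U, hU, d, rfl⟩ := unitary_diag hA
  have hU1 : star U * U = 1 := mem_unitaryGroup_iff'.mp hU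
  have h1 : (U * diagonal d * star U).charpoly = ∏ i, (X - C (d i)) := by
    rw [charpoly_mul_comm, ← mul_assoc, hU1, one_mul, charpoly_diagonal]
  rw [h1] at h
  have h2 : Multiset.map d' Finset.univ.val = Multiset.map d Finset.univ.val := by
    have h3 := congrArg Polynomial.roots h
    rw [Polynomial.roots_prod _ _ (Finset.prod_ne_zero_iff.mpr fun i _ => X_sub_C_ne_zero _),
      Polynomial.roots_prod _ _ (Finset.prod_ne_zero_iff.mpr fun i _ => X_sub_C_ne_zero _)] at h3
    simpa using h3.symm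
  obtain ⟨e, he⟩ := exists_equiv_of_map_eq d' d h2
  refine ⟨e, U, hU, ?_⟩
  congr 2
  ext i j
  rw [reindex_apply, submatrix_apply, diagonal_apply, diagonal_apply]
  by_cases hij : i = j
  · subst hij; simp [he]
  · rw [if_neg hij, if_neg (fun h => hij (e.symm.injective h))]

theorem IsP4.transfer {A : Matrix ι ι ℂ} (hA : A ∈ unitaryGroup ι ℂ) (d' : κ → ℂ)
    (h : A.charpoly = ∏ j, (X - C (d' j))) (hd : IsP4 (diagonal d')) : IsP4 A := by
  obtain ⟨e, U, hU, h1⟩ := Pool.Agent.H85.transfer hA d' h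
  rw [h1]
  exact (hd.reindex e).conj hU

/-- product of two unitary involutions of the same determinant `s` -/
def IsQ (s : ℂ) (R : Matrix ι ι ℂ) : Prop :=
  ∃ J K : Matrix ι ι ℂ, J ∈ unitaryGroup ι ℂ ∧ K ∈ unitaryGroup ι ℂ ∧ J.det = s ∧ K.det = s ∧
    J * J = 1 ∧ K * K = 1 ∧ R = J * K

theorem IsQ.isP2 {R : Matrix ι ι ℂ} (h : IsQ 1 R) : IsP2 R := by
  obtain ⟨J, K, hJ, hK, h1, h2, h3, h4, h5⟩ := h
  exact ⟨J, K, mem_specialUnitaryGroup_iff.mpr ⟨hJ, h1⟩, mem_specialUnitaryGroup_iff.mpr ⟨hK, h2⟩,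
    h3, h4, h5⟩

theorem fromBlocks_mem_unitary {A : Matrix ι ι ℂ} {B : Matrix κ κ ℂ}
    (hA : A ∈ unitaryGroup ι ℂ) (hB : B ∈ unitaryGroup κ ℂ) :
    fromBlocks A 0 0 B ∈ unitaryGroup (ι ⊕ κ) ℂ := by
  rw [mem_unitaryGroup_iff, star_eq_conjTranspose, fromBlocks_conjTranspose, fromBlocks_multiply]
  simp only [conjTranspose_zero, Matrix.mul_zero, Matrix.zero_mul, add_zero, zero_add, ← star_eq_conjTranspose,
    mem_unitaryGroup_iff.mp hA, mem_unitaryGroup_iff.mp hB, fromBlocks_one]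

theorem IsQ.sum {s t : ℂ} {A : Matrix ι ι ℂ} {B : Matrix κ κ ℂ} (hA : IsQ s A) (hB : IsQ t B) :
    IsQ (s * t) (fromBlocks A 0 0 B) := by
  obtain ⟨J, K, hJ, hK, h1, h2, h3, h4, rfl⟩ := hA
  obtain ⟨J', K', hJ', hK', h1', h2', h3', h4', rfl⟩ := hB
  refine ⟨fromBlocks J 0 0 J', fromBlocks K 0 0 K', fromBlocks_mem_unitary hJ hJ',
    fromBlocks_mem_unitary hK hK', ?_, ?_, ?_, ?_, ?_⟩
  · rw [det_fromBlocks_zero₂₁, h1, h1']
  · rw [det_fromBlocks_zero₂₁, h2, h2']
  · rw [fromBlocks_multiply]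
    simp only [Matrix.mul_zero, Matrix.zero_mul, add_zero, zero_add, h3, h3', fromBlocks_one]
  · rw [fromBlocks_multiply]
    simp only [Matrix.mul_zero, Matrix.zero_mul, add_zero, zero_add, h4, h4', fromBlocks_one]
  · rw [fromBlocks_multiply]
    simp only [Matrix.mul_zero, Matrix.zero_mul, add_zero, zero_add]

/-- `P` is the characteristic polynomial of a diagonal matrix which is a product of two unitary
involutions of determinant `s`. -/
def GoodPoly (s : ℂ) (P : ℂ[X]) : Prop :=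
  ∃ (κ : Type) (_ : Fintype κ) (_ : DecidableEq κ) (d : κ → ℂ), IsQ s (diagonal d) ∧
    P = ∏ j, (X - C (d j))

theorem goodPoly_one : GoodPoly 1 1 := by
  refine ⟨Empty, inferInstance, inferInstance, fun i => i.elim, ?_, ?_⟩
  · refine ⟨1, 1, one_mem _, one_mem _, det_one, det_one, one_mul _, one_mul _, ?_⟩
    exact Subsingleton.elim _ _
  · simp

theorem GoodPoly.mul {s t : ℂ} {P Q : ℂ[X]} (hP : GoodPoly s P) (hQ : GoodPoly t Q) :
    GoodPoly (s * t) (P * Q) := by
  obtain ⟨κ, _, _, d, h1, rfl⟩ := hP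
  obtain ⟨κ', _, _, d', h1', rfl⟩ := hQ
  refine ⟨κ ⊕ κ', inferInstance, inferInstance, Sum.elim d d', ?_, ?_⟩
  · have := h1.sum h1'
    rwa [fromBlocks_diagonal] at this
  · rw [Fintype.prod_sum_type]; simp

theorem goodPoly_pair {r : ℂ} (hr : r * star r = 1) : GoodPoly (-1) ((X - C r) * (X - C (star r))) := by
  have hr' : star r * r = 1 := by rw [mul_comm]; exact hr
  refine ⟨Fin 2, inferInstance, inferInstance, ![r, star r], ?_, ?_⟩
  · refine ⟨!![0, r; star r, 0], !![0, 1; 1, 0], ?_, ?_, ?_, ?_, ?_, ?_, ?_⟩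
    · rw [mem_unitaryGroup_iff]
      ext i j
      fin_cases i <;> fin_cases j <;> simp [star_eq_conjTranspose, Matrix.mul_apply,
        Fin.sum_univ_two, conjTranspose_apply] <;> simpa using ‹_›
    · rw [mem_unitaryGroup_iff]
      ext i j
      fin_cases i <;> fin_cases j <;> simp [star_eq_conjTranspose, Matrix.mul_apply,
        Fin.sum_univ_two, conjTranspose_apply]
    · rw [det_fin_two_of, hr]; ring
    · rw [det_fin_two_of]; ring
    · ext i j
      fin_cases i <;> fin_cases j <;> simp [Matrix.mul_apply, Fin.sum_univ_two] <;> simpa using ‹_›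
    · ext i j
      fin_cases i <;> fin_cases j <;> simp [Matrix.mul_apply, Fin.sum_univ_two]
    · ext i j
      fin_cases i <;> fin_cases j <;> simp [Matrix.mul_apply, Fin.sum_univ_two]
  · rw [Fin.prod_univ_two]; simp

theorem goodPoly_X_sub_one {s : ℂ} (hs : s = 1 ∨ s = -1) : GoodPoly s (X - C 1) := by
  have hss : s * s = 1 := by rcases hs with rfl | rfl <;> norm_num
  have hst : star s = s := by rcases hs with rfl | rfl <;> simp
  have hunit : diagonal (fun _ : Unit => s) ∈ unitaryGroup Unit ℂ := by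
    rw [mem_unitaryGroup_iff, star_eq_conjTranspose, diagonal_conjTranspose, diagonal_mul_diagonal]
    ext i j
    have : i = j := Subsingleton.elim _ _
    subst this
    simp only [diagonal_apply_eq, Pi.star_apply, hst, hss, one_apply_eq]
  refine ⟨Unit, inferInstance, inferInstance, fun _ => 1, ?_, by simp⟩
  refine ⟨diagonal fun _ => s, diagonal fun _ => s, hunit, hunit, by simp, by simp, ?_, ?_, ?_⟩
  · rw [diagonal_mul_diagonal, hss]; rfl
  · rw [diagonal_mul_diagonal, hss]; rfl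
  · rw [diagonal_mul_diagonal, hss]

theorem goodPoly_sq {e : ℂ} (he : e = 1 ∨ e = -1) : GoodPoly 1 ((X - C e) * (X - C e)) := by
  have hss : e * e = 1 := by rcases he with rfl | rfl <;> norm_num
  have hst : star e = e := by rcases he with rfl | rfl <;> simp
  refine ⟨Fin 2, inferInstance, inferInstance, fun _ => e, ?_, ?_⟩
  · refine ⟨diagonal fun _ => e, 1, ?_, one_mem _, ?_, det_one, ?_, one_mul _, ?_⟩
    · rw [mem_unitaryGroup_iff, star_eq_conjTranspose, diagonal_conjTranspose,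
        diagonal_mul_diagonal]
      ext i j
      by_cases hij : i = j
      · subst hij
        simp only [diagonal_apply_eq, Pi.star_apply, hst, hss, one_apply_eq]
      · rw [diagonal_apply_ne _ hij, one_apply_ne hij]
    · rw [det_diagonal, Fin.prod_univ_two, hss]
    · rw [diagonal_mul_diagonal, hss]; rfl
    · rw [mul_one]
  · rw [Fin.prod_univ_two]

theorem goodPoly_prod {α : Type*} (s : Finset α) (r : α → ℂ)
    (hr : ∀ i ∈ s, r i * star (r i) = 1) :
    GoodPoly ((-1) ^ s.card) (∏ i ∈ s, ((X - C (r i)) * (X - C (star (r i))))) := by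
  classical
  induction s using Finset.induction_on with
  | empty => simpa using goodPoly_one
  | insert a s ha ih =>
    rw [Finset.prod_insert ha, Finset.card_insert_of_notMem ha, pow_succ']
    exact (goodPoly_pair (hr a (Finset.mem_insert_self _ _))).mul
      (ih fun i hi => hr i (Finset.mem_insert_of_mem hi))

theorem GoodPoly.isP2 {A : Matrix ι ι ℂ} (hA : A ∈ unitaryGroup ι ℂ)
    (h : GoodPoly 1 A.charpoly) : IsP2 A := by
  obtain ⟨κ, _, _, d, h1, h2⟩ := h
  obtain ⟨e, U, hU, h3⟩ := Pool.Agent.H85.transfer hA d h2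
  rw [h3]
  exact (h1.isP2.reindex e).conj hU

end Pool.Agent.H85
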