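import Pool.Agent.H85.IndexIneq

set_option autoImplicit false

open scoped Pointwise

namespace Pool.Agent.H85

/-- The weighted shift `e_j ↦ p ^ (α j) e_{ξ j}` as a matrix. -/
noncomputable def wshift (p : ℕ) [Fact p.Prime] {ι : Type*} [DecidableEq ι]
    (ξ : ι → ι) (α : ι → ℕ) : Matrix ι ι ℤ_[p] :=
  Matrix.of fun i j => if i = ξ j then (p : ℤ_[p]) ^ (α j) else 0

theorem wshift_mul_apply {p : ℕ} [Fact p.Prime] {ι : Type*} [Fintype ι] [DecidableEq ι]
    (ξ η : ι → ι) (α β : ι → ℕ) (i j : ι) :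
    (wshift p ξ α * wshift p η β) i j =
      if i = ξ (η j) then (p : ℤ_[p]) ^ (α (η j) + β j) else 0 := by
  rw [Matrix.mul_apply, Finset.sum_eq_single (η j)]
  · simp only [wshift, Matrix.of_apply, if_true]
    split_ifs with h
    · rw [pow_add]
    · rw [zero_mul]
  · intro b _ hb
    simp only [wshift, Matrix.of_apply]
    rw [if_neg hb, mul_zero]
  · intro h; exact absurd (Finset.mem_univ _) h

theorem wshift_single {p : ℕ} [Fact p.Prime] {ι : Type*} [Fintype ι] [DecidableEq ι]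
    (ξ : ι → ι) (α : ι → ℕ) (j : ι) :
    (wshift p ξ α).mulVec (Pi.single j 1) = (p : ℤ_[p]) ^ (α j) • (Pi.single (ξ j) 1 : ι → ℤ_[p]) := by
  funext i
  rw [Matrix.mulVec_single_one]
  simp only [Matrix.col_apply, wshift, Matrix.of_apply, Pi.smul_apply, smul_eq_mul, Pi.single_apply]
  split_ifs <;> simp

theorem wshift_mulVec_apply {p : ℕ} [Fact p.Prime] {ι : Type*} [Fintype ι] [DecidableEq ι]
    (ξ : ι → ι) (hξ : Function.Injective ξ) (α : ι → ℕ) (v : ι → ℤ_[p]) (j : ι) :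
    (wshift p ξ α).mulVec v (ξ j) = (p : ℤ_[p]) ^ (α j) * v j := by
  rw [Matrix.mulVec, dotProduct, Finset.sum_eq_single j]
  · simp [wshift]
  · intro b _ hb
    simp only [wshift, Matrix.of_apply]
    rw [if_neg (fun h => hb (hξ h).symm), zero_mul]
  · intro h; exact absurd (Finset.mem_univ _) h

/-- If `X', Y'` commute and are congruent mod `p ^ 2` to weighted shifts whose smaller
in-weights and smaller out-weights are at most one, then the index inequality holds. -/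
theorem card_le_of_near {p : ℕ} [hp : Fact p.Prime] {ι : Type*} [Fintype ι] [DecidableEq ι]
    (ξ η : ι → ι) (hξ : Function.Injective ξ) (hη : Function.Injective η) (α β : ι → ℕ)
    (X' Y' Z W : Matrix ι ι ℤ_[p]) (hcomm : X' * Y' = Y' * X')
    (hX : X' = wshift p ξ α - (p : ℤ_[p]) ^ 2 • Z)
    (hY : Y' = wshift p η β - (p : ℤ_[p]) ^ 2 • W)
    (hin : ∀ i, (∃ w, ξ w = i ∧ α w ≤ 1) ∨ (∃ w, η w = i ∧ β w ≤ 1))
    (hout : ∀ i, α i ≤ 1 ∨ β i ≤ 1)
    {σ γ : Type} [Fintype σ] [Fintype γ] (s : σ → ι) (hs : Function.Injective s)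
    (hsα : ∀ a, 1 ≤ α (s a)) (hsβ : ∀ a, 1 ≤ β (s a))
    (g : γ → ι)
    (hg : ∀ i, (∃ b, g b = i) ∨ (∃ w, ξ w = i ∧ α w = 0) ∨ (∃ w, η w = i ∧ β w = 0)) :
    Fintype.card σ ≤ Fintype.card γ := by
  have hp0 : (p : ℤ_[p]) ≠ 0 := by
    exact_mod_cast hp.out.ne_zero
  have hXv : ∀ v, X'.mulVec v = (wshift p ξ α).mulVec v - (p : ℤ_[p]) ^ 2 • Z.mulVec v := by
    intro v; rw [hX, Matrix.sub_mulVec, Matrix.smul_mulVec]
  have hYv : ∀ v, Y'.mulVec v = (wshift p η β).mulVec v - (p : ℤ_[p]) ^ 2 • W.mulVec v := by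
    intro v; rw [hY, Matrix.sub_mulVec, Matrix.smul_mulVec]
  have hjac : Ideal.span {(p : ℤ_[p])} ≤ Ideal.jacobson ⊥ := by
    rw [← PadicInt.maximalIdeal_eq_span_p]
    exact IsLocalRing.maximalIdeal_le_jacobson _
  have hXs : ∀ j, X'.mulVec (Pi.single j 1) =
      (p : ℤ_[p]) ^ (α j) • (Pi.single (ξ j) 1 : ι → ℤ_[p]) -
        (p : ℤ_[p]) ^ 2 • Z.mulVec (Pi.single j 1) := by
    intro j; rw [hXv, wshift_single]
  have hYs : ∀ j, Y'.mulVec (Pi.single j 1) =
      (p : ℤ_[p]) ^ (β j) • (Pi.single (η j) 1 : ι → ℤ_[p]) -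
        (p : ℤ_[p]) ^ 2 • W.mulVec (Pi.single j 1) := by
    intro j; rw [hYv, wshift_single]
  set N : Submodule ℤ_[p] (ι → ℤ_[p]) :=
    LinearMap.range (Matrix.toLin' X') ⊔ LinearMap.range (Matrix.toLin' Y') with hN
  have hXN : ∀ v, X'.mulVec v ∈ N := fun v =>
    Submodule.mem_sup_left ⟨v, Matrix.toLin'_apply _ _⟩
  have hYN : ∀ v, Y'.mulVec v ∈ N := fun v =>
    Submodule.mem_sup_right ⟨v, Matrix.toLin'_apply _ _⟩
  -- `p L ⊆ N`
  have hpN : Ideal.span {(p : ℤ_[p])} • (⊤ : Submodule ℤ_[p] (ι → ℤ_[p])) ≤ N := by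
    apply Submodule.le_of_le_smul_of_le_jacobson_bot (I := Ideal.span {(p : ℤ_[p])})
      (IsNoetherian.noetherian _) hjac
    rw [Submodule.ideal_span_singleton_smul, Submodule.ideal_span_singleton_smul]
    have hkey : ∀ i, (p : ℤ_[p]) • (Pi.single i 1 : ι → ℤ_[p]) ∈
        N ⊔ (p : ℤ_[p]) • (p : ℤ_[p]) • (⊤ : Submodule ℤ_[p] (ι → ℤ_[p])) := by
      intro i
      rcases hin i with ⟨w, rfl, hw⟩ | ⟨w, rfl, hw⟩
      · have h1 : (p : ℤ_[p]) • (Pi.single (ξ w) 1 : ι → ℤ_[p]) =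
            (p : ℤ_[p]) ^ (1 - α w) • X'.mulVec (Pi.single w 1) +
            (p : ℤ_[p]) • (p : ℤ_[p]) • ((p : ℤ_[p]) ^ (1 - α w) • Z.mulVec (Pi.single w 1)) := by
          rw [hXs, smul_sub, smul_smul, smul_smul, smul_smul, smul_smul, ← pow_add,
            Nat.sub_add_cancel hw, pow_one]
          have : (p : ℤ_[p]) ^ (1 - α w) * (p : ℤ_[p]) ^ 2 =
            (p : ℤ_[p]) * (p : ℤ_[p]) * (p : ℤ_[p]) ^ (1 - α w) := by ring
          rw [this, sub_add_cancel]
        rw [h1]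
        exact Submodule.add_mem_sup (Submodule.smul_mem _ _ (hXN _))
          (Submodule.smul_mem_pointwise_smul _ _ _ (Submodule.smul_mem_pointwise_smul _ _ _ trivial))
      · have h1 : (p : ℤ_[p]) • (Pi.single (η w) 1 : ι → ℤ_[p]) =
            (p : ℤ_[p]) ^ (1 - β w) • Y'.mulVec (Pi.single w 1) +
            (p : ℤ_[p]) • (p : ℤ_[p]) • ((p : ℤ_[p]) ^ (1 - β w) • W.mulVec (Pi.single w 1)) := by
          rw [hYs, smul_sub, smul_smul, smul_smul, smul_smul, smul_smul, ← pow_add,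
            Nat.sub_add_cancel hw, pow_one]
          have : (p : ℤ_[p]) ^ (1 - β w) * (p : ℤ_[p]) ^ 2 =
            (p : ℤ_[p]) * (p : ℤ_[p]) * (p : ℤ_[p]) ^ (1 - β w) := by ring
          rw [this, sub_add_cancel]
        rw [h1]
        exact Submodule.add_mem_sup (Submodule.smul_mem _ _ (hYN _))
          (Submodule.smul_mem_pointwise_smul _ _ _ (Submodule.smul_mem_pointwise_smul _ _ _ trivial))
    intro v hv
    obtain ⟨v, _, rfl⟩ := (Submodule.mem_smul_pointwise_iff_exists _ _ _).mp hv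
    have hv : v = ∑ i, v i • (Pi.single i 1 : ι → ℤ_[p]) := by
      funext k
      simp [Finset.sum_apply, Pi.single_apply]
    rw [hv, Finset.smul_sum]
    apply Submodule.sum_mem
    intro i _
    rw [smul_comm (p : ℤ_[p]) (v i)]
    exact Submodule.smul_mem _ _ (hkey i)
  have hpL : ∀ v : ι → ℤ_[p], (p : ℤ_[p]) • v ∈ N := fun v =>
    hpN (Submodule.smul_mem_smul (Ideal.mem_span_singleton_self _) trivial)
  have hppL : ∀ v : ι → ℤ_[p], (p : ℤ_[p]) ^ 2 • v ∈ N := fun v => by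
    rw [pow_two, ← smul_smul]; exact hpL _
  -- trivial common kernel
  have hker : ∀ v, X'.mulVec v = 0 → Y'.mulVec v = 0 → v = 0 := by
    set K : Submodule ℤ_[p] (ι → ℤ_[p]) :=
      LinearMap.ker (Matrix.toLin' X') ⊓ LinearMap.ker (Matrix.toLin' Y') with hK
    have hKmem : ∀ v, v ∈ K ↔ X'.mulVec v = 0 ∧ Y'.mulVec v = 0 := by
      intro v
      rw [hK, Submodule.mem_inf, LinearMap.mem_ker, LinearMap.mem_ker, Matrix.toLin'_apply,
        Matrix.toLin'_apply]
    have hKbot : K = ⊥ := by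
      apply Submodule.eq_bot_of_le_smul_of_le_jacobson_bot (Ideal.span {(p : ℤ_[p])}) K
        (IsNoetherian.noetherian _) _ hjac
      rw [Submodule.ideal_span_singleton_smul]
      intro v hv
      obtain ⟨hv1, hv2⟩ := (hKmem v).mp hv
      have hdiv : ∀ i, (p : ℤ_[p]) ∣ v i := by
        intro i
        rcases hout i with h | h
        · have h1 := congrFun hv1 (ξ i)
          rw [hXv, Pi.sub_apply, wshift_mulVec_apply ξ hξ, Pi.smul_apply, Pi.zero_apply,
            sub_eq_zero, smul_eq_mul] at h1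
          have h2 : (p : ℤ_[p]) ^ (α i) * v i =
              (p : ℤ_[p]) ^ (α i) * ((p : ℤ_[p]) * ((p : ℤ_[p]) ^ (1 - α i) * Z.mulVec v (ξ i))) := by
            rw [h1]
            have : (p : ℤ_[p]) ^ 2 = (p : ℤ_[p]) ^ (α i) * ((p : ℤ_[p]) * (p : ℤ_[p]) ^ (1 - α i)) := by
              rw [← pow_succ', ← pow_add]; congr 1; omega
            rw [this]; ring
          exact ⟨_, mul_left_cancel₀ (pow_ne_zero _ hp0) h2⟩
        · have h1 := congrFun hv2 (η i)
          rw [hYv, Pi.sub_apply, wshift_mulVec_apply η hη, Pi.smul_apply, Pi.zero_apply,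
            sub_eq_zero, smul_eq_mul] at h1
          have h2 : (p : ℤ_[p]) ^ (β i) * v i =
              (p : ℤ_[p]) ^ (β i) * ((p : ℤ_[p]) * ((p : ℤ_[p]) ^ (1 - β i) * W.mulVec v (η i))) := by
            rw [h1]
            have : (p : ℤ_[p]) ^ 2 = (p : ℤ_[p]) ^ (β i) * ((p : ℤ_[p]) * (p : ℤ_[p]) ^ (1 - β i)) := by
              rw [← pow_succ', ← pow_add]; congr 1; omega
            rw [this]; ring
          exact ⟨_, mul_left_cancel₀ (pow_ne_zero _ hp0) h2⟩
      choose v' hv' using hdiv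
      have hvv : v = (p : ℤ_[p]) • v' := by
        funext i; rw [Pi.smul_apply, smul_eq_mul]; exact hv' i
      rw [hvv]
      apply Submodule.smul_mem_pointwise_smul
      rw [hKmem]
      rw [hvv, Matrix.mulVec_smul] at hv1 hv2
      exact ⟨(smul_eq_zero.mp hv1).resolve_left hp0, (smul_eq_zero.mp hv2).resolve_left hp0⟩
    intro v h1 h2
    have : v ∈ K := (hKmem v).mpr ⟨h1, h2⟩
    rw [hKbot] at this
    exact (Submodule.mem_bot _).mp this
  refine index_ineq (p := p) (Matrix.toLin' X') (Matrix.toLin' Y') ?_ s hs ?_ ?_ g ?_ hpL ?_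
  · intro v
    rw [Matrix.toLin'_apply, Matrix.toLin'_apply, Matrix.toLin'_apply, Matrix.toLin'_apply,
      Matrix.mulVec_mulVec, Matrix.mulVec_mulVec, hcomm]
  · intro a
    refine ⟨(p : ℤ_[p]) ^ (α (s a) - 1) • (Pi.single (ξ (s a)) 1 : ι → ℤ_[p]) -
        (p : ℤ_[p]) • Z.mulVec (Pi.single (s a) 1), ?_⟩
    rw [Matrix.toLin'_apply, hXs, smul_sub, smul_smul, smul_smul, ← pow_succ', ← pow_two,
      Nat.sub_add_cancel (hsα a)]
  · intro a
    refine ⟨(p : ℤ_[p]) ^ (β (s a) - 1) • (Pi.single (η (s a)) 1 : ι → ℤ_[p]) -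
        (p : ℤ_[p]) • W.mulVec (Pi.single (s a) 1), ?_⟩
    rw [Matrix.toLin'_apply, hYs, smul_sub, smul_smul, smul_smul, ← pow_succ', ← pow_two,
      Nat.sub_add_cancel (hsβ a)]
  · intro i
    rcases hg i with h | ⟨w, rfl, hw⟩ | ⟨w, rfl, hw⟩
    · exact Or.inl h
    · right
      have h1 := hXs w
      rw [hw, pow_zero, one_smul] at h1
      have h2 : (Pi.single (ξ w) 1 : ι → ℤ_[p]) =
          X'.mulVec (Pi.single w 1) + (p : ℤ_[p]) ^ 2 • Z.mulVec (Pi.single w 1) := by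
        rw [h1, sub_add_cancel]
      rw [h2]
      exact Submodule.add_mem _ (hXN _) (hppL _)
    · right
      have h1 := hYs w
      rw [hw, pow_zero, one_smul] at h1
      have h2 : (Pi.single (η w) 1 : ι → ℤ_[p]) =
          Y'.mulVec (Pi.single w 1) + (p : ℤ_[p]) ^ 2 • W.mulVec (Pi.single w 1) := by
        rw [h1, sub_add_cancel]
      rw [h2]
      exact Submodule.add_mem _ (hYN _) (hppL _)
  · intro v h1 h2
    exact hker v (by rwa [Matrix.toLin'_apply] at h1) (by rwa [Matrix.toLin'_apply] at h2)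

end Pool.Agent.H85
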